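import Pool.Agent.PrbM.Chn

/-!
# PrbM DCM: decompositions into products
-/

set_option autoImplicit false

namespace Pool.Agent.PrbM

open Finset

open scoped Classical

variable {C U V : Type}

-- BEGIN Dec.mono
/-- D1. -/
theorem Dec.mono {N N' : ℕ} (h : N ≤ N') {p : U → V → ℝ} (hp : Dec N p) : Dec N' p := by
  obtain ⟨F, G, hF, hG, hs⟩ := hp
  obtain ⟨k, rfl⟩ := Nat.exists_eq_add_of_le h
  refine ⟨fun i u => Fin.addCases (fun a => F a u) (fun _ => 0) i,
    fun i v => Fin.addCases (fun a => G a v) (fun _ => 0) i, ?_, ?_, ?_⟩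
  · intro i u
    refine Fin.addCases (fun a => ?_) (fun a => ?_) i
    · simp only [Fin.addCases_left]; exact hF a u
    · simp only [Fin.addCases_right]; norm_num
  · intro i v
    refine Fin.addCases (fun a => ?_) (fun a => ?_) i
    · simp only [Fin.addCases_left]; exact hG a v
    · simp only [Fin.addCases_right]; norm_num
  · intro u v
    rw [hs, Fin.sum_univ_add]
    simp only [Fin.addCases_left, Fin.addCases_right, mul_zero, Finset.sum_const_zero, add_zero]
-- END Dec.mono

-- BEGIN Dec.swap
/-- D2. -/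
theorem Dec.swap {N : ℕ} {p : U → V → ℝ} (hp : Dec N p) : Dec N (fun v u => p u v) := by
  obtain ⟨F, G, hF, hG, h⟩ := hp
  refine ⟨G, F, hG, hF, fun v u => ?_⟩
  show p u v = _
  rw [h u v]
  exact Finset.sum_congr rfl fun i _ => mul_comm _ _
-- END Dec.swap

-- BEGIN Dec.mul
/-- D3. -/
theorem Dec.mul {N N' : ℕ} {p p' : U → V → ℝ} (hp : Dec N p) (hp' : Dec N' p') :
    Dec (N * N') (fun u v => p u v * p' u v) := by
  obtain ⟨F, G, hF, hG, h⟩ := hp
  obtain ⟨F', G', hF', hG', h'⟩ := hp'
  refine ⟨fun k u => F (finProdFinEquiv.symm k).1 u * F' (finProdFinEquiv.symm k).2 u,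
    fun k v => G (finProdFinEquiv.symm k).1 v * G' (finProdFinEquiv.symm k).2 v, ?_, ?_, ?_⟩
  · intro k u
    obtain ⟨a, b⟩ := hF (finProdFinEquiv.symm k).1 u
    obtain ⟨a', b'⟩ := hF' (finProdFinEquiv.symm k).2 u
    exact ⟨mul_nonneg a a', mul_le_one₀ b a' b'⟩
  · intro k v
    obtain ⟨a, b⟩ := hG (finProdFinEquiv.symm k).1 v
    obtain ⟨a', b'⟩ := hG' (finProdFinEquiv.symm k).2 v
    exact ⟨mul_nonneg a a', mul_le_one₀ b a' b'⟩
  · intro u v
    show p u v * p' u v = _
    rw [h u v, h' u v, Finset.sum_mul_sum, ← Finset.sum_product', Finset.univ_product_univ,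
      Equiv.sum_comp finProdFinEquiv.symm (fun x : Fin N × Fin N' =>
        F x.1 u * F' x.2 u * (G x.1 v * G' x.2 v))]
    exact Finset.sum_congr rfl fun x _ => by ring
-- END Dec.mul

-- BEGIN Dec.pow
/-- D4. -/
theorem Dec.pow {N : ℕ} {p : U → V → ℝ} (hp : Dec N p) (L : ℕ) :
    Dec (N ^ L) (fun u v => p u v ^ L) := by
  induction L with
  | zero =>
    refine ⟨fun _ _ => 1, fun _ _ => 1, fun _ _ => ⟨zero_le_one, le_rfl⟩,
      fun _ _ => ⟨zero_le_one, le_rfl⟩, fun u v => ?_⟩
    simp
  | succ L ih =>
    have h := Dec.mul ih hp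
    rw [pow_succ]
    have he : (fun u v => p u v ^ (L + 1)) = (fun u v => p u v ^ L * p u v) := by
      funext u v
      rw [pow_succ]
    rw [he]
    exact h
-- END Dec.pow

-- BEGIN Dec.comb
/-- D5. `α + ∑_e κ_e p_e` -/
theorem Dec.comb {N : ℕ} (E : Finset C) (α : U → ℝ) (κ : C → U → ℝ) (p : C → U → V → ℝ)
    (hα : ∀ u, 0 ≤ α u ∧ α u ≤ 1) (hκ : ∀ e ∈ E, ∀ u, 0 ≤ κ e u ∧ κ e u ≤ 1)
    (hp : ∀ e ∈ E, Dec N (p e)) :
    Dec (1 + E.card * N) (fun u v => α u + ∑ e ∈ E, κ e u * p e u v) := by
  choose F G h1 h2 h3 using hp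
  let F' : Option ({x // x ∈ E} × Fin N) → U → ℝ := fun o u =>
    match o with
    | none => α u
    | some x => κ x.1.1 u * F x.1.1 x.1.2 x.2 u
  let G' : Option ({x // x ∈ E} × Fin N) → V → ℝ := fun o v =>
    match o with
    | none => 1
    | some x => G x.1.1 x.1.2 x.2 v
  have hF : ∀ o u, 0 ≤ F' o u ∧ F' o u ≤ 1 := by
    intro o u
    rcases o with _ | x
    · exact hα u
    · exact ⟨mul_nonneg (hκ _ x.1.2 u).1 (h1 _ x.1.2 x.2 u).1,
        mul_le_one₀ (hκ _ x.1.2 u).2 (h1 _ x.1.2 x.2 u).1 (h1 _ x.1.2 x.2 u).2⟩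
  have hG : ∀ o v, 0 ≤ G' o v ∧ G' o v ≤ 1 := by
    intro o v
    rcases o with _ | x
    · exact ⟨zero_le_one, le_rfl⟩
    · exact h2 _ x.1.2 x.2 v
  have hc : Fintype.card (Option ({x // x ∈ E} × Fin N)) = 1 + E.card * N := by
    rw [Fintype.card_option, Fintype.card_prod, Fintype.card_coe, Fintype.card_fin, add_comm]
  let g : Option ({x // x ∈ E} × Fin N) ≃ Fin (1 + E.card * N) := Fintype.equivFinOfCardEq hc
  refine ⟨fun i => F' (g.symm i), fun i => G' (g.symm i), fun i u => hF _ u, fun i v => hG _ v, fun u v => ?_⟩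
  rw [Equiv.sum_comp g.symm (fun o => F' o u * G' o v), Fintype.sum_option, Fintype.sum_prod_type]
  show α u + ∑ e ∈ E, κ e u * p e u v = α u * 1 + _
  rw [← Finset.sum_coe_sort E]
  rw [mul_one]
  congr 1
  refine Finset.sum_congr rfl fun e _ => ?_
  rw [h3 e.1 e.2 u v, Finset.mul_sum]
  refine Finset.sum_congr rfl fun i _ => ?_
  show κ e.1 u * (F e.1 e.2 i u * G e.1 e.2 i v) = κ e.1 u * F e.1 e.2 i u * G e.1 e.2 i v
  ring
-- END Dec.comb

-- BEGIN rr_comb
/-- D6. A phase in `A` is a combination of the values of `h` at the exits, with coefficients that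
depend on `u` only. Induction on `t`, for all `c ∈ A`: the next configuration `st u v c b` does not
depend on `v`; choose the functions given by the induction hypothesis for all `c' ∈ A`. -/
theorem rr_comb (acc : Set C) (st : U → V → C → Bool → C) (A B : Set C) (EX : Finset C)
    (hA : ∀ u v v' c b, c ∈ A → st u v c b = st u v' c b)
    (hex : ∀ u v c b, c ∈ A → st u v c b ∉ A → st u v c b ∈ B → st u v c b ∈ EX)
    (h : U → V → C → ℝ) (t : ℕ) (c : C) (hc : c ∈ A) :
    ∃ (α : U → ℝ) (κ : C → U → ℝ), (∀ u, 0 ≤ α u ∧ α u ≤ 1) ∧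
      (∀ e ∈ EX, ∀ u, 0 ≤ κ e u ∧ κ e u ≤ 1) ∧
      ∀ u v, rr acc (st u v) A B (h u v) t c = α u + ∑ e ∈ EX, κ e u * h u v e := by
  induction t generalizing c with
  | zero =>
    refine ⟨fun _ => if c ∈ acc then 1 else 0, fun _ _ => 0, fun u => ?_, fun e _ u => ?_,
      fun u v => ?_⟩
    · show 0 ≤ (if c ∈ acc then (1 : ℝ) else 0) ∧ (if c ∈ acc then (1 : ℝ) else 0) ≤ 1
      split_ifs <;> norm_num
    · norm_num
    · show (if c ∈ acc then (1 : ℝ) else 0) = (if c ∈ acc then (1 : ℝ) else 0) + ∑ e ∈ EX, 0 * h u v e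
      simp
  | succ t ih =>
    rcases isEmpty_or_nonempty V with hV | hV
    · exact ⟨fun _ => 0, fun _ _ => 0, fun _ => ⟨le_refl _, by norm_num⟩,
        fun _ _ _ => ⟨le_refl _, by norm_num⟩, fun u v => (hV.false v).elim⟩
    obtain ⟨v0⟩ := hV
    choose! α κ h1 h2 h3 using ih
    refine ⟨fun u => (∑ b : Bool, (if st u v0 c b ∈ A then α (st u v0 c b) u else 0)) / 2,
      fun e u => (∑ b : Bool, (if st u v0 c b ∈ A then κ (st u v0 c b) e u else
        if st u v0 c b ∈ B then (if st u v0 c b = e then 1 else 0) else 0)) / 2, fun u => ?_,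
      fun e he u => ?_, fun u v => ?_⟩
    · have hb : ∀ b : Bool, 0 ≤ (if st u v0 c b ∈ A then α (st u v0 c b) u else 0) ∧
          (if st u v0 c b ∈ A then α (st u v0 c b) u else 0) ≤ 1 := by
        intro b
        split_ifs with hb
        · exact h1 _ hb u
        · norm_num
      have ht := hb true
      have hf := hb false
      simp only [Fintype.sum_bool]
      constructor <;> linarith [ht.1, ht.2, hf.1, hf.2]
    · have hb : ∀ b : Bool, 0 ≤ (if st u v0 c b ∈ A then κ (st u v0 c b) e u else
          if st u v0 c b ∈ B then (if st u v0 c b = e then (1 : ℝ) else 0) else 0) ∧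
          (if st u v0 c b ∈ A then κ (st u v0 c b) e u else
          if st u v0 c b ∈ B then (if st u v0 c b = e then (1 : ℝ) else 0) else 0) ≤ 1 := by
        intro b
        by_cases hb : st u v0 c b ∈ A
        · rw [if_pos hb]
          exact h2 _ hb e he u
        · rw [if_neg hb]
          split_ifs <;> norm_num
      have ht := hb true
      have hf := hb false
      simp only [Fintype.sum_bool]
      constructor <;> linarith [ht.1, ht.2, hf.1, hf.2]
    · have hb : ∀ b : Bool, (if st u v c b ∈ A then rr acc (st u v) A B (h u v) t (st u v c b) else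
          if st u v c b ∈ B then h u v (st u v c b) else 0)
          = (if st u v0 c b ∈ A then α (st u v0 c b) u else 0)
            + ∑ e ∈ EX, (if st u v0 c b ∈ A then κ (st u v0 c b) e u else
              if st u v0 c b ∈ B then (if st u v0 c b = e then 1 else 0) else 0) * h u v e := by
        intro b
        have hst : st u v c b = st u v0 c b := hA u v v0 c b hc
        rw [hst]
        by_cases hb : st u v0 c b ∈ A
        · rw [if_pos hb, if_pos hb, h3 _ hb u v]
          congr 1
          refine Finset.sum_congr rfl fun e _ => ?_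
          rw [if_pos hb]
        · rw [if_neg hb, if_neg hb, zero_add]
          by_cases hB : st u v0 c b ∈ B
          · rw [if_pos hB]
            have hm : st u v0 c b ∈ EX := hex u v0 c b hc hb hB
            rw [Finset.sum_eq_single (st u v0 c b)]
            · rw [if_neg hb, if_pos hB, if_pos rfl, one_mul]
            · intro e _ hne
              rw [if_neg hb, if_pos hB, if_neg (fun h => hne h.symm), zero_mul]
            · intro h
              exact (h hm).elim
          · rw [if_neg hB]
            symm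
            refine Finset.sum_eq_zero fun e _ => ?_
            rw [if_neg hb, if_neg hB, zero_mul]
      show (∑ b : Bool, (if st u v c b ∈ A then rr acc (st u v) A B (h u v) t (st u v c b) else
          if st u v c b ∈ B then h u v (st u v c b) else 0)) / 2 = _
      rw [Finset.sum_congr rfl (fun b _ => hb b), Finset.sum_add_distrib, Finset.sum_comm, add_div]
      congr 1
      rw [Finset.sum_div]
      refine Finset.sum_congr rfl fun e _ => ?_
      rw [← Finset.sum_mul]
      ring
-- END rr_comb

-- BEGIN dec_vv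
theorem dec_vv_card {a E N : ℕ} (ha : a ≤ E) (hN : 1 ≤ N) : 1 + a * N ≤ N * (1 + E) := by
  nlinarith [Nat.mul_le_mul_right N ha]

/-- D7. Induction on `m` (for both modes): D6 and D5; mode `false` by D2. -/
theorem dec_vv (acc : Set C) (st : U → V → C → Bool → C) (A : Bool → Set C)
    (EX : Bool → Finset C) (E : ℕ) (hE : ∀ s, (EX s).card ≤ E)
    (hT : ∀ u v v' c b, c ∈ A true → st u v c b = st u v' c b)
    (hF : ∀ u u' v c b, c ∈ A false → st u v c b = st u' v c b)
    (hex : ∀ s u v c b, c ∈ A s → st u v c b ∉ A s → st u v c b ∈ A (!s) → st u v c b ∈ EX s)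
    (hEX : ∀ s, ∀ e ∈ EX s, e ∈ A (!s))
    (t m : ℕ) (s : Bool) (c : C) (hc : c ∈ A s) :
    Dec ((1 + E) ^ m) (fun u v => vv acc (st u v) A t m s c) := by
  induction m generalizing s c with
  | zero =>
    cases s with
    | true =>
      obtain ⟨α, κ, hα, hκ, h⟩ := rr_comb acc st (A true) (A false) (EX true) hT
        (fun u v c b => hex true u v c b) (fun _ _ _ => 0) t c hc
      have h1 := Dec.comb (N := 0) (∅ : Finset C) α κ (fun _ _ _ => (0 : ℝ)) hα
        (fun e he => absurd he (Finset.notMem_empty e))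
        (fun e he => absurd he (Finset.notMem_empty e)) (V := V)
      have h2 : (fun (u : U) (v : V) => vv acc (st u v) A t 0 true c) =
          fun u v => α u + ∑ e ∈ (∅ : Finset C), κ e u * (0 : ℝ) := by
        funext u v
        show rr acc (st u v) (A true) (A (!true)) (fun _ => 0) t c = _
        rw [Bool.not_true, h u v]
        simp
      rw [h2]
      simpa using h1
    | false =>
      obtain ⟨α, κ, hα, hκ, h⟩ := rr_comb acc (fun v u => st u v) (A false) (A true) (EX false)
        (fun v u u' c b hc => hF u u' v c b hc)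
        (fun v u c b => hex false u v c b) (fun _ _ _ => 0) t c hc
      have h1 := Dec.comb (N := 0) (∅ : Finset C) α κ (fun _ _ _ => (0 : ℝ)) hα
        (fun e he => absurd he (Finset.notMem_empty e))
        (fun e he => absurd he (Finset.notMem_empty e)) (V := U)
      have h2 : (fun (v : V) (u : U) => vv acc (st u v) A t 0 false c) =
          fun v u => α v + ∑ e ∈ (∅ : Finset C), κ e v * (0 : ℝ) := by
        funext v u
        show rr acc (st u v) (A false) (A (!false)) (fun _ => 0) t c = _
        rw [Bool.not_false, h v u]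
        simp
      have h3 : Dec ((1 + E) ^ 0) (fun (v : V) (u : U) => vv acc (st u v) A t 0 false c) := by
        rw [h2]
        simpa using h1
      exact h3.swap
  | succ m ih =>
    have hN : 1 ≤ (1 + E) ^ m := Nat.one_le_pow _ _ (by omega)
    cases s with
    | true =>
      obtain ⟨α, κ, hα, hκ, h⟩ := rr_comb acc st (A true) (A false) (EX true) hT
        (fun u v c b => hex true u v c b) (fun u v => vv acc (st u v) A t m false) t c hc
      have h1 := Dec.comb (EX true) α κ (fun e u v => vv acc (st u v) A t m false e) hα hκ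
        (fun e he => ih false e (hEX true e he))
      have h2 : (fun (u : U) (v : V) => vv acc (st u v) A t (m + 1) true c) =
          fun u v => α u + ∑ e ∈ EX true, κ e u * vv acc (st u v) A t m false e := by
        funext u v
        exact h u v
      rw [h2, pow_succ]
      exact h1.mono (dec_vv_card (hE true) hN)
    | false =>
      obtain ⟨α, κ, hα, hκ, h⟩ := rr_comb acc (fun v u => st u v) (A false) (A true) (EX false)
        (fun v u u' c b hc => hF u u' v c b hc)
        (fun v u c b => hex false u v c b) (fun v u => vv acc (st u v) A t m true) t c hc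
      have h1 := Dec.comb (EX false) α κ (fun e v u => vv acc (st u v) A t m true e) hα hκ
        (fun e he => (ih true e (hEX false e he)).swap)
      have h2 : (fun (v : V) (u : U) => vv acc (st u v) A t (m + 1) false c) =
          fun v u => α v + ∑ e ∈ EX false, κ e v * vv acc (st u v) A t m true e := by
        funext v u
        exact h v u
      have h3 : Dec ((1 + E) ^ (m + 1))
          (fun (v : V) (u : U) => vv acc (st u v) A t (m + 1) false c) := by
        rw [h2, pow_succ]
        exact h1.mono (dec_vv_card (hE false) hN)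
      exact h3.swap
-- END dec_vv

end Pool.Agent.PrbM
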