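import Mathlib

/-!
# PrbM CHN: random processes with a coin toss in every step

`C` is the set of configurations, `st c b` the next configuration when the coin shows `b`, `acc` the
set of accepting configurations (`st` fixes them).
-/

set_option autoImplicit false

namespace Pool.Agent.PrbM

open Finset

open scoped Classical

variable {C : Type}

/-- the coin sequence that begins with `u` -/
def coins {t : ℕ} (u : Fin t → Bool) : ℕ → Bool := fun i => if h : i < t then u ⟨i, h⟩ else false

/-- the configurations that are reached from `c` with the coin tosses `r 0, r 1, …` -/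
def path (st : C → Bool → C) (c : C) (r : ℕ → Bool) : ℕ → C
  | 0 => c
  | t + 1 => st (path st c r t) (r t)

/-- the probability to be in `acc` after `t` steps -/
noncomputable def pacc (acc : Set C) (st : C → Bool → C) : ℕ → C → ℝ
  | 0, c => if c ∈ acc then 1 else 0
  | t + 1, c => (∑ b : Bool, pacc acc st t (st c b)) / 2

/-- the expectation of the sum of `g` over the first `t` steps -/
noncomputable def ex (g : C → C → ℝ) (st : C → Bool → C) : ℕ → C → ℝ
  | 0, _ => 0
  | t + 1, c => (∑ b : Bool, (g c (st c b) + ex g st t (st c b))) / 2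

/-- The probability to be in `acc` after `t` steps with at most `m` changes of the mode; in mode `s`
the configurations have to stay in `A s`, the mode changes if the next configuration is not in
`A s` but in `A (!s)`. -/
noncomputable def px (acc : Set C) (st : C → Bool → C) (A : Bool → Set C) :
    ℕ → ℕ → Bool → C → ℝ
  | 0, _, _, c => if c ∈ acc then 1 else 0
  | t + 1, m, s, c => (∑ b : Bool, (if st c b ∈ A s then px acc st A t m s (st c b) else
      if st c b ∈ A (!s) then (if m = 0 then 0 else px acc st A t (m - 1) (!s) (st c b)) else 0)) / 2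

/-- one phase of at most `t` steps in `A`; if it ends with a step to `B`, the value is `h` there -/
noncomputable def rr (acc : Set C) (st : C → Bool → C) (A B : Set C) (h : C → ℝ) : ℕ → C → ℝ
  | 0, c => if c ∈ acc then 1 else 0
  | t + 1, c => (∑ b : Bool, (if st c b ∈ A then rr acc st A B h t (st c b) else
      if st c b ∈ B then h (st c b) else 0)) / 2

/-- at most `m + 1` phases of at most `t` steps each -/
noncomputable def vv (acc : Set C) (st : C → Bool → C) (A : Bool → Set C) (t : ℕ) :
    ℕ → Bool → C → ℝ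
  | 0, s, c => rr acc st (A s) (A !s) (fun _ => 0) t c
  | m + 1, s, c => rr acc st (A s) (A !s) (vv acc st A t m (!s)) t c

/-- `p` is a sum of `N` products of functions of one variable with values in `[0,1]` -/
def Dec {U V : Type} (N : ℕ) (p : U → V → ℝ) : Prop :=
  ∃ (F : Fin N → U → ℝ) (G : Fin N → V → ℝ), (∀ i u, 0 ≤ F i u ∧ F i u ≤ 1) ∧
    (∀ i v, 0 ≤ G i v ∧ G i v ≤ 1) ∧ ∀ u v, p u v = ∑ i, F i u * G i v

-- BEGIN pacc_eq
private theorem pacc_eq_zero {t : ℕ} (b : Bool) (u : Fin t → Bool) :
    coins (Fin.cons b u : Fin (t + 1) → Bool) 0 = b := by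
  simp [coins]

private theorem pacc_eq_succ {t : ℕ} (b : Bool) (u : Fin t → Bool) (s : ℕ) :
    coins (Fin.cons b u : Fin (t + 1) → Bool) (s + 1) = coins u s := by
  unfold coins
  by_cases h : s < t
  · rw [dif_pos (by omega : s + 1 < t + 1), dif_pos h]
    rfl
  · rw [dif_neg (by omega : ¬ s + 1 < t + 1), dif_neg h]

private theorem pacc_eq_path {t : ℕ} (st : C → Bool → C) (c : C) (b : Bool) (u : Fin t → Bool)
    (s : ℕ) : path st c (coins (Fin.cons b u : Fin (t + 1) → Bool)) (s + 1) =
      path st (st c b) (coins u) s := by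
  induction s with
  | zero => simp [path, pacc_eq_zero]
  | succ s ih =>
    rw [path, ih, pacc_eq_succ]
    rfl

private theorem pacc_eq_sum (acc : Set C) (st : C → Bool → C) (t : ℕ) (c : C) :
    (({u : Fin t → Bool | path st c (coins u) t ∈ acc}.ncard : ℕ) : ℝ) =
      ∑ u : Fin t → Bool, if path st c (coins u) t ∈ acc then (1 : ℝ) else 0 := by
  rw [Set.ncard_eq_toFinset_card', Finset.sum_boole]
  congr 2
  ext u
  simp

/-- C1. Induction on `t`: split `Fin (t + 1) → Bool` by the first coin (`Fin.consEquiv` or
`Fin.cons`); `path st c (coins (Fin.cons b u)) (t + 1) = path st (st c b) (coins u) t`. -/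
theorem pacc_eq (acc : Set C) (st : C → Bool → C) (t : ℕ) (c : C) :
    pacc acc st t c =
      (({u : Fin t → Bool | path st c (coins u) t ∈ acc}.ncard : ℕ) : ℝ) / 2 ^ t := by
  induction t generalizing c with
  | zero =>
    rw [pacc_eq_sum]
    by_cases hc : c ∈ acc <;> simp [pacc, path, hc]
  | succ t ih =>
    rw [pacc_eq_sum, pacc]
    have h1 : ∑ u : Fin (t + 1) → Bool, (if path st c (coins u) (t + 1) ∈ acc then (1 : ℝ) else 0) =
        ∑ b : Bool, ∑ u : Fin t → Bool,
          (if path st (st c b) (coins u) t ∈ acc then (1 : ℝ) else 0) := by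
      rw [← Fintype.sum_prod_type'
        (f := fun (b : Bool) (u : Fin t → Bool) =>
          (if path st (st c b) (coins u) t ∈ acc then (1 : ℝ) else 0))]
      symm
      apply Fintype.sum_equiv (Fin.consEquiv (fun _ : Fin (t + 1) => Bool))
      rintro ⟨b, u⟩
      show _ = if path st c (coins (Fin.cons b u : Fin (t + 1) → Bool)) (t + 1) ∈ acc then (1 : ℝ)
        else 0
      rw [pacc_eq_path]
    rw [h1, Finset.sum_congr rfl (fun b _ => (ih (st c b)).trans (by rw [pacc_eq_sum])),
      ← Finset.sum_div, div_div, pow_succ]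
-- END pacc_eq

-- BEGIN ex_eq
theorem ex_eq_coins_zero {t : ℕ} (b : Bool) (u : Fin t → Bool) :
    coins (Fin.cons b u : Fin (t + 1) → Bool) 0 = b := by
  simp [coins]

theorem ex_eq_coins_succ {t : ℕ} (b : Bool) (u : Fin t → Bool) (i : ℕ) :
    coins (Fin.cons b u : Fin (t + 1) → Bool) (i + 1) = coins u i := by
  unfold coins
  by_cases h : i < t
  · have h' : i + 1 < t + 1 := by omega
    rw [dif_pos h, dif_pos h']
    exact Fin.cons_succ (α := fun _ => Bool) b u ⟨i, h⟩
  · have h' : ¬ i + 1 < t + 1 := by omega
    rw [dif_neg h, dif_neg h']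

theorem ex_eq_path (st : C → Bool → C) (c : C) {t : ℕ} (b : Bool) (u : Fin t → Bool) (s : ℕ) :
    path st c (coins (Fin.cons b u : Fin (t + 1) → Bool)) (s + 1) = path st (st c b) (coins u) s := by
  induction s with
  | zero => show st c (coins (Fin.cons b u : Fin (t + 1) → Bool) 0) = st c b; rw [ex_eq_coins_zero]
  | succ s ih =>
    show st (path st c (coins (Fin.cons b u : Fin (t + 1) → Bool)) (s + 1))
      (coins (Fin.cons b u : Fin (t + 1) → Bool) (s + 1)) = st (path st (st c b) (coins u) s) (coins u s)
    rw [ih, ex_eq_coins_succ]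

/-- C2. The same for expectations. -/
theorem ex_eq (g : C → C → ℝ) (st : C → Bool → C) (t : ℕ) (c : C) :
    ex g st t c = (∑ u : Fin t → Bool, ∑ s ∈ range t,
      g (path st c (coins u) s) (path st c (coins u) (s + 1))) / 2 ^ t := by
  induction t generalizing c with
  | zero => simp [ex]
  | succ t ih =>
    have hre : (∑ u : Fin (t + 1) → Bool, ∑ s ∈ range (t + 1),
        g (path st c (coins u) s) (path st c (coins u) (s + 1)))
        = ∑ b : Bool, ∑ u : Fin t → Bool, ∑ s ∈ range (t + 1),
          g (path st c (coins (Fin.cons b u : Fin (t + 1) → Bool)) s)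
            (path st c (coins (Fin.cons b u : Fin (t + 1) → Bool)) (s + 1)) := by
      rw [← Fintype.sum_prod_type' (f := fun (b : Bool) (u : Fin t → Bool) => ∑ s ∈ range (t + 1),
          g (path st c (coins (Fin.cons b u : Fin (t + 1) → Bool)) s)
            (path st c (coins (Fin.cons b u : Fin (t + 1) → Bool)) (s + 1)))]
      exact (Fintype.sum_equiv (Fin.consEquiv (fun _ : Fin (t + 1) => Bool)) _ _ (fun x => rfl)).symm
    rw [hre]
    have hb : ∀ b : Bool, (∑ u : Fin t → Bool, ∑ s ∈ range (t + 1),
          g (path st c (coins (Fin.cons b u : Fin (t + 1) → Bool)) s)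
            (path st c (coins (Fin.cons b u : Fin (t + 1) → Bool)) (s + 1)))
        = 2 ^ t * (g c (st c b) + ex g st t (st c b)) := by
      intro b
      have h1 : ∀ u : Fin t → Bool, (∑ s ∈ range (t + 1),
          g (path st c (coins (Fin.cons b u : Fin (t + 1) → Bool)) s)
            (path st c (coins (Fin.cons b u : Fin (t + 1) → Bool)) (s + 1)))
          = (∑ s ∈ range t, g (path st (st c b) (coins u) s) (path st (st c b) (coins u) (s + 1)))
            + g c (st c b) := by
        intro u
        rw [Finset.sum_range_succ']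
        congr 1
        · refine Finset.sum_congr rfl fun s _ => ?_
          rw [ex_eq_path, ex_eq_path]
      rw [Finset.sum_congr rfl (fun u _ => h1 u), Finset.sum_add_distrib, Finset.sum_const, ih (st c b),
        Finset.card_univ, Fintype.card_fun, Fintype.card_fin, Fintype.card_bool, nsmul_eq_mul]
      push_cast
      field_simp
      ring
    rw [Finset.sum_congr rfl (fun b _ => hb b), ← Finset.mul_sum]
    show (∑ b : Bool, (g c (st c b) + ex g st t (st c b))) / 2 = _
    rw [pow_succ]
    field_simp
-- END ex_eq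

-- BEGIN pacc_bdd
/-- C3. -/
theorem pacc_bdd (acc : Set C) (st : C → Bool → C) (t : ℕ) (c : C) :
    0 ≤ pacc acc st t c ∧ pacc acc st t c ≤ 1 := by
  induction t generalizing c with
  | zero =>
    unfold pacc
    split_ifs <;> norm_num
  | succ t ih =>
    have h1 := ih (st c true)
    have h2 := ih (st c false)
    unfold pacc
    rw [Fintype.sum_bool]
    constructor <;> linarith [h1.1, h1.2, h2.1, h2.2]
-- END pacc_bdd

-- BEGIN pacc_mono
/-- C4. (Base: if `c ∈ acc` then `st c b = c ∈ acc`.) -/
theorem pacc_mono (acc : Set C) (st : C → Bool → C) (hacc : ∀ c ∈ acc, ∀ b, st c b = c) (c : C) :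
    Monotone (fun t => pacc acc st t c) := by
  have key : ∀ (t : ℕ) (c : C), pacc acc st t c ≤ pacc acc st (t + 1) c := by
    intro t
    induction t with
    | zero =>
      intro c
      by_cases hc : c ∈ acc
      · have h1 : pacc acc st (0 + 1) c = 1 := by
          have h2 : ∀ b : Bool, pacc acc st 0 (st c b) = 1 := by
            intro b
            rw [hacc c hc b]
            simp only [pacc, if_pos hc]
          simp only [pacc] at h2 ⊢
          simp [h2]
        rw [h1]
        exact (pacc_bdd acc st 0 c).2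
      · have h0 : pacc acc st 0 c = 0 := by
          simp only [pacc, if_neg hc]
        rw [h0]
        exact (pacc_bdd acc st (0 + 1) c).1
    | succ n ih =>
      intro c
      show (∑ b : Bool, pacc acc st n (st c b)) / 2 ≤ (∑ b : Bool, pacc acc st (n + 1) (st c b)) / 2
      apply div_le_div_of_nonneg_right _ (by norm_num)
      exact Finset.sum_le_sum (fun b _ => ih (st c b))
  exact monotone_nat_of_le_succ (fun t => key t c)
-- END pacc_mono

-- BEGIN rr_bdd
/-- C5. -/
theorem rr_bdd (acc : Set C) (st : C → Bool → C) (A B : Set C) (h : C → ℝ)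
    (hh : ∀ c, 0 ≤ h c ∧ h c ≤ 1) (t : ℕ) (c : C) :
    0 ≤ rr acc st A B h t c ∧ rr acc st A B h t c ≤ 1 := by
  induction t generalizing c with
  | zero =>
    unfold rr
    split_ifs <;> norm_num
  | succ t ih =>
    have key : ∀ b : Bool,
        0 ≤ (if st c b ∈ A then rr acc st A B h t (st c b) else
          if st c b ∈ B then h (st c b) else 0) ∧
        (if st c b ∈ A then rr acc st A B h t (st c b) else
          if st c b ∈ B then h (st c b) else 0) ≤ 1 := by
      intro b
      split_ifs
      · exact ih _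
      · exact hh _
      · norm_num
    have h1 := key true
    have h2 := key false
    unfold rr
    rw [Fintype.sum_bool]
    constructor <;> linarith [h1.1, h1.2, h2.1, h2.2]
-- END rr_bdd

-- BEGIN vv_bdd
/-- C6. (C5 and induction on `m`.) -/
theorem vv_bdd (acc : Set C) (st : C → Bool → C) (A : Bool → Set C) (t m : ℕ) (s : Bool) (c : C) :
    0 ≤ vv acc st A t m s c ∧ vv acc st A t m s c ≤ 1 := by
  induction m generalizing s c with
  | zero =>
    unfold vv
    exact rr_bdd acc st _ _ _ (fun _ => ⟨le_refl _, zero_le_one⟩) t c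
  | succ m ih =>
    unfold vv
    exact rr_bdd acc st _ _ _ (fun c => ih (!s) c) t c
-- END vv_bdd

-- BEGIN rr_mono
private theorem rr_mono_nonneg (acc : Set C) (st : C → Bool → C) (A B : Set C) (h : C → ℝ)
    (hh : ∀ c, 0 ≤ h c) (t : ℕ) (c : C) : 0 ≤ rr acc st A B h t c := by
  induction t generalizing c with
  | zero =>
    unfold rr
    split_ifs <;> norm_num
  | succ t ih =>
    unfold rr
    refine div_nonneg (Finset.sum_nonneg fun b _ => ?_) (by norm_num)
    split_ifs
    · exact ih _
    · exact hh _
    · exact le_refl _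

private theorem rr_mono_one (acc : Set C) (st : C → Bool → C) (hacc : ∀ c ∈ acc, ∀ b, st c b = c)
    (A B : Set C) (h : C → ℝ) (t : ℕ) (c : C) (hc : c ∈ A) (hca : c ∈ acc) :
    rr acc st A B h t c = 1 := by
  induction t with
  | zero =>
    unfold rr
    rw [if_pos hca]
  | succ t ih =>
    unfold rr
    rw [Fintype.sum_bool, hacc c hca true, hacc c hca false, if_pos hc, ih]
    norm_num

/-- C7. Monotone in the time, for `c ∈ A`. (Induction; base: if `c ∈ acc` then `st c b = c ∈ A`.) -/
theorem rr_mono (acc : Set C) (st : C → Bool → C) (hacc : ∀ c ∈ acc, ∀ b, st c b = c)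
    (A B : Set C) (h : C → ℝ) (hh : ∀ c, 0 ≤ h c) (t t' : ℕ) (htt : t ≤ t') (c : C) (hc : c ∈ A) :
    rr acc st A B h t c ≤ rr acc st A B h t' c := by
  induction t generalizing t' c with
  | zero =>
    by_cases hca : c ∈ acc
    · rw [rr_mono_one acc st hacc A B h 0 c hc hca, rr_mono_one acc st hacc A B h t' c hc hca]
    · have h0 : rr acc st A B h 0 c = 0 := by
        unfold rr
        rw [if_neg hca]
      rw [h0]
      exact rr_mono_nonneg acc st A B h hh t' c
  | succ t ih =>
    obtain ⟨t'', rfl⟩ : ∃ t'', t' = t'' + 1 := ⟨t' - 1, by omega⟩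
    have htt' : t ≤ t'' := by omega
    unfold rr
    refine div_le_div_of_nonneg_right (Finset.sum_le_sum fun b _ => ?_) (by norm_num)
    by_cases hb : st c b ∈ A
    · rw [if_pos hb, if_pos hb]
      exact ih t'' htt' _ hb
    · rw [if_neg hb, if_neg hb]
-- END rr_mono

-- BEGIN px_le_vv
/-- C8. Induction on `τ` (for all `m s c`): `px τ m s c ≤ rr τ c` with the `h` of `vv t m s`, where the
induction hypothesis and C7 bound `px τ (m - 1) (!s) c' ≤ vv t (m - 1) (!s) c'`; then C7. -/
theorem px_le_vv (acc : Set C) (st : C → Bool → C) (hacc : ∀ c ∈ acc, ∀ b, st c b = c)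
    (A : Bool → Set C) (t τ : ℕ) (hτ : τ ≤ t) (m : ℕ) (s : Bool) (c : C) (hc : c ∈ A s) :
    px acc st A τ m s c ≤ vv acc st A t m s c := by
  let hf : ℕ → Bool → C → ℝ := fun m s => if m = 0 then (fun _ => 0) else vv acc st A t (m - 1) (!s)
  have hf0 : ∀ m s c, 0 ≤ hf m s c := by
    intro m s c
    by_cases hm : m = 0
    · have e : hf m s = fun _ => 0 := if_pos hm
      rw [e]
    · have e : hf m s = vv acc st A t (m - 1) (!s) := if_neg hm
      rw [e]
      exact (vv_bdd acc st A t (m - 1) (!s) c).1
  have hvv : ∀ m s c, vv acc st A t m s c = rr acc st (A s) (A !s) (hf m s) t c := by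
    intro m s c
    cases m with
    | zero => rfl
    | succ m => rfl
  have key : ∀ τ, τ ≤ t → ∀ m s c, c ∈ A s →
      px acc st A τ m s c ≤ rr acc st (A s) (A !s) (hf m s) τ c := by
    intro τ
    induction τ with
    | zero =>
      intro _ m s c _
      unfold px rr
      exact le_refl _
    | succ τ ih =>
      intro hτ m s c hc
      have hτ' : τ ≤ t := by omega
      unfold px rr
      refine div_le_div_of_nonneg_right (Finset.sum_le_sum fun b _ => ?_) (by norm_num)
      by_cases hb : st c b ∈ A s
      · rw [if_pos hb, if_pos hb]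
        exact ih hτ' m s _ hb
      · rw [if_neg hb, if_neg hb]
        by_cases hb2 : st c b ∈ A (!s)
        · rw [if_pos hb2, if_pos hb2]
          by_cases hm : m = 0
          · rw [if_pos hm]
            exact hf0 m s _
          · rw [if_neg hm]
            have e : hf m s = vv acc st A t (m - 1) (!s) := if_neg hm
            rw [e, hvv]
            exact (ih hτ' (m - 1) (!s) _ hb2).trans
              (rr_mono acc st hacc _ _ _ (hf0 _ _) τ t hτ' _ hb2)
        · rw [if_neg hb2, if_neg hb2]
  rw [hvv]
  exact (key τ hτ m s c hc).trans (rr_mono acc st hacc _ _ _ (hf0 _ _) τ t hτ _ hc)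
-- END px_le_vv

-- BEGIN vv_le_pacc
private theorem vv_le_pacc_rr (acc : Set C) (st : C → Bool → C) (hacc : ∀ c ∈ acc, ∀ b, st c b = c)
    (A B : Set C) (h : C → ℝ) (K : ℕ) (hh : ∀ c, h c ≤ pacc acc st K c) (τ : ℕ) (c : C) :
    rr acc st A B h τ c ≤ pacc acc st (τ + K) c := by
  induction τ generalizing c with
  | zero =>
    have e : rr acc st A B h 0 c = pacc acc st 0 c := by
      unfold rr pacc
      rfl
    rw [e]
    exact pacc_mono acc st hacc c (Nat.zero_le _)
  | succ τ ih =>
    have e : τ + 1 + K = (τ + K) + 1 := by omega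
    rw [e]
    unfold rr pacc
    refine div_le_div_of_nonneg_right (Finset.sum_le_sum fun b _ => ?_) (by norm_num)
    split_ifs
    · exact ih _
    · exact (hh _).trans (pacc_mono acc st hacc _ (Nat.le_add_left K τ))
    · exact (pacc_bdd acc st _ _).1

/-- C9. Induction on `m`, inside induction on the time of the phase:
`rr τ c ≤ pacc (τ + K) c` if `h c' ≤ pacc K c'` for all `c'`. (C4 for the base.) -/
theorem vv_le_pacc (acc : Set C) (st : C → Bool → C) (hacc : ∀ c ∈ acc, ∀ b, st c b = c)
    (A : Bool → Set C) (t m : ℕ) (s : Bool) (c : C) :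
    vv acc st A t m s c ≤ pacc acc st ((m + 1) * t) c := by
  induction m generalizing s c with
  | zero =>
    have e : (0 + 1) * t = t + 0 := by ring
    rw [e]
    unfold vv
    exact vv_le_pacc_rr acc st hacc _ _ _ 0 (fun c => (pacc_bdd acc st 0 c).1) t c
  | succ m ih =>
    have e : (m + 1 + 1) * t = t + (m + 1) * t := by ring
    rw [e]
    unfold vv
    exact vv_le_pacc_rr acc st hacc _ _ _ ((m + 1) * t) (fun c => ih (!s) c) t c
-- END vv_le_pacc

-- BEGIN markov
theorem markov_px_nonneg (acc : Set C) (st : C → Bool → C) (A : Bool → Set C) (t : ℕ) :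
    ∀ (m : ℕ) (s : Bool) (c : C), 0 ≤ px acc st A t m s c := by
  induction t with
  | zero =>
    intro m s c
    show 0 ≤ (if c ∈ acc then (1 : ℝ) else 0)
    split_ifs <;> norm_num
  | succ t ih =>
    intro m s c
    show 0 ≤ (∑ b : Bool, (if st c b ∈ A s then px acc st A t m s (st c b) else
      if st c b ∈ A (!s) then (if m = 0 then 0 else px acc st A t (m - 1) (!s) (st c b)) else 0)) / 2
    refine div_nonneg (Finset.sum_nonneg fun b _ => ?_) (by norm_num)
    split_ifs
    · exact ih _ _ _
    · exact le_refl _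
    · exact ih _ _ _
    · exact le_refl _

theorem markov_pacc_le (acc : Set C) (st : C → Bool → C) (t : ℕ) : ∀ c : C, pacc acc st t c ≤ 1 := by
  induction t with
  | zero =>
    intro c
    show (if c ∈ acc then (1 : ℝ) else 0) ≤ 1
    split_ifs <;> norm_num
  | succ t ih =>
    intro c
    show (∑ b : Bool, pacc acc st t (st c b)) / 2 ≤ 1
    rw [Fintype.sum_bool]
    have h1 := ih (st c true)
    have h2 := ih (st c false)
    linarith

theorem markov_ex_nonneg (g : C → C → ℝ) (st : C → Bool → C) (hg : ∀ c c', 0 ≤ g c c') (t : ℕ) :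
    ∀ c : C, 0 ≤ ex g st t c := by
  induction t with
  | zero => intro c; exact le_refl _
  | succ t ih =>
    intro c
    show 0 ≤ (∑ b : Bool, (g c (st c b) + ex g st t (st c b))) / 2
    exact div_nonneg (Finset.sum_nonneg fun b _ => add_nonneg (hg _ _) (ih _)) (by norm_num)

/-- C10. Markov's inequality. `g c c' = 1` if the mode changes. Induction on `t` for all `m, s, c`:
if the step to `c'` changes the mode and `m ≥ 1`, then `pacc t c' ≤ px t (m-1) (!s) c' + E / m` and
`pacc t c' ≤ 1`, `E = ex g st t c'`, hence `pacc t c' ≤ px t (m-1) (!s) c' + (1 + E) / (m + 1)`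
(`E ≤ m`: `E/m ≤ (1+E)/(m+1)`; `E > m`: the last term is `> 1`); if `m = 0`: `1 ≤ 1 + E`. -/
theorem markov (acc : Set C) (st : C → Bool → C) (A : Bool → Set C) (Rch : Set C)
    (hcl : ∀ c ∈ Rch, ∀ b, st c b ∈ Rch) (hA : ∀ c ∈ Rch, ∀ s, c ∈ A s ↔ c ∉ A (!s))
    (g : C → C → ℝ) (hg0 : ∀ c c', 0 ≤ g c c')
    (hg : ∀ c ∈ Rch, ∀ b, ∀ s, c ∈ A s → st c b ∈ A (!s) → 1 ≤ g c (st c b))
    (t m : ℕ) (s : Bool) (c : C) (hc : c ∈ Rch) (hcs : c ∈ A s) :
    pacc acc st t c ≤ px acc st A t m s c + ex g st t c / (m + 1) := by
  induction t generalizing m s c with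
  | zero =>
    show (if c ∈ acc then (1 : ℝ) else 0) ≤ (if c ∈ acc then (1 : ℝ) else 0) + 0 / ((m : ℝ) + 1)
    rw [zero_div, add_zero]
  | succ t ih =>
    have hm : (0 : ℝ) < (m : ℝ) + 1 := by positivity
    have key : ∀ b : Bool, pacc acc st t (st c b) ≤
        (if st c b ∈ A s then px acc st A t m s (st c b) else
          if st c b ∈ A (!s) then (if m = 0 then 0 else px acc st A t (m - 1) (!s) (st c b)) else 0)
        + (g c (st c b) + ex g st t (st c b)) / (m + 1) := by
      intro b
      have hR := hcl c hc b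
      have hE := markov_ex_nonneg g st hg0 t (st c b)
      have hp1 := markov_pacc_le acc st t (st c b)
      by_cases h1 : st c b ∈ A s
      · rw [if_pos h1]
        have h2 := ih m s (st c b) hR h1
        have h3 : ex g st t (st c b) / (m + 1) ≤ (g c (st c b) + ex g st t (st c b)) / (m + 1) :=
          div_le_div_of_nonneg_right (by linarith [hg0 c (st c b)]) hm.le
        linarith
      · have h1' : st c b ∈ A (!s) := by
          by_contra h
          exact h1 ((hA _ hR s).2 h)
        rw [if_neg h1, if_pos h1']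
        have hg1 := hg c hc b s hcs h1'
        rcases Nat.eq_zero_or_pos m with hm0 | hm0
        · subst hm0
          rw [if_pos rfl]
          simp only [Nat.cast_zero, zero_add, div_one]
          linarith
        · obtain ⟨k, rfl⟩ : ∃ k, m = k + 1 := ⟨m - 1, by omega⟩
          rw [if_neg (by omega), Nat.add_sub_cancel]
          have h2 := ih k (!s) (st c b) hR h1'
          have hpx := markov_px_nonneg acc st A t k (!s) (st c b)
          have hk : (0 : ℝ) < (k : ℝ) + 1 := by positivity
          have hle : (1 + ex g st t (st c b)) / (((k + 1 : ℕ) : ℝ) + 1)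
              ≤ (g c (st c b) + ex g st t (st c b)) / (((k + 1 : ℕ) : ℝ) + 1) :=
            div_le_div_of_nonneg_right (by linarith) hm.le
          push_cast at hle hm ⊢
          by_cases hEk : ex g st t (st c b) ≤ (k : ℝ) + 1
          · have h3 : ex g st t (st c b) / ((k : ℝ) + 1) ≤ (1 + ex g st t (st c b)) / ((k : ℝ) + 1 + 1) := by
              rw [div_le_div_iff₀ hk hm]
              nlinarith
            linarith
          · have h3 : 1 ≤ (1 + ex g st t (st c b)) / ((k : ℝ) + 1 + 1) := by
              rw [le_div_iff₀ hm]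
              linarith [not_le.1 hEk]
            linarith
    show (∑ b : Bool, pacc acc st t (st c b)) / 2 ≤
      (∑ b : Bool, (if st c b ∈ A s then px acc st A t m s (st c b) else
        if st c b ∈ A (!s) then (if m = 0 then 0 else px acc st A t (m - 1) (!s) (st c b)) else 0)) / 2
      + ((∑ b : Bool, (g c (st c b) + ex g st t (st c b))) / 2) / (m + 1)
    have hs := Finset.sum_le_sum (s := (Finset.univ : Finset Bool)) (fun b _ => key b)
    rw [Finset.sum_add_distrib, ← Finset.sum_div] at hs
    rw [div_right_comm]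
    linarith
-- END markov

-- BEGIN ex_sum_le
/-- C11. -/
theorem ex_sum_le {ι : Type} (J : Finset ι) (g : ι → C → C → ℝ) (g' : C → C → ℝ)
    (st : C → Bool → C) (Rch : Set C) (hcl : ∀ c ∈ Rch, ∀ b, st c b ∈ Rch)
    (h : ∀ c ∈ Rch, ∀ b, ∑ j ∈ J, g j c (st c b) ≤ g' c (st c b)) (t : ℕ) (c : C) (hc : c ∈ Rch) :
    ∑ j ∈ J, ex (g j) st t c ≤ ex g' st t c := by
  induction t generalizing c with
  | zero => simp [ex]
  | succ t ih =>
    show ∑ j ∈ J, (∑ b : Bool, (g j c (st c b) + ex (g j) st t (st c b))) / 2
      ≤ (∑ b : Bool, (g' c (st c b) + ex g' st t (st c b))) / 2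
    rw [← Finset.sum_div, Finset.sum_comm]
    have hb : ∀ b : Bool, ∑ j ∈ J, (g j c (st c b) + ex (g j) st t (st c b))
        ≤ g' c (st c b) + ex g' st t (st c b) := by
      intro b
      rw [Finset.sum_add_distrib]
      exact add_le_add (h c hc b) (ih (st c b) (hcl c hc b))
    exact div_le_div_of_nonneg_right (Finset.sum_le_sum fun b _ => hb b) (by norm_num)
-- END ex_sum_le

-- BEGIN ex_nonneg
theorem ex_nonneg (g : C → C → ℝ) (st : C → Bool → C) (hg : ∀ c c', 0 ≤ g c c') (t : ℕ) (c : C) :
    0 ≤ ex g st t c := by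
  induction t generalizing c with
  | zero =>
    unfold ex
    exact le_refl _
  | succ t ih =>
    unfold ex
    exact div_nonneg (Finset.sum_nonneg fun b _ => add_nonneg (hg _ _) (ih _)) (by norm_num)
-- END ex_nonneg

end Pool.Agent.PrbM
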