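import Pool.Agent.PrbM.Chn

/-!
# PrbM CND: expectations on the event of acceptance
-/

set_option autoImplicit false

namespace Pool.Agent.PrbM

open Finset

open scoped Classical

variable {C : Type}

/-- the expectation of the sum of `g` over the first `t` steps, on the event that the configuration
after `t` steps is in `acc` -/
noncomputable def exa (acc : Set C) (g : C → C → ℝ) (st : C → Bool → C) : ℕ → C → ℝ
  | 0, _ => 0
  | t + 1, c => (∑ b : Bool, (g c (st c b) * pacc acc st t (st c b) +
      exa acc g st t (st c b))) / 2

theorem exa_nonneg (acc : Set C) (g : C → C → ℝ) (st : C → Bool → C) (hg : ∀ c c', 0 ≤ g c c')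
    (t : ℕ) (c : C) : 0 ≤ exa acc g st t c := by
  induction t generalizing c with
  | zero => exact le_refl _
  | succ t ih =>
    rw [exa]
    apply div_nonneg _ (by norm_num)
    exact Finset.sum_nonneg fun b _ => add_nonneg (mul_nonneg (hg _ _) (pacc_bdd acc st t _).1)
      (ih _)

theorem exa_eq (acc : Set C) (g : C → C → ℝ) (st : C → Bool → C) (t : ℕ) (c : C) :
    exa acc g st t c = (∑ u : Fin t → Bool, if path st c (coins u) t ∈ acc then ∑ s ∈ range t,
      g (path st c (coins u) s) (path st c (coins u) (s + 1)) else 0) / 2 ^ t := by
  induction t generalizing c with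
  | zero => simp [exa]
  | succ t ih =>
    set F : (Fin (t + 1) → Bool) → ℝ := fun u => if path st c (coins u) (t + 1) ∈ acc then
      ∑ s ∈ range (t + 1), g (path st c (coins u) s) (path st c (coins u) (s + 1)) else 0 with hF
    have hre : (∑ u : Fin (t + 1) → Bool, F u) =
        ∑ b : Bool, ∑ u : Fin t → Bool, F (Fin.cons b u : Fin (t + 1) → Bool) := by
      rw [← Fintype.sum_prod_type' (f := fun (b : Bool) (u : Fin t → Bool) =>
        F (Fin.cons b u : Fin (t + 1) → Bool))]
      exact (Fintype.sum_equiv (Fin.consEquiv (fun _ : Fin (t + 1) => Bool)) _ _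
        (fun x => rfl)).symm
    rw [hre]
    have hb : ∀ b : Bool, (∑ u : Fin t → Bool, F (Fin.cons b u : Fin (t + 1) → Bool)) =
        2 ^ t * (g c (st c b) * pacc acc st t (st c b) + exa acc g st t (st c b)) := by
      intro b
      have h1 : ∀ u : Fin t → Bool, F (Fin.cons b u : Fin (t + 1) → Bool) =
          g c (st c b) * (if path st (st c b) (coins u) t ∈ acc then (1 : ℝ) else 0) +
          (if path st (st c b) (coins u) t ∈ acc then ∑ s ∈ range t,
            g (path st (st c b) (coins u) s) (path st (st c b) (coins u) (s + 1)) else 0) := by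
        intro u
        simp only [hF]
        rw [ex_eq_path]
        by_cases h : path st (st c b) (coins u) t ∈ acc
        · rw [if_pos h, if_pos h, if_pos h, mul_one, Finset.sum_range_succ',
            add_comm (g c (st c b))]
          congr 1
          refine Finset.sum_congr rfl fun s _ => ?_
          rw [ex_eq_path, ex_eq_path]
        · rw [if_neg h, if_neg h, if_neg h, mul_zero, add_zero]
      rw [Finset.sum_congr rfl (fun u _ => h1 u), Finset.sum_add_distrib, ← Finset.mul_sum,
        ih (st c b), pacc_eq, Set.ncard_eq_toFinset_card', Finset.sum_boole]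
      have h2 : ({u : Fin t → Bool | path st (st c b) (coins u) t ∈ acc} : Set (Fin t → Bool)).toFinset
          = Finset.univ.filter (fun u : Fin t → Bool => path st (st c b) (coins u) t ∈ acc) := by
        ext u
        simp
      rw [h2]
      field_simp
    rw [Finset.sum_congr rfl (fun b _ => hb b), ← Finset.mul_sum]
    show (∑ b : Bool, (g c (st c b) * pacc acc st t (st c b) + exa acc g st t (st c b))) / 2 = _
    rw [pow_succ]
    field_simp

theorem exa_sum_le {ι : Type} (J : Finset ι) (acc : Set C) (g : ι → C → C → ℝ) (g' : C → C → ℝ)
    (st : C → Bool → C) (Rch : Set C) (hcl : ∀ c ∈ Rch, ∀ b, st c b ∈ Rch)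
    (h : ∀ c ∈ Rch, ∀ b, ∑ j ∈ J, g j c (st c b) ≤ g' c (st c b)) (t : ℕ) (c : C) (hc : c ∈ Rch) :
    ∑ j ∈ J, exa acc (g j) st t c ≤ exa acc g' st t c := by
  induction t generalizing c with
  | zero => simp [exa]
  | succ t ih =>
    simp only [exa]
    rw [← Finset.sum_div, Finset.sum_comm]
    apply div_le_div_of_nonneg_right _ (by norm_num)
    refine Finset.sum_le_sum fun b _ => ?_
    rw [Finset.sum_add_distrib, ← Finset.sum_mul]
    exact add_le_add (mul_le_mul_of_nonneg_right (h c hc b) (pacc_bdd acc st t _).1)
      (ih _ (hcl c hc b))

private theorem cnd_px_nonneg (acc : Set C) (st : C → Bool → C) (A : Bool → Set C) (t m : ℕ)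
    (s : Bool) (c : C) : 0 ≤ px acc st A t m s c := by
  induction t generalizing m s c with
  | zero => rw [px]; split_ifs <;> norm_num
  | succ t ih =>
    rw [px]
    apply div_nonneg _ (by norm_num)
    refine Finset.sum_nonneg fun b _ => ?_
    split_ifs
    · exact ih _ _ _
    · exact le_refl _
    · exact ih _ _ _
    · exact le_refl _

/-- Markov's inequality on the event of acceptance. -/
theorem markov_a (acc : Set C) (st : C → Bool → C) (A : Bool → Set C) (Rch : Set C)
    (hcl : ∀ c ∈ Rch, ∀ b, st c b ∈ Rch)
    (hA : ∀ c ∈ Rch, (∀ s, c ∈ A s ↔ c ∉ A (!s)) ∨ (∀ t, pacc acc st t c = 0))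
    (g : C → C → ℝ) (hg0 : ∀ c c', 0 ≤ g c c')
    (hg : ∀ c ∈ Rch, ∀ b, ∀ s, c ∈ A s → st c b ∈ A (!s) → 1 ≤ g c (st c b))
    (t m : ℕ) (s : Bool) (c : C) (hc : c ∈ Rch) (hcs : c ∈ A s) :
    pacc acc st t c ≤ px acc st A t m s c + exa acc g st t c / (m + 1) := by
  induction t generalizing m s c with
  | zero => simp [pacc, px, exa]
  | succ t ih =>
    have key : ∀ b : Bool, pacc acc st t (st c b) ≤
        (if st c b ∈ A s then px acc st A t m s (st c b) else
          if st c b ∈ A (!s) then (if m = 0 then 0 else px acc st A t (m - 1) (!s) (st c b))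
          else 0) +
        (g c (st c b) * pacc acc st t (st c b) + exa acc g st t (st c b)) / (m + 1) := by
      intro b
      have hr := hcl c hc b
      have hP := pacc_bdd acc st t (st c b)
      have hE := exa_nonneg acc g st hg0 t (st c b)
      have hG := hg0 c (st c b)
      have hm0 : (0 : ℝ) < m + 1 := by positivity
      by_cases h1 : st c b ∈ A s
      · rw [if_pos h1]
        have h2 := ih m s (st c b) hr h1
        have h3 : exa acc g st t (st c b) / (m + 1) ≤
            (g c (st c b) * pacc acc st t (st c b) + exa acc g st t (st c b)) / (m + 1) := by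
          apply div_le_div_of_nonneg_right _ hm0.le
          have := mul_nonneg hG hP.1
          linarith
        linarith
      · by_cases h2 : st c b ∈ A (!s)
        swap
        · have h3 : pacc acc st t (st c b) = 0 := by
            rcases hA _ hr with h4 | h4
            · exact absurd ((h4 s).2 h2) h1
            · exact h4 t
          rw [if_neg h1, if_neg h2, h3, mul_zero, zero_add, zero_add]
          exact div_nonneg hE hm0.le
        rw [if_neg h1, if_pos h2]
        have h3 := hg c hc b s hcs h2
        have h4 : (pacc acc st t (st c b) + exa acc g st t (st c b)) / (m + 1) ≤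
            (g c (st c b) * pacc acc st t (st c b) + exa acc g st t (st c b)) / (m + 1) := by
          apply div_le_div_of_nonneg_right _ hm0.le
          have := mul_le_mul_of_nonneg_right h3 hP.1
          linarith
        refine le_trans ?_ (add_le_add_right h4 _)
        by_cases hm : m = 0
        · subst hm
          rw [if_pos rfl]
          simp only [Nat.cast_zero, zero_add, div_one]
          linarith
        · rw [if_neg hm]
          have h5 := ih (m - 1) (!s) (st c b) hr h2
          have h6 : ((m - 1 : ℕ) : ℝ) + 1 = m := by
            have : 1 ≤ m := Nat.one_le_iff_ne_zero.2 hm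
            rw [Nat.cast_sub this]
            push_cast
            ring
          rw [h6] at h5
          have hmp : (0 : ℝ) < m := by exact_mod_cast Nat.pos_of_ne_zero hm
          set P := pacc acc st t (st c b)
          set X := px acc st A t (m - 1) (!s) (st c b)
          set E := exa acc g st t (st c b)
          have h7 : P * m ≤ X * m + E := by
            have := mul_le_mul_of_nonneg_right h5 hmp.le
            have h8 : (X + E / m) * m = X * m + E := by field_simp
            rw [h8] at this
            exact this
          have hX : 0 ≤ X ∨ X < 0 := le_or_gt 0 X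
          rcases hX with hX | hX
          · have h9 : P * (m + 1) ≤ X * (m + 1) + (P + E) := by nlinarith
            have h10 : X + (P + E) / (m + 1) = (X * (m + 1) + (P + E)) / (m + 1) := by
              field_simp
            rw [h10, le_div_iff₀ hm0]
            exact h9
          · exfalso
            exact absurd hX (not_lt.2 (cnd_px_nonneg acc st A t (m - 1) (!s) (st c b)))
    rw [pacc, px, exa]
    have h1 := Finset.sum_le_sum fun (b : Bool) (_ : b ∈ Finset.univ) => key b
    rw [Finset.sum_add_distrib, ← Finset.sum_div] at h1
    have h2 : (∑ b : Bool, (g c (st c b) * pacc acc st t (st c b) + exa acc g st t (st c b))) / 2 /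
        ((m : ℝ) + 1) = (∑ b : Bool, (g c (st c b) * pacc acc st t (st c b) +
          exa acc g st t (st c b))) / ((m : ℝ) + 1) / 2 := by ring
    rw [h2, ← add_div]
    exact div_le_div_of_nonneg_right h1 (by norm_num)

end Pool.Agent.PrbM
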