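import Pool.Agent.PrbM.Sim
import Pool.Agent.PrbM.Cnd

/-!
# PrbM ACC: machines, the event of acceptance
-/

set_option autoImplicit false

namespace Pool.Agent.PrbM

open Finset

open Pool.Agent.MP_5082c5_lc (Sym Move symAt newPos TM Mem memSet memSet_finite memSet_card base)

open scoped Classical

theorem run_eq_path (M : PTM) (w : List Bool) (r : ℕ → Bool) (t : ℕ) :
    run M w r t = path (step M w) (initConf M) r t := by
  induction t with
  | zero => rfl
  | succ t ih => rw [run, path, ih]

theorem accMoves_eq (M : PTM) (w : List Bool) (t : ℕ) :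
    accMoves M w t = exa (accS M) (gmv M) (step M w) t (initConf M) := by
  rw [exa_eq, accMoves]
  congr 1
  refine Finset.sum_congr rfl fun u _ => ?_
  rw [← run_eq_path]
  by_cases h : M.halt (run M w (coins u) t).q = some true
  · have h' : run M w (coins u) t ∈ accS M := h
    rw [if_pos h, if_pos h']
    have h1 : {s : ℕ | s < t ∧ (run M w (coins u) (s + 1)).pos ≠ (run M w (coins u) s).pos} =
        (((range t).filter fun s =>
          (run M w (coins u) (s + 1)).pos ≠ (run M w (coins u) s).pos) : Finset ℕ) := by
      ext s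
      simp only [Set.mem_ofPred_eq, coe_filter, mem_range]
    rw [h1, Set.ncard_coe_finset, Finset.card_eq_sum_ones, Finset.sum_filter, Nat.cast_sum]
    refine Finset.sum_congr rfl fun s _ => ?_
    rw [gmv, ← run_eq_path, ← run_eq_path]
    split_ifs <;> simp_all
  · have h' : run M w (coins u) t ∉ accS M := h
    rw [if_neg h, if_neg h']

/-- `run` after `T` steps, continued with the coins `r'`. -/
theorem path_run (M : PTM) (w : List Bool) (r r' : ℕ → Bool) (T t : ℕ) :
    path (step M w) (run M w r T) r' t =
      run M w (fun i => if i < T then r i else r' (i - T)) (T + t) := by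
  induction t with
  | zero =>
    show run M w r T = run M w _ T
    apply run_congr
    intro i hi
    rw [if_pos hi]
  | succ t ih =>
    rw [path, ih]
    have h1 : r' t = (fun i => if i < T then r i else r' (i - T)) (T + t) := by
      simp only
      rw [if_neg (by omega), Nat.add_sub_cancel_left]
    rw [h1]
    rfl

/-- If every accepting computation on `w` visits at most `S` cells, then no accepting computation
goes through a configuration whose memory is not in `memSet S`. -/
theorem pacc_zero (M : PTM) (w : List Bool) (S : ℕ)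
    (hS : ∀ r, (∃ t, M.halt (run M w r t).q = some true) → (visited M w r).encard ≤ S)
    (c : Conf M) (hc : c ∈ Rch M w) (hm : pmem c ∉ memSet (toTM M) S) (t : ℕ) :
    pacc (accS M) (step M w) t c = 0 := by
  obtain ⟨r, T, rfl⟩ := hc
  rw [pacc_eq]
  have h1 : {u : Fin t → Bool | path (step M w) (run M w r T) (coins u) t ∈ accS M} = ∅ := by
    rw [Set.eq_empty_iff_forall_notMem]
    intro u hu
    have hu' : path (step M w) (run M w r T) (coins u) t ∈ accS M := hu
    rw [path_run] at hu'
    set r' : ℕ → Bool := fun i => if i < T then r i else coins u (i - T) with hr'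
    have h2 : M.halt (run M w r' (T + t)).q = some true := hu'
    have h3 := mem_of_visited M w S r' (hS r' ⟨T + t, h2⟩) T
    have h4 : run M w r' T = run M w r T := by
      apply run_congr
      intro i hi
      rw [hr']
      simp only [if_pos hi]
    rw [h4] at h3
    exact hm h3
  rw [h1, Set.ncard_empty]
  simp

/-- Markov's inequality on the event of acceptance. -/
theorem pv_ge_acc (M : PTM) (S t m j : ℕ) (w : List Bool)
    (hS : ∀ r, (∃ t, M.halt (run M w r t).q = some true) → (visited M w r).encard ≤ S) :
    accWithin M w t - exa (accS M) (gcr M j) (step M w) t (initConf M) / (m + 1) ≤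
      pv M S t m j w := by
  have hcl := Rch_closed M w
  have hin : initConf M ∈ AS M S j true := by
    refine ⟨⟨fun i => ?_, fun i z _ => rfl⟩, ?_⟩
    · show |(0 : ℤ)| ≤ S
      rw [abs_zero]
      exact Int.natCast_nonneg S
    · show (0 ≤ j ↔ true = true)
      exact iff_of_true (Nat.zero_le j) rfl
  have hA : ∀ c ∈ Rch M w, (∀ s, c ∈ AS M S j s ↔ c ∉ AS M S j (!s)) ∨
      (∀ t, pacc (accS M) (step M w) t c = 0) := by
    intro c hc
    by_cases h1 : pmem c ∈ memSet (toTM M) S
    · left
      intro s
      simp only [AS, Set.mem_ofPred_eq, h1, true_and]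
      cases s <;> simp
    · right
      exact pacc_zero M w S hS c hc h1
  have hm := markov_a (accS M) (step M w) (AS M S j) (Rch M w) hcl.2 hA (gcr M j)
    (fun c c' => by unfold gcr; split_ifs <;> norm_num)
    (fun c _ b s h1 h2 => by
      unfold gcr
      rw [if_neg]
      intro h3
      have h4 := h1.2
      have h5 := h2.2
      rw [← h3, h4] at h5
      cases s <;> simp at h5)
    t m true (initConf M) hcl.1 hin
  have hp := px_le_vv (accS M) (step M w) (acc_fix M w) (AS M S j) t t le_rfl m true (initConf M) hin
  rw [accWithin_eq]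
  unfold pv
  linarith

theorem gcr_sum_le (M : PTM) (w : List Bool) (J : Finset ℕ) :
    ∀ c ∈ Rch M w, ∀ b, ∑ j ∈ J, gcr M j c (step M w c b) ≤ gmv M c (step M w c b) := by
  intro c hc b
  have hpos := Rch_pos M w c hc
  have key : ∀ i : ℕ, (∀ j, ¬ (c.pos ≤ j ↔ (step M w c b).pos ≤ j) → j = i) →
      ∑ j ∈ J, gcr M j c (step M w c b) ≤ 1 := by
    intro i hi
    have h1 : ∀ j ∈ J, gcr M j c (step M w c b) ≤ if j = i then (1 : ℝ) else 0 := by
      intro j _
      unfold gcr
      by_cases h : (c.pos ≤ j ↔ (step M w c b).pos ≤ j)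
      · rw [if_pos h]
        split_ifs <;> norm_num
      · rw [if_neg h, if_pos (hi j h)]
    refine (Finset.sum_le_sum h1).trans ?_
    rw [Finset.sum_ite_eq']
    split_ifs <;> norm_num
  rcases step_pos M w c b with h | h | h | h
  · have h1 : ∀ j ∈ J, gcr M j c (step M w c b) = 0 := by
      intro j _
      unfold gcr
      rw [if_pos (by rw [h])]
    rw [Finset.sum_eq_zero h1]
    unfold gmv
    split_ifs <;> norm_num
  · have h2 : gmv M c (step M w c b) = 1 := by
      unfold gmv
      rw [if_neg (by omega)]
    rw [h2]
    exact key (step M w c b).pos (fun j hj => by omega)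
  · have h2 : gmv M c (step M w c b) = 1 := by
      unfold gmv
      rw [if_neg (by omega)]
    rw [h2]
    exact key c.pos (fun j hj => by omega)
  · omega

/-- The boundaries share the moves. -/
theorem cross_le_acc (M : PTM) (w : List Bool) (J : Finset ℕ) (t : ℕ) :
    ∑ j ∈ J, exa (accS M) (gcr M j) (step M w) t (initConf M) ≤ accMoves M w t := by
  rw [accMoves_eq]
  exact exa_sum_le J (accS M) (fun j => gcr M j) (gmv M) (step M w) (Rch M w) (Rch_closed M w).2
    (gcr_sum_le M w J) t (initConf M) (Rch_closed M w).1

theorem accWithin_le (M : PTM) (w : List Bool) (t : ℕ) : accWithin M w t ≤ accProb M w := by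
  refine le_ciSup (f := fun t => accWithin M w t) ⟨1, ?_⟩ t
  rintro x ⟨s, rfl⟩
  simp only
  rw [accWithin_eq]
  exact (pacc_bdd _ _ _ _).2

theorem accProb_le_one (M : PTM) (w : List Bool) : accProb M w ≤ 1 := by
  refine ciSup_le fun t => ?_
  rw [accWithin_eq]
  exact (pacc_bdd _ _ _ _).2

end Pool.Agent.PrbM
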