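import Pool.Agent.LS.Farey
import Pool.Agent.Mrd.Selb
import Pool.Agent.Mrd.Mert

/-!
# PrbM NTL: primes in products of two weighted sets (sieve weights, large sieve, variance)
-/

set_option autoImplicit false

namespace Pool.Agent.PrbM

open Finset Pool.Agent.LS

/-- exponential sum over `x < N` -/
noncomputable def ES (N : ℕ) (F : ℕ → ℝ) (α : ℝ) : ℂ := ∑ x ∈ range N, (F x : ℂ) * ee (x * α)

/-- `1[q | s] - 1 / q` -/
noncomputable def fq (q s : ℕ) : ℝ := (if q ∣ s then 1 else 0) - 1 / q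

/-- the sieve weight -/
noncomputable def Wt (lam : ℕ → ℝ) (D s : ℕ) : ℝ := (∑ d ∈ (Icc 1 D).filter (· ∣ s), lam d) ^ 2

/-- the weighted sum of `κ (g₁ x + g₂ y + c₀)` -/
noncomputable def SS (N1 N2 g1 g2 c0 : ℕ) (F G : ℕ → ℝ) (κ : ℕ → ℝ) : ℝ :=
  ∑ x ∈ range N1, ∑ y ∈ range N2, F x * G y * κ (g1 * x + g2 * y + c0)

-- BEGIN detect
/-- N1. (Geometric sum; `ee` of an integer is 1.) -/
theorem detect (l s : ℕ) (hl : 1 ≤ l) :
    (if l ∣ s then (1 : ℂ) else 0) = (1 / (l : ℂ)) * ∑ r ∈ range l, ee ((r : ℝ) / l * s) := by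
  have hl0 : (l : ℝ) ≠ 0 := by exact_mod_cast (by omega : l ≠ 0)
  have hlc : (l : ℂ) ≠ 0 := by exact_mod_cast (by omega : l ≠ 0)
  have hpow : ∀ r : ℕ, ee ((r : ℝ) / l * s) = ee ((s : ℝ) / l) ^ r := by
    intro r
    induction r with
    | zero => simp [ee_zero]
    | succ n ih =>
      rw [pow_succ, ← ih, ← ee_add]
      congr 1
      push_cast
      ring
  rw [Finset.sum_congr rfl fun r _ => hpow r]
  have hzl : ee ((s : ℝ) / l) ^ l = 1 := by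
    rw [← hpow l, div_self hl0, one_mul]
    exact_mod_cast ee_int (s : ℤ)
  split_ifs with h
  · obtain ⟨k, rfl⟩ := h
    have hz : ee (((l * k : ℕ) : ℝ) / l) = 1 := by
      have h1 : ((l * k : ℕ) : ℝ) / l = ((k : ℤ) : ℝ) := by
        push_cast
        field_simp
      rw [h1]
      exact ee_int _
    rw [hz]
    simp only [one_pow, Finset.sum_const, Finset.card_range, nsmul_eq_mul, mul_one]
    field_simp
  · have hz : ee ((s : ℝ) / l) ≠ 1 := by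
      intro hz
      unfold ee at hz
      rw [Complex.exp_eq_one_iff] at hz
      obtain ⟨k, hk⟩ := hz
      have hpi : (2 * Real.pi * Complex.I : ℂ) ≠ 0 := by
        simp [Real.pi_ne_zero]
      have h1 : (((s : ℝ) / l : ℝ) : ℂ) = k := by
        have h2 : (2 * Real.pi * Complex.I : ℂ) * (((s : ℝ) / l : ℝ) : ℂ) =
            (2 * Real.pi * Complex.I : ℂ) * k := by
          rw [hk]
          ring
        exact mul_left_cancel₀ hpi h2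
      have h3 : ((s : ℝ) / l) = (k : ℝ) := by exact_mod_cast h1
      rw [div_eq_iff hl0] at h3
      have h4 : (s : ℤ) = k * l := by exact_mod_cast h3
      apply h
      have h5 : (l : ℤ) ∣ (s : ℤ) := ⟨k, by rw [h4]; ring⟩
      exact_mod_cast h5
    rw [geom_sum_eq hz, hzl, sub_self, zero_div, mul_zero]
-- END detect

-- BEGIN fq_eq
/-- N2. From N1, the term `r = 0` is `1 / q`. -/
theorem fq_eq (q s : ℕ) (hq : 1 ≤ q) :
    ((fq q s : ℝ) : ℂ) = (1 / (q : ℂ)) * ∑ t ∈ Ico 1 q, ee ((t : ℝ) / q * s) := by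
  have h := detect q s hq
  rw [Finset.range_eq_Ico, Finset.sum_eq_sum_Ico_succ_bot (by omega : 0 < q)] at h
  have h0 : ee (((0 : ℕ) : ℝ) / q * s) = 1 := by
    simp [ee]
  rw [h0, zero_add, mul_add, mul_one] at h
  have hc : ((fq q s : ℝ) : ℂ) = (if q ∣ s then (1 : ℂ) else 0) - 1 / (q : ℂ) := by
    unfold fq
    split_ifs <;> push_cast <;> ring
  rw [hc, h]
  ring
-- END fq_eq

-- BEGIN Wt_eq
/-- N3. -/
theorem Wt_eq (lam : ℕ → ℝ) (D s : ℕ) :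
    ((Wt lam D s : ℝ) : ℂ) = ∑ d ∈ Icc 1 D, ∑ e ∈ Icc 1 D, ((lam d * lam e : ℝ) : ℂ) *
      ((1 / ((Nat.lcm d e : ℕ) : ℂ)) * ∑ r ∈ range (Nat.lcm d e),
        ee ((r : ℝ) / (Nat.lcm d e : ℕ) * s)) := by
  have h1 : Wt lam D s = ∑ d ∈ Icc 1 D, ∑ e ∈ Icc 1 D,
      (lam d * lam e) * (if Nat.lcm d e ∣ s then (1 : ℝ) else 0) := by
    unfold Wt
    rw [sum_filter, sq, sum_mul_sum]
    refine sum_congr rfl fun d _ => sum_congr rfl fun e _ => ?_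
    by_cases hd : d ∣ s
    · by_cases he : e ∣ s
      · rw [if_pos hd, if_pos he, if_pos (Nat.lcm_dvd hd he), mul_one]
      · rw [if_neg he, if_neg (fun h => he ((Nat.dvd_lcm_right d e).trans h)), mul_zero, mul_zero]
    · rw [if_neg hd, if_neg (fun h => hd ((Nat.dvd_lcm_left d e).trans h)), zero_mul, mul_zero]
  rw [h1]
  push_cast
  refine sum_congr rfl fun d hd => sum_congr rfl fun e he => ?_
  have hpos : 1 ≤ Nat.lcm d e :=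
    Nat.lcm_pos (mem_Icc.mp hd).1 (mem_Icc.mp he).1
  rw [← detect (Nat.lcm d e) s hpos]
  by_cases h : Nat.lcm d e ∣ s
  · simp only [h, if_true, Complex.ofReal_one]
  · simp only [h, if_false, Complex.ofReal_zero]
-- END Wt_eq

-- BEGIN ls_phase
theorem ls_phase_key (N g d t : ℕ) (hd : 1 ≤ d) (F : ℕ → ℝ) (θ : ℝ) :
    ‖ES N F ((g : ℝ) * ((t : ℝ) / d) + θ)‖ =
      ‖TT 0 N (fun n => (F (n - 1) : ℂ) * ee (((n - 1 : ℕ) : ℝ) * θ))
        ((((g * t) % d : ℕ) : ℝ) / d)‖ := by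
  have hd0 : (d : ℝ) ≠ 0 := by exact_mod_cast (by omega : d ≠ 0)
  obtain ⟨k, hk⟩ : ∃ k : ℕ, g * t = (g * t) % d + d * k :=
    ⟨(g * t) / d, (Nat.mod_add_div (g * t) d).symm⟩
  have hdiv : ((g * t : ℕ) : ℝ) = (((g * t) % d : ℕ) : ℝ) + d * (k : ℝ) := by
    exact_mod_cast hk
  have h1 : TT 0 N (fun n => (F (n - 1) : ℂ) * ee (((n - 1 : ℕ) : ℝ) * θ))
        ((((g * t) % d : ℕ) : ℝ) / d) =
      ee ((((g * t) % d : ℕ) : ℝ) / d) * ES N F ((g : ℝ) * ((t : ℝ) / d) + θ) := by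
    unfold TT ES
    rw [Finset.mul_sum, zero_add]
    refine Finset.sum_bij' (fun n _ => n - 1) (fun x _ => x + 1) ?_ ?_ ?_ ?_ ?_
    · intro n hn
      rw [Finset.mem_Ioc] at hn
      rw [Finset.mem_range]
      omega
    · intro x hx
      rw [Finset.mem_range] at hx
      rw [Finset.mem_Ioc]
      omega
    · intro n hn
      rw [Finset.mem_Ioc] at hn
      omega
    · intro x hx
      omega
    · intro n hn
      rw [Finset.mem_Ioc] at hn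
      obtain ⟨x, rfl⟩ : ∃ x, n = x + 1 := ⟨n - 1, by omega⟩
      have hx : x + 1 - 1 = x := by omega
      simp only [hx]
      have h2 : (x : ℝ) * ((g : ℝ) * ((t : ℝ) / d) + θ) =
          (x : ℝ) * θ + ((x : ℝ) * ((((g * t) % d : ℕ) : ℝ) / d) +
            (((x * k : ℕ) : ℤ) : ℝ)) := by
        have h3 : (g : ℝ) * ((t : ℝ) / d) = ((g * t : ℕ) : ℝ) / d := by
          push_cast
          ring
        rw [h3, hdiv]
        push_cast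
        field_simp
        ring
      rw [h2, ee_add, ee_add, ee_int, mul_one]
      have h4 : ((x + 1 : ℕ) : ℝ) * ((((g * t) % d : ℕ) : ℝ) / d) =
          (((g * t) % d : ℕ) : ℝ) / d + (x : ℝ) * ((((g * t) % d : ℕ) : ℝ) / d) := by
        push_cast
        ring
      rw [h4, ee_add]
      ring
  rw [h1, norm_mul, norm_ee, one_mul]

/-- N4. Large sieve with a phase: `ES N F (g t / d + θ)`, up to a factor of absolute value one, is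
`TT 0 N a (((g t) % d) / d)` with `a n = F (n - 1) ee ((n - 1) θ)`; `t ↦ (g t) % d` is injective on
the residues prime to `d`; `farey_large_sieve`. -/
theorem ls_phase (Z N g : ℕ) (Ds : Finset ℕ) (hD : ∀ d ∈ Ds, 1 ≤ d ∧ d ≤ Z ∧ Nat.Coprime g d)
    (F : ℕ → ℝ) (hF : ∀ x, |F x| ≤ 1) (θ : ℝ) :
    ∑ d ∈ Ds, ∑ t ∈ (range d).filter (fun t => Nat.Coprime t d),
      ‖ES N F ((g : ℝ) * ((t : ℝ) / d) + θ)‖ ^ 2 ≤ ((Z : ℝ) ^ 2 + 2 * Real.pi * N) * N := by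
  classical
  set a : ℕ → ℂ := fun n => (F (n - 1) : ℂ) * ee (((n - 1 : ℕ) : ℝ) * θ) with ha
  have h1 : ∀ d ∈ Ds, ∑ t ∈ (range d).filter (fun t => Nat.Coprime t d),
      ‖ES N F ((g : ℝ) * ((t : ℝ) / d) + θ)‖ ^ 2 ≤
      ∑ b ∈ (range d).filter (fun b => Nat.Coprime b d), ‖TT 0 N a ((b : ℝ) / d)‖ ^ 2 := by
    intro d hd
    obtain ⟨hd1, hdZ, hgd⟩ := hD d hd
    have hinj : Set.InjOn (fun t : ℕ => (g * t) % d)
        ((range d).filter (fun t => Nat.Coprime t d)) := by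
      intro t ht t' ht' htt
      rw [Finset.mem_coe, Finset.mem_filter, Finset.mem_range] at ht ht'
      have h2 : g * t ≡ g * t' [MOD d] := htt
      have h3 : t ≡ t' [MOD d] := Nat.ModEq.cancel_left_of_coprime hgd.symm h2
      exact Nat.ModEq.eq_of_lt_of_lt h3 ht.1 ht'.1
    have h4 : ∑ t ∈ (range d).filter (fun t => Nat.Coprime t d),
        ‖ES N F ((g : ℝ) * ((t : ℝ) / d) + θ)‖ ^ 2 =
        ∑ b ∈ ((range d).filter (fun t => Nat.Coprime t d)).image (fun t : ℕ => (g * t) % d),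
          ‖TT 0 N a ((b : ℝ) / d)‖ ^ 2 := by
      rw [Finset.sum_image hinj]
      refine Finset.sum_congr rfl fun t _ => ?_
      rw [ls_phase_key N g d t hd1 F θ]
    rw [h4]
    apply Finset.sum_le_sum_of_subset_of_nonneg
    · intro b hb
      obtain ⟨t, ht, rfl⟩ := Finset.mem_image.1 hb
      rw [Finset.mem_filter, Finset.mem_range] at ht
      rw [Finset.mem_filter, Finset.mem_range]
      refine ⟨Nat.mod_lt _ (by omega), ?_⟩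
      have h5 : Nat.Coprime (g * t) d := Nat.Coprime.mul_left hgd ht.2
      show Nat.gcd ((g * t) % d) d = 1
      rw [← Nat.gcd_rec, Nat.gcd_comm]
      exact h5
    · intro b _ _
      positivity
  have h6 : ∑ n ∈ Ioc 0 (0 + N), ‖a n‖ ^ 2 ≤ (N : ℝ) := by
    have h7 : ∀ n ∈ Ioc 0 (0 + N), ‖a n‖ ^ 2 ≤ 1 := by
      intro n _
      rw [ha]
      simp only
      rw [norm_mul, norm_ee, mul_one, Complex.norm_real, Real.norm_eq_abs]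
      exact pow_le_one₀ (abs_nonneg _) (hF _)
    refine (Finset.sum_le_sum h7).trans ?_
    simp
  calc ∑ d ∈ Ds, ∑ t ∈ (range d).filter (fun t => Nat.Coprime t d),
        ‖ES N F ((g : ℝ) * ((t : ℝ) / d) + θ)‖ ^ 2
      ≤ ∑ d ∈ Ds, ∑ b ∈ (range d).filter (fun b => Nat.Coprime b d),
          ‖TT 0 N a ((b : ℝ) / d)‖ ^ 2 := Finset.sum_le_sum h1
    _ ≤ ∑ d ∈ Icc 1 Z, ∑ b ∈ (range d).filter (fun b => Nat.Coprime b d),
          ‖TT 0 N a ((b : ℝ) / d)‖ ^ 2 := by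
        apply Finset.sum_le_sum_of_subset_of_nonneg
        · intro d hd
          rw [Finset.mem_Icc]
          exact ⟨(hD d hd).1, (hD d hd).2.1⟩
        · intro d _ _
          exact Finset.sum_nonneg fun b _ => by positivity
    _ ≤ ((Z : ℝ) ^ 2 + 2 * Real.pi * N) * ∑ n ∈ Ioc 0 (0 + N), ‖a n‖ ^ 2 :=
        farey_large_sieve Z 0 N a
    _ ≤ ((Z : ℝ) ^ 2 + 2 * Real.pi * N) * N := by
        have := Real.pi_pos
        exact mul_le_mul_of_nonneg_left h6 (by positivity)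
-- END ls_phase

-- BEGIN ls_one
/-- N5. One modulus: N4 with `Z = z`, `z² ≤ z⁴ ≤ N` and `1 + 2 π ≤ 8`. -/
theorem ls_one (z N g : ℕ) (Qs : Finset ℕ)
    (hQ : ∀ q ∈ Qs, q.Prime ∧ q ≤ z ∧ Nat.Coprime g q) (hz : z ^ 4 ≤ N)
    (F : ℕ → ℝ) (hF : ∀ x, |F x| ≤ 1) (θ : ℝ) :
    ∑ q ∈ Qs, ∑ t ∈ Ico 1 q, ‖ES N F ((g : ℝ) * ((t : ℝ) / q) + θ)‖ ^ 2 ≤ 8 * (N : ℝ) ^ 2 := by
  have h1 := ls_phase z N g Qs
    (fun d hd => ⟨(hQ d hd).1.one_lt.le, (hQ d hd).2.1, (hQ d hd).2.2⟩) F hF θ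
  have h2 : ∀ q ∈ Qs, (range q).filter (fun t => Nat.Coprime t q) = Ico 1 q := by
    intro q hq
    have hp := (hQ q hq).1
    ext t
    rw [Finset.mem_filter, Finset.mem_range, Finset.mem_Ico]
    constructor
    · rintro ⟨h3, h4⟩
      refine ⟨?_, h3⟩
      rcases Nat.eq_zero_or_pos t with rfl | h5
      · rw [Nat.coprime_zero_left] at h4
        exact absurd h4 hp.one_lt.ne'
      · exact h5
    · rintro ⟨h3, h4⟩
      exact ⟨h4, (Nat.coprime_of_lt_prime (by omega) h4 hp).symm⟩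
  have h3 : ∑ q ∈ Qs, ∑ t ∈ Ico 1 q, ‖ES N F ((g : ℝ) * ((t : ℝ) / q) + θ)‖ ^ 2 =
      ∑ q ∈ Qs, ∑ t ∈ (range q).filter (fun t => Nat.Coprime t q),
        ‖ES N F ((g : ℝ) * ((t : ℝ) / q) + θ)‖ ^ 2 :=
    Finset.sum_congr rfl fun q hq => by rw [h2 q hq]
  rw [h3]
  refine h1.trans ?_
  have hzN : z ^ 2 ≤ N := by
    rcases Nat.eq_zero_or_pos z with rfl | h5
    · simp
    · exact (Nat.pow_le_pow_right h5 (by norm_num)).trans hz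
  have hzR : (z : ℝ) ^ 2 ≤ N := by exact_mod_cast hzN
  have hpi := Real.pi_lt_d2
  have hN0 : (0 : ℝ) ≤ N := Nat.cast_nonneg N
  calc ((z : ℝ) ^ 2 + 2 * Real.pi * N) * N ≤ (N + 7 * N) * N := by
        apply mul_le_mul_of_nonneg_right _ hN0
        have h6 : 2 * Real.pi * N ≤ 7 * (N : ℝ) := mul_le_mul_of_nonneg_right (by linarith) hN0
        linarith
    _ = 8 * (N : ℝ) ^ 2 := by ring
-- END ls_one

-- BEGIN ls_two
private theorem ls_two_per (N : ℕ) (F : ℕ → ℝ) (g k : ℕ) (α β θ : ℝ) (h : α = β + k) :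
    ES N F ((g : ℝ) * α + θ) = ES N F ((g : ℝ) * β + θ) := by
  unfold ES
  refine Finset.sum_congr rfl fun x _ => ?_
  have h1 : (x : ℝ) * ((g : ℝ) * α + θ) = x * ((g : ℝ) * β + θ) + (((x * g * k : ℕ) : ℤ) : ℝ) := by
    rw [h]
    push_cast
    ring
  rw [h1, ee_add, ee_int, mul_one]

private theorem ls_two_inj {q q' : ℕ} (hc : Nat.Coprime q q') {t t1 s s1 : ℕ} (ht : t < q)
    (ht1 : t1 < q) (hs : s < q') (hs1 : s1 < q')
    (h : (t * q' + s * q) % (q * q') = (t1 * q' + s1 * q) % (q * q')) : t = t1 ∧ s = s1 := by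
  have h0 : t * q' + s * q ≡ t1 * q' + s1 * q [MOD q * q'] := h
  constructor
  · have h1 : t * q' + s * q ≡ t1 * q' + s1 * q [MOD q] := h0.of_mul_right q'
    have h2 : t * q' ≡ t1 * q' [MOD q] := by
      have e1 : t * q' + s * q ≡ t * q' [MOD q] := by
        simp [Nat.ModEq]
      have e2 : t1 * q' + s1 * q ≡ t1 * q' [MOD q] := by
        simp [Nat.ModEq]
      exact e1.symm.trans (h1.trans e2)
    have h3 : t ≡ t1 [MOD q] := Nat.ModEq.cancel_right_of_coprime hc h2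
    exact Nat.ModEq.eq_of_lt_of_lt h3 ht ht1
  · have h1 : t * q' + s * q ≡ t1 * q' + s1 * q [MOD q'] := h0.of_mul_left q
    have h2 : s * q ≡ s1 * q [MOD q'] := by
      have e1 : t * q' + s * q ≡ s * q [MOD q'] := by
        simp [Nat.ModEq]
      have e2 : t1 * q' + s1 * q ≡ s1 * q [MOD q'] := by
        simp [Nat.ModEq]
      exact e1.symm.trans (h1.trans e2)
    have h3 : s ≡ s1 [MOD q'] := Nat.ModEq.cancel_right_of_coprime hc.symm h2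
    exact Nat.ModEq.eq_of_lt_of_lt h3 hs hs1

private theorem ls_two_cop {q q' : ℕ} (hq : q.Prime) (hq' : q'.Prime) (hne : q ≠ q') {t s : ℕ}
    (ht : 1 ≤ t) (htq : t < q) (hs : 1 ≤ s) (hsq : s < q') :
    Nat.Coprime ((t * q' + s * q) % (q * q')) (q * q') := by
  have hc : Nat.Coprime q q' := (Nat.coprime_primes hq hq').2 hne
  have h1 : Nat.Coprime (t * q' + s * q) q := by
    rw [Nat.coprime_add_mul_right_left]
    exact Nat.Coprime.mul_left (Nat.coprime_of_lt_prime (by omega) htq hq).symm hc.symm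
  have h2 : Nat.Coprime (t * q' + s * q) q' := by
    rw [Nat.coprime_mul_right_add_left]
    exact Nat.Coprime.mul_left (Nat.coprime_of_lt_prime (by omega) hsq hq').symm hc
  have h3 : Nat.Coprime (t * q' + s * q) (q * q') := Nat.Coprime.mul_right h1 h2
  unfold Nat.Coprime at h3 ⊢
  rw [← Nat.gcd_rec, Nat.gcd_comm]
  exact h3

private theorem ls_two_pq {a b c d : ℕ} (ha : a.Prime) (hb : b.Prime) (hc : c.Prime)
    (hd : d.Prime) (hab : a < b) (hcd : c < d) (h : a * b = c * d) : a = c ∧ b = d := by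
  have h1 : a ∣ c * d := Dvd.intro b h
  rcases (Nat.Prime.dvd_mul ha).1 h1 with h2 | h2
  · have h3 : a = c := (Nat.prime_dvd_prime_iff_eq ha hc).1 h2
    subst h3
    exact ⟨rfl, Nat.eq_of_mul_eq_mul_left ha.pos h⟩
  · have h3 : a = d := (Nat.prime_dvd_prime_iff_eq ha hd).1 h2
    subst h3
    have h4 : b = c := by
      rw [mul_comm c a] at h
      exact Nat.eq_of_mul_eq_mul_left ha.pos h
    omega

private theorem ls_two_half (z N g : ℕ) (P : Finset (ℕ × ℕ))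
    (hP : ∀ p ∈ P, p.1.Prime ∧ p.2.Prime ∧ p.1 < p.2 ∧ p.1 ≤ z ∧ p.2 ≤ z ∧ Nat.Coprime g p.1 ∧
      Nat.Coprime g p.2) (hz : z ^ 4 ≤ N) (F : ℕ → ℝ) (hF : ∀ x, |F x| ≤ 1) (θ : ℝ) :
    ∑ p ∈ P, ∑ t ∈ Ico 1 p.1, ∑ t' ∈ Ico 1 p.2,
      ‖ES N F ((g : ℝ) * ((t : ℝ) / p.1 + (t' : ℝ) / p.2) + θ)‖ ^ 2 ≤ 8 * (N : ℝ) ^ 2 := by
  classical
  have hinjP : Set.InjOn (fun p : ℕ × ℕ => p.1 * p.2) (P : Set (ℕ × ℕ)) := by
    intro p hp r hr h
    have h1 := hP p hp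
    have h2 := hP r hr
    have h3 := ls_two_pq h1.1 h1.2.1 h2.1 h2.2.1 h1.2.2.1 h2.2.2.1 h
    exact Prod.ext h3.1 h3.2
  have hmain := ls_phase (z ^ 2) N g (P.image fun p => p.1 * p.2) (by
    intro d hd
    rw [Finset.mem_image] at hd
    obtain ⟨p, hp, rfl⟩ := hd
    obtain ⟨h1, h2, h3, h4, h5, h6, h7⟩ := hP p hp
    refine ⟨Nat.mul_pos h1.pos h2.pos, ?_, Nat.Coprime.mul_right h6 h7⟩
    rw [sq]
    exact Nat.mul_le_mul h4 h5) F hF θ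
  rw [Finset.sum_image hinjP] at hmain
  have hstep : ∀ p ∈ P, ∑ t ∈ Ico 1 p.1, ∑ t' ∈ Ico 1 p.2,
      ‖ES N F ((g : ℝ) * ((t : ℝ) / p.1 + (t' : ℝ) / p.2) + θ)‖ ^ 2 ≤
      ∑ t ∈ (range (p.1 * p.2)).filter (fun t => Nat.Coprime t (p.1 * p.2)),
      ‖ES N F ((g : ℝ) * ((t : ℝ) / ((p.1 * p.2 : ℕ) : ℝ)) + θ)‖ ^ 2 := by
    rintro ⟨q, q'⟩ hp
    obtain ⟨h1, h2, h3, -, -, -, -⟩ := hP _ hp
    simp only at h1 h2 h3 ⊢
    have hc : Nat.Coprime q q' := (Nat.coprime_primes h1 h2).2 h3.ne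
    have hq : (0 : ℝ) < q := by exact_mod_cast h1.pos
    have hq' : (0 : ℝ) < q' := by exact_mod_cast h2.pos
    rw [← Finset.sum_product']
    have hinj : Set.InjOn (fun x : ℕ × ℕ => (x.1 * q' + x.2 * q) % (q * q'))
        (Ico 1 q ×ˢ Ico 1 q' : Finset (ℕ × ℕ)) := by
      intro x hx y hy h
      rw [Finset.mem_coe, Finset.mem_product, Finset.mem_Ico, Finset.mem_Ico] at hx hy
      have h5 := ls_two_inj hc hx.1.2 hy.1.2 hx.2.2 hy.2.2 h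
      exact Prod.ext h5.1 h5.2
    calc ∑ x ∈ Ico 1 q ×ˢ Ico 1 q',
          ‖ES N F ((g : ℝ) * ((x.1 : ℝ) / q + (x.2 : ℝ) / q') + θ)‖ ^ 2
        = ∑ x ∈ Ico 1 q ×ˢ Ico 1 q', ‖ES N F ((g : ℝ) *
          ((((x.1 * q' + x.2 * q) % (q * q') : ℕ) : ℝ) / ((q * q' : ℕ) : ℝ)) + θ)‖ ^ 2 := by
          refine Finset.sum_congr rfl fun x _ => ?_
          rw [ls_two_per N F g ((x.1 * q' + x.2 * q) / (q * q'))]
          have h6 : (x.1 * q' + x.2 * q : ℕ) = (x.1 * q' + x.2 * q) % (q * q') +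
            (q * q') * ((x.1 * q' + x.2 * q) / (q * q')) := (Nat.mod_add_div _ _).symm
          have h7 : ((x.1 * q' + x.2 * q : ℕ) : ℝ) =
            (((x.1 * q' + x.2 * q) % (q * q') : ℕ) : ℝ) +
            ((q : ℝ) * q') * (((x.1 * q' + x.2 * q) / (q * q') : ℕ) : ℝ) := by
            exact_mod_cast h6
          have h8 : (x.1 : ℝ) / q + (x.2 : ℝ) / q' =
              ((x.1 * q' + x.2 * q : ℕ) : ℝ) / ((q : ℝ) * q') := by
            push_cast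
            field_simp
          rw [h8, h7, add_div, mul_div_cancel_left₀ _ (mul_pos hq hq').ne', Nat.cast_mul]
      _ = ∑ t ∈ (Ico 1 q ×ˢ Ico 1 q').image (fun x : ℕ × ℕ => (x.1 * q' + x.2 * q) % (q * q')),
          ‖ES N F ((g : ℝ) * ((t : ℝ) / ((q * q' : ℕ) : ℝ)) + θ)‖ ^ 2 := by
          rw [Finset.sum_image hinj]
      _ ≤ _ := by
          refine Finset.sum_le_sum_of_subset_of_nonneg ?_ fun _ _ _ => by positivity
          intro s hs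
          rw [Finset.mem_image] at hs
          obtain ⟨x, hx, rfl⟩ := hs
          rw [Finset.mem_product, Finset.mem_Ico, Finset.mem_Ico] at hx
          rw [Finset.mem_filter, Finset.mem_range]
          exact ⟨Nat.mod_lt _ (Nat.mul_pos h1.pos h2.pos),
            ls_two_cop h1 h2 h3.ne hx.1.1 hx.1.2 hx.2.1 hx.2.2⟩
  refine (Finset.sum_le_sum hstep).trans (hmain.trans ?_)
  have hz' : ((z ^ 2 : ℕ) : ℝ) ^ 2 ≤ N := by
    have : (z ^ 2) ^ 2 ≤ N := by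
      rw [← pow_mul]
      exact hz
    exact_mod_cast this
  have hN : (0 : ℝ) ≤ N := Nat.cast_nonneg N
  have hpi : Real.pi < 3.15 := Real.pi_lt_d2
  calc (((z ^ 2 : ℕ) : ℝ) ^ 2 + 2 * Real.pi * N) * N ≤ (8 * N) * N := by
        refine mul_le_mul_of_nonneg_right ?_ hN
        nlinarith
    _ = 8 * (N : ℝ) ^ 2 := by ring

/-- N6. Two moduli. For `q < q'` the map `(t, t') ↦ (t q' + t' q) % (q q')` is injective into the
residues prime to `q q'`, `t / q + t' / q'` agrees with it over `q q'` modulo 1 (so the norms of `ES`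
agree: `x g k` is an integer), and `(q, q') ↦ q q'` is injective on the pairs `q < q'`; N4 with
`Z = z²`, `1 + 2 π ≤ 8`; twice, for `q > q'`. -/
theorem ls_two (z N g : ℕ) (Qs : Finset ℕ)
    (hQ : ∀ q ∈ Qs, q.Prime ∧ q ≤ z ∧ Nat.Coprime g q) (hz : z ^ 4 ≤ N)
    (F : ℕ → ℝ) (hF : ∀ x, |F x| ≤ 1) (θ : ℝ) :
    ∑ p ∈ Qs.offDiag, ∑ t ∈ Ico 1 p.1, ∑ t' ∈ Ico 1 p.2,
      ‖ES N F ((g : ℝ) * ((t : ℝ) / p.1 + (t' : ℝ) / p.2) + θ)‖ ^ 2 ≤ 16 * (N : ℝ) ^ 2 := by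
  classical
  have h1 := ls_two_half z N g (Qs.offDiag.filter fun p => p.1 < p.2) (by
    intro p hp
    rw [Finset.mem_filter, Finset.mem_offDiag] at hp
    obtain ⟨⟨ha, hb, -⟩, hlt⟩ := hp
    exact ⟨(hQ _ ha).1, (hQ _ hb).1, hlt, (hQ _ ha).2.1, (hQ _ hb).2.1, (hQ _ ha).2.2,
      (hQ _ hb).2.2⟩) hz F hF θ
  have h2 : ∑ p ∈ Qs.offDiag.filter (fun p => ¬ p.1 < p.2), ∑ t ∈ Ico 1 p.1, ∑ t' ∈ Ico 1 p.2,
      ‖ES N F ((g : ℝ) * ((t : ℝ) / p.1 + (t' : ℝ) / p.2) + θ)‖ ^ 2 =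
      ∑ p ∈ Qs.offDiag.filter (fun p => p.1 < p.2), ∑ t ∈ Ico 1 p.1, ∑ t' ∈ Ico 1 p.2,
      ‖ES N F ((g : ℝ) * ((t : ℝ) / p.1 + (t' : ℝ) / p.2) + θ)‖ ^ 2 := by
    refine Finset.sum_bij' (fun p _ => (p.2, p.1)) (fun p _ => (p.2, p.1)) ?_ ?_ ?_ ?_ ?_
    · intro p hp
      rw [Finset.mem_filter, Finset.mem_offDiag] at hp ⊢
      obtain ⟨⟨ha, hb, hne⟩, hlt⟩ := hp
      exact ⟨⟨hb, ha, fun h => hne h.symm⟩, lt_of_le_of_ne (not_lt.1 hlt) fun h => hne h.symm⟩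
    · intro p hp
      rw [Finset.mem_filter, Finset.mem_offDiag] at hp ⊢
      obtain ⟨⟨ha, hb, hne⟩, hlt⟩ := hp
      exact ⟨⟨hb, ha, fun h => hne h.symm⟩, not_lt.2 hlt.le⟩
    · intro p _
      rfl
    · intro p _
      rfl
    · intro p _
      simp only
      rw [Finset.sum_comm]
      refine Finset.sum_congr rfl fun t _ => Finset.sum_congr rfl fun t' _ => ?_
      rw [add_comm ((t' : ℝ) / _) _]
  rw [← Finset.sum_filter_add_sum_filter_not Qs.offDiag (fun p => p.1 < p.2), h2]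
  linarith
-- END ls_two

-- BEGIN cs_one
private theorem cs_one_aux {ι : Type} (S : Finset ι) (a b : ι → ℝ) (c A B : ℝ) (hc : 0 ≤ c)
    (hA : 0 ≤ A) (hB : 0 ≤ B) (ha : ∑ i ∈ S, a i ^ 2 ≤ c * A ^ 2)
    (hb : ∑ i ∈ S, b i ^ 2 ≤ c * B ^ 2) : ∑ i ∈ S, a i * b i ≤ c * A * B := by
  have h1 : (∑ i ∈ S, a i * b i) ^ 2 ≤ (c * A * B) ^ 2 :=
    calc (∑ i ∈ S, a i * b i) ^ 2 ≤ (∑ i ∈ S, a i ^ 2) * ∑ i ∈ S, b i ^ 2 :=
          sum_mul_sq_le_sq_mul_sq S a b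
      _ ≤ (c * A ^ 2) * (c * B ^ 2) :=
          mul_le_mul ha hb (sum_nonneg fun i _ => sq_nonneg _) (by positivity)
      _ = (c * A * B) ^ 2 := by ring
  exact (abs_le_of_sq_le_sq' h1 (by positivity)).2

/-- N7. Cauchy-Schwarz and N5. -/
theorem cs_one (z N1 N2 g1 g2 : ℕ) (Qs : Finset ℕ)
    (hQ : ∀ q ∈ Qs, q.Prime ∧ q ≤ z ∧ Nat.Coprime g1 q ∧ Nat.Coprime g2 q)
    (h1 : z ^ 4 ≤ N1) (h2 : z ^ 4 ≤ N2) (F G : ℕ → ℝ) (hF : ∀ x, |F x| ≤ 1) (hG : ∀ x, |G x| ≤ 1)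
    (θ1 θ2 : ℝ) :
    ∑ q ∈ Qs, ∑ t ∈ Ico 1 q, ‖ES N1 F ((g1 : ℝ) * ((t : ℝ) / q) + θ1)‖ *
      ‖ES N2 G ((g2 : ℝ) * ((t : ℝ) / q) + θ2)‖ ≤ 8 * N1 * N2 := by
  have ha := ls_one z N1 g1 Qs (fun q hq => ⟨(hQ q hq).1, (hQ q hq).2.1, (hQ q hq).2.2.1⟩) h1 F hF θ1
  have hb := ls_one z N2 g2 Qs (fun q hq => ⟨(hQ q hq).1, (hQ q hq).2.1, (hQ q hq).2.2.2⟩) h2 G hG θ2
  rw [sum_sigma'] at ha hb ⊢
  exact cs_one_aux _ _ _ 8 N1 N2 (by norm_num) (Nat.cast_nonneg _) (Nat.cast_nonneg _) ha hb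
-- END cs_one

-- BEGIN cs_two
private theorem cs_two_aux {ι : Type} (S : Finset ι) (a b : ι → ℝ) (c A B : ℝ) (hc : 0 ≤ c)
    (hA : 0 ≤ A) (hB : 0 ≤ B) (ha : ∑ i ∈ S, a i ^ 2 ≤ c * A ^ 2)
    (hb : ∑ i ∈ S, b i ^ 2 ≤ c * B ^ 2) : ∑ i ∈ S, a i * b i ≤ c * A * B := by
  have h1 : (∑ i ∈ S, a i * b i) ^ 2 ≤ (c * A * B) ^ 2 :=
    calc (∑ i ∈ S, a i * b i) ^ 2 ≤ (∑ i ∈ S, a i ^ 2) * ∑ i ∈ S, b i ^ 2 :=
          sum_mul_sq_le_sq_mul_sq S a b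
      _ ≤ (c * A ^ 2) * (c * B ^ 2) :=
          mul_le_mul ha hb (sum_nonneg fun i _ => sq_nonneg _) (by positivity)
      _ = (c * A * B) ^ 2 := by ring
  exact (abs_le_of_sq_le_sq' h1 (by positivity)).2

/-- N8. Cauchy-Schwarz and N6. -/
theorem cs_two (z N1 N2 g1 g2 : ℕ) (Qs : Finset ℕ)
    (hQ : ∀ q ∈ Qs, q.Prime ∧ q ≤ z ∧ Nat.Coprime g1 q ∧ Nat.Coprime g2 q)
    (h1 : z ^ 4 ≤ N1) (h2 : z ^ 4 ≤ N2) (F G : ℕ → ℝ) (hF : ∀ x, |F x| ≤ 1) (hG : ∀ x, |G x| ≤ 1)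
    (θ1 θ2 : ℝ) :
    ∑ p ∈ Qs.offDiag, ∑ t ∈ Ico 1 p.1, ∑ t' ∈ Ico 1 p.2,
      ‖ES N1 F ((g1 : ℝ) * ((t : ℝ) / p.1 + (t' : ℝ) / p.2) + θ1)‖ *
      ‖ES N2 G ((g2 : ℝ) * ((t : ℝ) / p.1 + (t' : ℝ) / p.2) + θ2)‖ ≤ 16 * N1 * N2 := by
  have ha := ls_two z N1 g1 Qs (fun q hq => ⟨(hQ q hq).1, (hQ q hq).2.1, (hQ q hq).2.2.1⟩) h1 F hF θ1
  have hb := ls_two z N2 g2 Qs (fun q hq => ⟨(hQ q hq).1, (hQ q hq).2.1, (hQ q hq).2.2.2⟩) h2 G hG θ2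
  have hconv : ∀ f : ℕ × ℕ → ℕ → ℕ → ℝ,
      ∑ p ∈ Qs.offDiag, ∑ t ∈ Ico 1 p.1, ∑ t' ∈ Ico 1 p.2, f p t t' =
      ∑ x ∈ Qs.offDiag.sigma (fun p => Ico 1 p.1 ×ˢ Ico 1 p.2), f x.1 x.2.1 x.2.2 := by
    intro f
    rw [sum_sigma]
    refine sum_congr rfl fun p _ => ?_
    rw [sum_product]
  rw [hconv (fun p t t' => ‖ES N1 F ((g1 : ℝ) * ((t : ℝ) / p.1 + (t' : ℝ) / p.2) + θ1)‖ ^ 2)] at ha
  rw [hconv (fun p t t' => ‖ES N2 G ((g2 : ℝ) * ((t : ℝ) / p.1 + (t' : ℝ) / p.2) + θ2)‖ ^ 2)] at hb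
  rw [hconv (fun p t t' => ‖ES N1 F ((g1 : ℝ) * ((t : ℝ) / p.1 + (t' : ℝ) / p.2) + θ1)‖ *
      ‖ES N2 G ((g2 : ℝ) * ((t : ℝ) / p.1 + (t' : ℝ) / p.2) + θ2)‖)]
  exact cs_two_aux _ _ _ 16 N1 N2 (by norm_num) (Nat.cast_nonneg _) (Nat.cast_nonneg _) ha hb
-- END cs_two

-- BEGIN norm_sum_ee
/-- N9. `∑_{x,y} F G ee ((g₁ x + g₂ y + c₀) α) = ee (c₀ α) ES(g₁ α) ES(g₂ α)`, in norm. -/
theorem norm_sum_ee (N1 N2 g1 g2 c0 : ℕ) (F G : ℕ → ℝ) (α : ℝ) :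
    ‖∑ x ∈ range N1, ∑ y ∈ range N2, ((F x * G y : ℝ) : ℂ) *
      ee (α * ((g1 * x + g2 * y + c0 : ℕ) : ℝ))‖ = ‖ES N1 F (g1 * α)‖ * ‖ES N2 G (g2 * α)‖ := by
  have h1 : ∑ x ∈ range N1, ∑ y ∈ range N2, ((F x * G y : ℝ) : ℂ) *
      ee (α * ((g1 * x + g2 * y + c0 : ℕ) : ℝ)) =
      ee (c0 * α) * (ES N1 F (g1 * α) * ES N2 G (g2 * α)) := by
    unfold ES
    rw [Finset.sum_mul_sum, Finset.mul_sum]
    refine Finset.sum_congr rfl fun x _ => ?_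
    rw [Finset.mul_sum]
    refine Finset.sum_congr rfl fun y _ => ?_
    have h2 : α * ((g1 * x + g2 * y + c0 : ℕ) : ℝ) =
        c0 * α + (x * (g1 * α) + y * (g2 * α)) := by
      push_cast
      ring
    rw [h2, ee_add, ee_add]
    push_cast
    ring
  rw [h1, norm_mul, norm_mul, norm_ee, one_mul]
-- END norm_sum_ee

-- BEGIN err_one
private noncomputable def err_one_L (N1 N2 g1 g2 c0 : ℕ) (F G : ℕ → ℝ) (κ : ℕ → ℂ) : ℂ :=
  ∑ x ∈ range N1, ∑ y ∈ range N2, ((F x * G y : ℝ) : ℂ) * κ (g1 * x + g2 * y + c0)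

private theorem err_one_L_sum {ι : Type*} (N1 N2 g1 g2 c0 : ℕ) (F G : ℕ → ℝ) (I : Finset ι)
    (κ : ι → ℕ → ℂ) : err_one_L N1 N2 g1 g2 c0 F G (fun s => ∑ i ∈ I, κ i s) =
      ∑ i ∈ I, err_one_L N1 N2 g1 g2 c0 F G (κ i) := by
  unfold err_one_L
  calc ∑ x ∈ range N1, ∑ y ∈ range N2, ((F x * G y : ℝ) : ℂ) *
        (∑ i ∈ I, κ i (g1 * x + g2 * y + c0))
      = ∑ x ∈ range N1, ∑ i ∈ I, ∑ y ∈ range N2, ((F x * G y : ℝ) : ℂ) *
          κ i (g1 * x + g2 * y + c0) := by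
        refine Finset.sum_congr rfl fun x _ => ?_
        simp only [Finset.mul_sum]
        exact Finset.sum_comm
    _ = ∑ i ∈ I, ∑ x ∈ range N1, ∑ y ∈ range N2, ((F x * G y : ℝ) : ℂ) *
          κ i (g1 * x + g2 * y + c0) := Finset.sum_comm

private theorem err_one_L_mul (N1 N2 g1 g2 c0 : ℕ) (F G : ℕ → ℝ) (c : ℂ) (κ : ℕ → ℂ) :
    err_one_L N1 N2 g1 g2 c0 F G (fun s => c * κ s) = c * err_one_L N1 N2 g1 g2 c0 F G κ := by
  unfold err_one_L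
  simp only [Finset.mul_sum]
  refine Finset.sum_congr rfl fun x _ => Finset.sum_congr rfl fun y _ => ?_
  ring

private theorem err_one_point (w N1 N2 g1 g2 c0 D : ℕ) (hw : 1 ≤ w) (F G : ℕ → ℝ)
    (lam : ℕ → ℝ) (hlam : ∀ d, |lam d| ≤ 1) (q : ℕ) (hq : w < q) :
    |SS N1 N2 g1 g2 c0 F G (fun s => Wt lam D s * fq q s)| ≤
      ∑ d ∈ Icc 1 D, ∑ e ∈ Icc 1 D, ∑ r ∈ range (Nat.lcm d e), ∑ t ∈ Ico 1 q,
        (1 / ((Nat.lcm d e : ℕ) : ℝ) * (1 / (w : ℝ))) *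
          (‖ES N1 F ((g1 : ℝ) * ((t : ℝ) / q) + (g1 : ℝ) * ((r : ℝ) / (Nat.lcm d e : ℕ)))‖ *
            ‖ES N2 G ((g2 : ℝ) * ((t : ℝ) / q) + (g2 : ℝ) * ((r : ℝ) / (Nat.lcm d e : ℕ)))‖) := by
  have hw0 : (0 : ℝ) < w := by exact_mod_cast hw
  have hqw : (w : ℝ) < q := by exact_mod_cast hq
  have h1 : ((SS N1 N2 g1 g2 c0 F G (fun s => Wt lam D s * fq q s) : ℝ) : ℂ) =
      err_one_L N1 N2 g1 g2 c0 F G (fun s => ((Wt lam D s * fq q s : ℝ) : ℂ)) := by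
    unfold SS err_one_L
    push_cast
    rfl
  have h2 : (fun s : ℕ => ((Wt lam D s * fq q s : ℝ) : ℂ)) = fun s : ℕ =>
      ∑ d ∈ Icc 1 D, ∑ e ∈ Icc 1 D, ∑ r ∈ range (Nat.lcm d e), ∑ t ∈ Ico 1 q,
        (((lam d * lam e : ℝ) : ℂ) * (1 / ((Nat.lcm d e : ℕ) : ℂ)) * (1 / (q : ℂ))) *
          ee (((t : ℝ) / q + (r : ℝ) / (Nat.lcm d e : ℕ)) * (s : ℝ)) := by
    funext s
    rw [Complex.ofReal_mul, Wt_eq, fq_eq q s (by omega), Finset.sum_mul]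
    refine Finset.sum_congr rfl fun d _ => ?_
    rw [Finset.sum_mul]
    refine Finset.sum_congr rfl fun e _ => ?_
    have h3 : ∀ A B C X Y : ℂ, (A * (B * X)) * (C * Y) = (A * B * C) * (X * Y) := by
      intro A B C X Y; ring
    rw [h3, Finset.sum_mul_sum, Finset.mul_sum]
    refine Finset.sum_congr rfl fun r _ => ?_
    rw [Finset.mul_sum]
    refine Finset.sum_congr rfl fun t _ => ?_
    rw [add_mul, ee_add]
    ring
  rw [← Real.norm_eq_abs, ← Complex.norm_real, h1, h2, err_one_L_sum]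
  refine (norm_sum_le _ _).trans (Finset.sum_le_sum fun d hd => ?_)
  rw [err_one_L_sum]
  refine (norm_sum_le _ _).trans (Finset.sum_le_sum fun e he => ?_)
  rw [err_one_L_sum]
  refine (norm_sum_le _ _).trans (Finset.sum_le_sum fun r _ => ?_)
  rw [err_one_L_sum]
  refine (norm_sum_le _ _).trans (Finset.sum_le_sum fun t _ => ?_)
  rw [err_one_L_mul, norm_mul]
  have h4 : ‖err_one_L N1 N2 g1 g2 c0 F G
      (fun s : ℕ => ee (((t : ℝ) / q + (r : ℝ) / (Nat.lcm d e : ℕ)) * (s : ℝ)))‖ =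
      ‖ES N1 F ((g1 : ℝ) * ((t : ℝ) / q) + (g1 : ℝ) * ((r : ℝ) / (Nat.lcm d e : ℕ)))‖ *
        ‖ES N2 G ((g2 : ℝ) * ((t : ℝ) / q) + (g2 : ℝ) * ((r : ℝ) / (Nat.lcm d e : ℕ)))‖ := by
    have h5 := norm_sum_ee N1 N2 g1 g2 c0 F G ((t : ℝ) / q + (r : ℝ) / (Nat.lcm d e : ℕ))
    rw [mul_add, mul_add] at h5
    exact h5
  rw [h4]
  have hde : (0 : ℝ) < ((Nat.lcm d e : ℕ) : ℝ) := by
    have : 0 < Nat.lcm d e :=
      Nat.lcm_pos (by have := (Finset.mem_Icc.1 hd).1; omega)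
        (by have := (Finset.mem_Icc.1 he).1; omega)
    exact_mod_cast this
  refine mul_le_mul_of_nonneg_right ?_ (by positivity)
  rw [norm_mul, norm_mul, Complex.norm_real, Real.norm_eq_abs, abs_mul, norm_div, norm_div,
    norm_one, Complex.norm_natCast, Complex.norm_natCast]
  have h6 : |lam d| * |lam e| ≤ 1 := by
    have := mul_le_mul (hlam d) (hlam e) (abs_nonneg _) (by norm_num : (0 : ℝ) ≤ 1)
    linarith
  have h7 : (1 : ℝ) / q ≤ 1 / w := one_div_le_one_div_of_le hw0 hqw.le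
  have h8 : (0 : ℝ) ≤ 1 / ((Nat.lcm d e : ℕ) : ℝ) := by positivity
  have h9 : (0 : ℝ) ≤ 1 / (q : ℝ) := by positivity
  calc |lam d| * |lam e| * (1 / ((Nat.lcm d e : ℕ) : ℝ)) * (1 / (q : ℝ))
      ≤ 1 * (1 / ((Nat.lcm d e : ℕ) : ℝ)) * (1 / (q : ℝ)) := by gcongr
    _ ≤ 1 / ((Nat.lcm d e : ℕ) : ℝ) * (1 / (w : ℝ)) := by
        rw [one_mul]; gcongr

/-- N10. Insert N2 and N3 in `SS`, exchange the sums, N9 with `α = r / l + t / q`, and N7 with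
`θᵢ = gᵢ r / l`; `1 / q ≤ 1 / w`, the `r`-sum has `l` terms with the factor `1 / l`, and there are
`D²` pairs `(d, e)` with `|λ_d λ_e| ≤ 1`. -/
theorem err_one (w z N1 N2 g1 g2 c0 D : ℕ) (hw : 1 ≤ w) (Qs : Finset ℕ)
    (hQ : ∀ q ∈ Qs, q.Prime ∧ w < q ∧ q ≤ z ∧ Nat.Coprime g1 q ∧ Nat.Coprime g2 q)
    (h1 : z ^ 4 ≤ N1) (h2 : z ^ 4 ≤ N2) (F G : ℕ → ℝ) (hF : ∀ x, |F x| ≤ 1) (hG : ∀ x, |G x| ≤ 1)
    (lam : ℕ → ℝ) (hlam : ∀ d, |lam d| ≤ 1) :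
    ∑ q ∈ Qs, |SS N1 N2 g1 g2 c0 F G (fun s => Wt lam D s * fq q s)| ≤
      (D : ℝ) ^ 2 * (8 * N1 * N2) / w := by
  have hw0 : (0 : ℝ) < w := by exact_mod_cast hw
  refine (Finset.sum_le_sum fun q hq =>
    err_one_point w N1 N2 g1 g2 c0 D hw F G lam hlam q (hQ q hq).2.1).trans ?_
  rw [Finset.sum_comm]
  have hcs : ∀ d ∈ Icc 1 D, ∀ e ∈ Icc 1 D,
      ∑ q ∈ Qs, ∑ r ∈ range (Nat.lcm d e), ∑ t ∈ Ico 1 q,
        (1 / ((Nat.lcm d e : ℕ) : ℝ) * (1 / (w : ℝ))) *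
          (‖ES N1 F ((g1 : ℝ) * ((t : ℝ) / q) + (g1 : ℝ) * ((r : ℝ) / (Nat.lcm d e : ℕ)))‖ *
            ‖ES N2 G ((g2 : ℝ) * ((t : ℝ) / q) + (g2 : ℝ) * ((r : ℝ) / (Nat.lcm d e : ℕ)))‖) ≤
      (8 * N1 * N2) / w := by
    intro d hd e he
    have hde : (0 : ℝ) < ((Nat.lcm d e : ℕ) : ℝ) := by
      have : 0 < Nat.lcm d e :=
        Nat.lcm_pos (by have := (Finset.mem_Icc.1 hd).1; omega)
          (by have := (Finset.mem_Icc.1 he).1; omega)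
      exact_mod_cast this
    rw [Finset.sum_comm]
    have hr : ∀ r ∈ range (Nat.lcm d e), ∑ q ∈ Qs, ∑ t ∈ Ico 1 q,
        (1 / ((Nat.lcm d e : ℕ) : ℝ) * (1 / (w : ℝ))) *
          (‖ES N1 F ((g1 : ℝ) * ((t : ℝ) / q) + (g1 : ℝ) * ((r : ℝ) / (Nat.lcm d e : ℕ)))‖ *
            ‖ES N2 G ((g2 : ℝ) * ((t : ℝ) / q) + (g2 : ℝ) * ((r : ℝ) / (Nat.lcm d e : ℕ)))‖) ≤
        (1 / ((Nat.lcm d e : ℕ) : ℝ) * (1 / (w : ℝ))) * (8 * N1 * N2) := by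
      intro r _
      simp only [← Finset.mul_sum]
      refine mul_le_mul_of_nonneg_left ?_ (by positivity)
      exact cs_one z N1 N2 g1 g2 Qs
        (fun q hq => ⟨(hQ q hq).1, (hQ q hq).2.2.1, (hQ q hq).2.2.2.1, (hQ q hq).2.2.2.2⟩)
        h1 h2 F G hF hG _ _
    refine (Finset.sum_le_sum hr).trans (le_of_eq ?_)
    rw [Finset.sum_const, Finset.card_range, nsmul_eq_mul]
    field_simp
  have hd2 : ∀ d ∈ Icc 1 D, ∑ q ∈ Qs, ∑ e ∈ Icc 1 D,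
      ∑ r ∈ range (Nat.lcm d e), ∑ t ∈ Ico 1 q,
        (1 / ((Nat.lcm d e : ℕ) : ℝ) * (1 / (w : ℝ))) *
          (‖ES N1 F ((g1 : ℝ) * ((t : ℝ) / q) + (g1 : ℝ) * ((r : ℝ) / (Nat.lcm d e : ℕ)))‖ *
            ‖ES N2 G ((g2 : ℝ) * ((t : ℝ) / q) + (g2 : ℝ) * ((r : ℝ) / (Nat.lcm d e : ℕ)))‖) ≤
      (D : ℝ) * ((8 * N1 * N2) / w) := by
    intro d hd
    rw [Finset.sum_comm]
    refine (Finset.sum_le_sum fun e he => hcs d hd e he).trans (le_of_eq ?_)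
    rw [Finset.sum_const, Nat.card_Icc, nsmul_eq_mul]
    simp
  refine (Finset.sum_le_sum hd2).trans (le_of_eq ?_)
  rw [Finset.sum_const, Nat.card_Icc, nsmul_eq_mul]
  simp only [Nat.add_sub_cancel]
  ring
-- END err_one

-- BEGIN err_two
private noncomputable def err_two_L (N1 N2 g1 g2 c0 : ℕ) (F G : ℕ → ℝ) (κ : ℕ → ℂ) : ℂ :=
  ∑ x ∈ range N1, ∑ y ∈ range N2, ((F x * G y : ℝ) : ℂ) * κ (g1 * x + g2 * y + c0)

private theorem err_two_sum {ι : Type} (N1 N2 g1 g2 c0 : ℕ) (F G : ℕ → ℝ) (I : Finset ι)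
    (f : ι → ℕ → ℂ) : ‖err_two_L N1 N2 g1 g2 c0 F G (fun s => ∑ i ∈ I, f i s)‖ ≤
      ∑ i ∈ I, ‖err_two_L N1 N2 g1 g2 c0 F G (f i)‖ := by
  have h : err_two_L N1 N2 g1 g2 c0 F G (fun s => ∑ i ∈ I, f i s) =
      ∑ i ∈ I, err_two_L N1 N2 g1 g2 c0 F G (f i) := by
    unfold err_two_L
    symm
    rw [Finset.sum_comm]
    refine Finset.sum_congr rfl fun x _ => ?_
    rw [Finset.sum_comm]
    refine Finset.sum_congr rfl fun y _ => ?_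
    rw [Finset.mul_sum]
  rw [h]
  exact norm_sum_le _ _

private theorem err_two_SS (N1 N2 g1 g2 c0 : ℕ) (F G : ℕ → ℝ) (κ : ℕ → ℝ) :
    |SS N1 N2 g1 g2 c0 F G κ| = ‖err_two_L N1 N2 g1 g2 c0 F G (fun s => ((κ s : ℝ) : ℂ))‖ := by
  rw [← Real.norm_eq_abs, ← Complex.norm_real]
  unfold SS err_two_L
  push_cast
  rfl

private theorem err_two_ee (N1 N2 g1 g2 c0 : ℕ) (F G : ℕ → ℝ) (c α : ℝ) :
    ‖err_two_L N1 N2 g1 g2 c0 F G (fun s => (c : ℂ) * ee (α * (s : ℝ)))‖ =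
      |c| * (‖ES N1 F (g1 * α)‖ * ‖ES N2 G (g2 * α)‖) := by
  rw [← norm_sum_ee N1 N2 g1 g2 c0 F G α]
  have h : err_two_L N1 N2 g1 g2 c0 F G (fun s => (c : ℂ) * ee (α * (s : ℝ))) = (c : ℂ) *
      ∑ x ∈ range N1, ∑ y ∈ range N2, ((F x * G y : ℝ) : ℂ) *
      ee (α * ((g1 * x + g2 * y + c0 : ℕ) : ℝ)) := by
    unfold err_two_L
    rw [Finset.mul_sum]
    refine Finset.sum_congr rfl fun x _ => ?_
    rw [Finset.mul_sum]
    refine Finset.sum_congr rfl fun y _ => ?_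
    ring
  rw [h, norm_mul, Complex.norm_real, Real.norm_eq_abs]

private theorem err_two_exp (lam : ℕ → ℝ) (D q q' s : ℕ) (hq : 1 ≤ q) (hq' : 1 ≤ q') :
    ((Wt lam D s * (fq q s * fq q' s) : ℝ) : ℂ) = ∑ d ∈ Icc 1 D, ∑ e ∈ Icc 1 D,
      ∑ r ∈ range (Nat.lcm d e), ∑ t ∈ Ico 1 q, ∑ t' ∈ Ico 1 q',
      ((lam d * lam e / ((Nat.lcm d e : ℕ) * (q * q')) : ℝ) : ℂ) *
        ee (((r : ℝ) / (Nat.lcm d e : ℕ) + ((t : ℝ) / q + (t' : ℝ) / q')) * (s : ℝ)) := by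
  rw [Complex.ofReal_mul, Complex.ofReal_mul, Wt_eq, fq_eq q s hq, fq_eq q' s hq', Finset.sum_mul]
  refine Finset.sum_congr rfl fun d _ => ?_
  rw [Finset.sum_mul]
  refine Finset.sum_congr rfl fun e _ => ?_
  have h1 : ∀ r ∈ range (Nat.lcm d e), ∑ t ∈ Ico 1 q, ∑ t' ∈ Ico 1 q',
      ((lam d * lam e / ((Nat.lcm d e : ℕ) * (q * q')) : ℝ) : ℂ) *
        ee (((r : ℝ) / (Nat.lcm d e : ℕ) + ((t : ℝ) / q + (t' : ℝ) / q')) * (s : ℝ)) =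
      ((lam d * lam e / ((Nat.lcm d e : ℕ) * (q * q')) : ℝ) : ℂ) *
        (ee ((r : ℝ) / (Nat.lcm d e : ℕ) * s) * ((∑ t ∈ Ico 1 q, ee ((t : ℝ) / q * s)) *
          (∑ t' ∈ Ico 1 q', ee ((t' : ℝ) / q' * s)))) := by
    intro r _
    rw [Finset.sum_mul_sum, Finset.mul_sum, Finset.mul_sum]
    refine Finset.sum_congr rfl fun t _ => ?_
    rw [Finset.mul_sum, Finset.mul_sum]
    refine Finset.sum_congr rfl fun t' _ => ?_
    rw [add_mul, add_mul, ee_add, ee_add]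
  rw [Finset.sum_congr rfl h1, ← Finset.mul_sum, ← Finset.sum_mul]
  push_cast
  ring

/-- N11. The same with `fq q s * fq q' s` (N2 twice) and N8. -/
theorem err_two (w z N1 N2 g1 g2 c0 D : ℕ) (hw : 1 ≤ w) (Qs : Finset ℕ)
    (hQ : ∀ q ∈ Qs, q.Prime ∧ w < q ∧ q ≤ z ∧ Nat.Coprime g1 q ∧ Nat.Coprime g2 q)
    (h1 : z ^ 4 ≤ N1) (h2 : z ^ 4 ≤ N2) (F G : ℕ → ℝ) (hF : ∀ x, |F x| ≤ 1) (hG : ∀ x, |G x| ≤ 1)
    (lam : ℕ → ℝ) (hlam : ∀ d, |lam d| ≤ 1) :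
    ∑ p ∈ Qs.offDiag, |SS N1 N2 g1 g2 c0 F G (fun s => Wt lam D s * (fq p.1 s * fq p.2 s))| ≤
      (D : ℝ) ^ 2 * (16 * N1 * N2) / w := by
  have hw0 : (0 : ℝ) < w := by exact_mod_cast hw
  have hp : ∀ p ∈ Qs.offDiag,
      |SS N1 N2 g1 g2 c0 F G (fun s => Wt lam D s * (fq p.1 s * fq p.2 s))| ≤
      ∑ d ∈ Icc 1 D, ∑ e ∈ Icc 1 D, ∑ r ∈ range (Nat.lcm d e),
      (1 / ((Nat.lcm d e : ℕ) * w) : ℝ) * ∑ t ∈ Ico 1 p.1, ∑ t' ∈ Ico 1 p.2,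
      ‖ES N1 F ((g1 : ℝ) * ((t : ℝ) / p.1 + (t' : ℝ) / p.2) +
        (g1 : ℝ) * ((r : ℝ) / (Nat.lcm d e : ℕ)))‖ *
      ‖ES N2 G ((g2 : ℝ) * ((t : ℝ) / p.1 + (t' : ℝ) / p.2) +
        (g2 : ℝ) * ((r : ℝ) / (Nat.lcm d e : ℕ)))‖ := by
    rintro ⟨q, q'⟩ hp
    rw [Finset.mem_offDiag] at hp
    obtain ⟨ha, hb, -⟩ := hp
    simp only at ha hb ⊢
    obtain ⟨hq, hwq, -, -, -⟩ := hQ q ha
    obtain ⟨hq', -, -, -, -⟩ := hQ q' hb
    have hwq' : (w : ℝ) ≤ q := by exact_mod_cast hwq.le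
    have hq1 : (1 : ℝ) ≤ q' := by exact_mod_cast hq'.one_le
    rw [err_two_SS]
    have h3 : (fun s => ((Wt lam D s * (fq q s * fq q' s) : ℝ) : ℂ)) = fun s : ℕ =>
        ∑ d ∈ Icc 1 D, ∑ e ∈ Icc 1 D,
        ∑ r ∈ range (Nat.lcm d e), ∑ t ∈ Ico 1 q, ∑ t' ∈ Ico 1 q',
        ((lam d * lam e / ((Nat.lcm d e : ℕ) * (q * q')) : ℝ) : ℂ) *
        ee (((r : ℝ) / (Nat.lcm d e : ℕ) + ((t : ℝ) / q + (t' : ℝ) / q')) * (s : ℝ)) :=
      funext fun s => err_two_exp lam D q q' s hq.one_le hq'.one_le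
    rw [h3]
    refine (err_two_sum N1 N2 g1 g2 c0 F G _ _).trans (Finset.sum_le_sum fun d hd => ?_)
    refine (err_two_sum N1 N2 g1 g2 c0 F G _ _).trans (Finset.sum_le_sum fun e he => ?_)
    refine (err_two_sum N1 N2 g1 g2 c0 F G _ _).trans (Finset.sum_le_sum fun r _ => ?_)
    rw [Finset.mul_sum]
    refine (err_two_sum N1 N2 g1 g2 c0 F G _ _).trans (Finset.sum_le_sum fun t _ => ?_)
    rw [Finset.mul_sum]
    refine (err_two_sum N1 N2 g1 g2 c0 F G _ _).trans (Finset.sum_le_sum fun t' _ => ?_)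
    rw [err_two_ee]
    have hl : (0 : ℝ) < (Nat.lcm d e : ℕ) := by
      rw [Finset.mem_Icc] at hd he
      exact_mod_cast Nat.lcm_pos hd.1 he.1
    have e1 : (g1 : ℝ) * ((r : ℝ) / (Nat.lcm d e : ℕ) + ((t : ℝ) / q + (t' : ℝ) / q')) =
        (g1 : ℝ) * ((t : ℝ) / q + (t' : ℝ) / q') + (g1 : ℝ) * ((r : ℝ) / (Nat.lcm d e : ℕ)) := by
      ring
    have e2 : (g2 : ℝ) * ((r : ℝ) / (Nat.lcm d e : ℕ) + ((t : ℝ) / q + (t' : ℝ) / q')) =
        (g2 : ℝ) * ((t : ℝ) / q + (t' : ℝ) / q') + (g2 : ℝ) * ((r : ℝ) / (Nat.lcm d e : ℕ)) := by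
      ring
    rw [e1, e2]
    refine mul_le_mul_of_nonneg_right ?_ (by positivity)
    rw [abs_div, abs_of_pos (mul_pos hl (mul_pos (hw0.trans_le hwq') (by linarith))), abs_mul]
    refine div_le_div₀ zero_le_one ?_ (mul_pos hl hw0) ?_
    · calc |lam d| * |lam e| ≤ 1 * 1 :=
            mul_le_mul (hlam d) (hlam e) (abs_nonneg _) zero_le_one
        _ = 1 := one_mul 1
    · refine mul_le_mul_of_nonneg_left ?_ hl.le
      calc (w : ℝ) = w * 1 := (mul_one _).symm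
        _ ≤ q * q' := mul_le_mul hwq' hq1 zero_le_one (by linarith)
  refine (Finset.sum_le_sum hp).trans ?_
  rw [Finset.sum_comm]
  have hb : ∀ d ∈ Icc 1 D, ∑ p ∈ Qs.offDiag, ∑ e ∈ Icc 1 D, ∑ r ∈ range (Nat.lcm d e),
      (1 / ((Nat.lcm d e : ℕ) * w) : ℝ) * ∑ t ∈ Ico 1 p.1, ∑ t' ∈ Ico 1 p.2,
      ‖ES N1 F ((g1 : ℝ) * ((t : ℝ) / p.1 + (t' : ℝ) / p.2) +
        (g1 : ℝ) * ((r : ℝ) / (Nat.lcm d e : ℕ)))‖ *
      ‖ES N2 G ((g2 : ℝ) * ((t : ℝ) / p.1 + (t' : ℝ) / p.2) +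
        (g2 : ℝ) * ((r : ℝ) / (Nat.lcm d e : ℕ)))‖ ≤ D * ((16 * N1 * N2) / w) := by
    intro d hd
    rw [Finset.sum_comm]
    have hb2 : ∀ e ∈ Icc 1 D, ∑ p ∈ Qs.offDiag, ∑ r ∈ range (Nat.lcm d e),
        (1 / ((Nat.lcm d e : ℕ) * w) : ℝ) * ∑ t ∈ Ico 1 p.1, ∑ t' ∈ Ico 1 p.2,
        ‖ES N1 F ((g1 : ℝ) * ((t : ℝ) / p.1 + (t' : ℝ) / p.2) +
          (g1 : ℝ) * ((r : ℝ) / (Nat.lcm d e : ℕ)))‖ *
        ‖ES N2 G ((g2 : ℝ) * ((t : ℝ) / p.1 + (t' : ℝ) / p.2) +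
          (g2 : ℝ) * ((r : ℝ) / (Nat.lcm d e : ℕ)))‖ ≤ (16 * N1 * N2) / w := by
      intro e he
      rw [Finset.sum_comm]
      have hl : (0 : ℝ) < (Nat.lcm d e : ℕ) := by
        rw [Finset.mem_Icc] at hd he
        exact_mod_cast Nat.lcm_pos hd.1 he.1
      have hb3 : ∀ r ∈ range (Nat.lcm d e), ∑ p ∈ Qs.offDiag,
          (1 / ((Nat.lcm d e : ℕ) * w) : ℝ) * ∑ t ∈ Ico 1 p.1, ∑ t' ∈ Ico 1 p.2,
          ‖ES N1 F ((g1 : ℝ) * ((t : ℝ) / p.1 + (t' : ℝ) / p.2) +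
            (g1 : ℝ) * ((r : ℝ) / (Nat.lcm d e : ℕ)))‖ *
          ‖ES N2 G ((g2 : ℝ) * ((t : ℝ) / p.1 + (t' : ℝ) / p.2) +
            (g2 : ℝ) * ((r : ℝ) / (Nat.lcm d e : ℕ)))‖ ≤
          (1 / ((Nat.lcm d e : ℕ) * w) : ℝ) * (16 * N1 * N2) := by
        intro r _
        rw [← Finset.mul_sum]
        refine mul_le_mul_of_nonneg_left ?_ (by positivity)
        exact cs_two z N1 N2 g1 g2 Qs (fun q hq => ⟨(hQ q hq).1, (hQ q hq).2.2.1,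
          (hQ q hq).2.2.2.1, (hQ q hq).2.2.2.2⟩) h1 h2 F G hF hG _ _
      refine (Finset.sum_le_sum hb3).trans ?_
      rw [Finset.sum_const, Finset.card_range, nsmul_eq_mul]
      have e3 : ((Nat.lcm d e : ℕ) : ℝ) * ((1 / ((Nat.lcm d e : ℕ) * w) : ℝ) * (16 * N1 * N2)) =
          (16 * N1 * N2) / w := by
        field_simp
      rw [e3]
    refine (Finset.sum_le_sum hb2).trans ?_
    rw [Finset.sum_const, Nat.card_Icc, nsmul_eq_mul, Nat.add_sub_cancel]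
  refine (Finset.sum_le_sum hb).trans ?_
  rw [Finset.sum_const, Nat.card_Icc, nsmul_eq_mul, Nat.add_sub_cancel]
  have e4 : (D : ℝ) * (D * ((16 * N1 * N2) / w)) = (D : ℝ) ^ 2 * (16 * N1 * N2) / w := by
    ring
  rw [e4]
-- END err_two

-- BEGIN fq_sq_sum
/-- N12. `(∑_q f_q)² = ∑_q ((1/q)(1-1/q) + (1-2/q) f_q) + ∑_{q ≠ q'} f_q f_q'`. -/
theorem fq_sq_sum (Qs : Finset ℕ) (hQ : ∀ q ∈ Qs, 1 ≤ q) (s : ℕ) :
    (∑ q ∈ Qs, fq q s) ^ 2 = ∑ q ∈ Qs, ((1 / (q : ℝ)) * (1 - 1 / q) + (1 - 2 / (q : ℝ)) * fq q s) +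
      ∑ p ∈ Qs.offDiag, fq p.1 s * fq p.2 s := by
  have h1 : (∑ q ∈ Qs, fq q s) ^ 2 = ∑ p ∈ Qs ×ˢ Qs, fq p.1 s * fq p.2 s := by
    rw [sq, sum_mul_sum, ← sum_product']
  have h2 : ∑ p ∈ Qs.diag, fq p.1 s * fq p.2 s =
      ∑ q ∈ Qs, ((1 / (q : ℝ)) * (1 - 1 / q) + (1 - 2 / (q : ℝ)) * fq q s) := by
    rw [sum_diag]
    refine sum_congr rfl fun q _ => ?_
    unfold fq
    by_cases h : q ∣ s
    · rw [if_pos h]; ring
    · rw [if_neg h]; ring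
  rw [h1, ← diag_union_offDiag, sum_union (disjoint_diag_offDiag Qs), h2]
-- END fq_sq_sum

-- BEGIN variance
private theorem variance_add (N1 N2 g1 g2 c0 : ℕ) (F G κ κ' : ℕ → ℝ) :
    SS N1 N2 g1 g2 c0 F G (fun s => κ s + κ' s) =
      SS N1 N2 g1 g2 c0 F G κ + SS N1 N2 g1 g2 c0 F G κ' := by
  unfold SS
  rw [← Finset.sum_add_distrib]
  refine Finset.sum_congr rfl fun x _ => ?_
  rw [← Finset.sum_add_distrib]
  refine Finset.sum_congr rfl fun y _ => ?_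
  ring

private theorem variance_smul (N1 N2 g1 g2 c0 : ℕ) (F G κ : ℕ → ℝ) (c : ℝ) :
    SS N1 N2 g1 g2 c0 F G (fun s => c * κ s) = c * SS N1 N2 g1 g2 c0 F G κ := by
  unfold SS
  rw [Finset.mul_sum]
  refine Finset.sum_congr rfl fun x _ => ?_
  rw [Finset.mul_sum]
  refine Finset.sum_congr rfl fun y _ => ?_
  ring

private theorem variance_sum {ι : Type} (N1 N2 g1 g2 c0 : ℕ) (F G : ℕ → ℝ) (I : Finset ι)
    (f : ι → ℕ → ℝ) : SS N1 N2 g1 g2 c0 F G (fun s => ∑ i ∈ I, f i s) =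
      ∑ i ∈ I, SS N1 N2 g1 g2 c0 F G (f i) := by
  unfold SS
  symm
  rw [Finset.sum_comm]
  refine Finset.sum_congr rfl fun x _ => ?_
  rw [Finset.sum_comm]
  refine Finset.sum_congr rfl fun y _ => ?_
  rw [Finset.mul_sum]

/-- N13. The variance. (N12, N10, N11; `0 ≤ 1 - 2/q ≤ 1`, `SS` of `Wt` is `≥ 0`.) -/
theorem variance (w z N1 N2 g1 g2 c0 D : ℕ) (hw : 1 ≤ w) (Qs : Finset ℕ)
    (hQ : ∀ q ∈ Qs, q.Prime ∧ w < q ∧ q ≤ z ∧ Nat.Coprime g1 q ∧ Nat.Coprime g2 q)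
    (h1 : z ^ 4 ≤ N1) (h2 : z ^ 4 ≤ N2) (F G : ℕ → ℝ) (hF : ∀ x, 0 ≤ F x ∧ F x ≤ 1)
    (hG : ∀ x, 0 ≤ G x ∧ G x ≤ 1) (lam : ℕ → ℝ) (hlam : ∀ d, |lam d| ≤ 1) :
    SS N1 N2 g1 g2 c0 F G (fun s => Wt lam D s * (∑ q ∈ Qs, fq q s) ^ 2) ≤
      (∑ q ∈ Qs, 1 / (q : ℝ)) * SS N1 N2 g1 g2 c0 F G (Wt lam D) +
        (D : ℝ) ^ 2 * (24 * N1 * N2) / w := by
  have hF' : ∀ x, |F x| ≤ 1 := fun x => abs_le.2 ⟨by linarith [(hF x).1], (hF x).2⟩
  have hG' : ∀ x, |G x| ≤ 1 := fun x => abs_le.2 ⟨by linarith [(hG x).1], (hG x).2⟩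
  have hE1 := err_one w z N1 N2 g1 g2 c0 D hw Qs hQ h1 h2 F G hF' hG' lam hlam
  have hE2 := err_two w z N1 N2 g1 g2 c0 D hw Qs hQ h1 h2 F G hF' hG' lam hlam
  have hW0 : 0 ≤ SS N1 N2 g1 g2 c0 F G (Wt lam D) := by
    unfold SS
    refine Finset.sum_nonneg fun x _ => Finset.sum_nonneg fun y _ => ?_
    exact mul_nonneg (mul_nonneg (hF x).1 (hG y).1) (sq_nonneg _)
  have hfun : (fun s => Wt lam D s * (∑ q ∈ Qs, fq q s) ^ 2) = fun s =>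
      (∑ q ∈ Qs, ((1 / (q : ℝ)) * (1 - 1 / q) * Wt lam D s +
        (1 - 2 / (q : ℝ)) * (Wt lam D s * fq q s))) +
      ∑ p ∈ Qs.offDiag, Wt lam D s * (fq p.1 s * fq p.2 s) := by
    funext s
    rw [fq_sq_sum Qs (fun q hq => (hQ q hq).1.one_le) s, mul_add, Finset.mul_sum, Finset.mul_sum]
    congr 1
    refine Finset.sum_congr rfl fun q _ => ?_
    ring
  rw [hfun, variance_add, variance_sum, variance_sum]
  have hA : ∑ q ∈ Qs, SS N1 N2 g1 g2 c0 F G (fun s => (1 / (q : ℝ)) * (1 - 1 / q) * Wt lam D s +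
      (1 - 2 / (q : ℝ)) * (Wt lam D s * fq q s)) ≤
      (∑ q ∈ Qs, 1 / (q : ℝ)) * SS N1 N2 g1 g2 c0 F G (Wt lam D) +
      ∑ q ∈ Qs, |SS N1 N2 g1 g2 c0 F G (fun s => Wt lam D s * fq q s)| := by
    rw [Finset.sum_mul, ← Finset.sum_add_distrib]
    refine Finset.sum_le_sum fun q hq => ?_
    rw [variance_add N1 N2 g1 g2 c0 F G (fun s => (1 / (q : ℝ)) * (1 - 1 / q) * Wt lam D s)
      (fun s => (1 - 2 / (q : ℝ)) * (Wt lam D s * fq q s)),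
      variance_smul N1 N2 g1 g2 c0 F G (Wt lam D) ((1 / (q : ℝ)) * (1 - 1 / q)),
      variance_smul N1 N2 g1 g2 c0 F G (fun s => Wt lam D s * fq q s) (1 - 2 / (q : ℝ))]
    have hq2 : (2 : ℝ) ≤ q := by exact_mod_cast (hQ q hq).1.two_le
    have hq0 : (0 : ℝ) < q := by linarith
    have hi : 0 ≤ 1 / (q : ℝ) := by positivity
    have h3 : (1 / (q : ℝ)) * (1 - 1 / q) ≤ 1 / (q : ℝ) := by nlinarith
    have h4 : 0 ≤ 1 - 2 / (q : ℝ) := by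
      rw [sub_nonneg, div_le_one hq0]
      exact hq2
    have h5 : 1 - 2 / (q : ℝ) ≤ 1 := by
      have : 0 ≤ 2 / (q : ℝ) := by positivity
      linarith
    refine add_le_add (mul_le_mul_of_nonneg_right h3 hW0) ?_
    calc (1 - 2 / (q : ℝ)) * SS N1 N2 g1 g2 c0 F G (fun s => Wt lam D s * fq q s)
        ≤ (1 - 2 / (q : ℝ)) * |SS N1 N2 g1 g2 c0 F G (fun s => Wt lam D s * fq q s)| :=
          mul_le_mul_of_nonneg_left (le_abs_self _) h4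
      _ ≤ 1 * |SS N1 N2 g1 g2 c0 F G (fun s => Wt lam D s * fq q s)| :=
          mul_le_mul_of_nonneg_right h5 (abs_nonneg _)
      _ = _ := one_mul _
  have hB : ∑ p ∈ Qs.offDiag, SS N1 N2 g1 g2 c0 F G
      (fun s => Wt lam D s * (fq p.1 s * fq p.2 s)) ≤
      ∑ p ∈ Qs.offDiag, |SS N1 N2 g1 g2 c0 F G (fun s => Wt lam D s * (fq p.1 s * fq p.2 s))| :=
    Finset.sum_le_sum fun p _ => le_abs_self _
  have hsum : (D : ℝ) ^ 2 * (8 * N1 * N2) / w + (D : ℝ) ^ 2 * (16 * N1 * N2) / w =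
      (D : ℝ) ^ 2 * (24 * N1 * N2) / w := by
    ring
  linarith
-- END variance

-- BEGIN primes_le
/-- N14. If `s > z ≥ D` is prime, `Wt = λ_1² = 1` and `∑ f_q = - ∑ 1/q`. With N13, divide by `M²`,
`M = ∑ 1/q ≥ 2`. -/
theorem primes_le (w z N1 N2 g1 g2 c0 D : ℕ) (hw : 1 ≤ w) (hD : 1 ≤ D) (hDz : D ≤ z)
    (Qs : Finset ℕ)
    (hQ : ∀ q ∈ Qs, q.Prime ∧ w < q ∧ q ≤ z ∧ Nat.Coprime g1 q ∧ Nat.Coprime g2 q)
    (hM : 2 ≤ ∑ q ∈ Qs, 1 / (q : ℝ))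
    (h1 : z ^ 4 ≤ N1) (h2 : z ^ 4 ≤ N2) (F G : ℕ → ℝ) (hF : ∀ x, 0 ≤ F x ∧ F x ≤ 1)
    (hG : ∀ x, 0 ≤ G x ∧ G x ≤ 1) (lam : ℕ → ℝ) (hlam : ∀ d, |lam d| ≤ 1) (hlam1 : lam 1 = 1) :
    SS N1 N2 g1 g2 c0 F G (fun s => if s.Prime ∧ z < s then 1 else 0) ≤
      1 / 2 * SS N1 N2 g1 g2 c0 F G (Wt lam D) + (D : ℝ) ^ 2 * (6 * N1 * N2) / w := by
  set M : ℝ := ∑ q ∈ Qs, 1 / (q : ℝ) with hMdef
  have hM0 : 0 < M := by linarith
  have hv := variance w z N1 N2 g1 g2 c0 D hw Qs hQ h1 h2 F G hF hG lam hlam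
  rw [← hMdef] at hv
  have hW0 : ∀ s, 0 ≤ Wt lam D s := fun s => by unfold Wt; positivity
  have hmono : ∀ κ κ' : ℕ → ℝ, (∀ s, κ s ≤ κ' s) → SS N1 N2 g1 g2 c0 F G κ ≤ SS N1 N2 g1 g2 c0 F G κ' := by
    intro κ κ' h
    unfold SS
    refine Finset.sum_le_sum fun x _ => Finset.sum_le_sum fun y _ => ?_
    exact mul_le_mul_of_nonneg_left (h _) (mul_nonneg (hF x).1 (hG y).1)
  have hsmul : ∀ (c : ℝ) (κ : ℕ → ℝ), SS N1 N2 g1 g2 c0 F G (fun s => c * κ s) = c * SS N1 N2 g1 g2 c0 F G κ := by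
    intro c κ
    unfold SS
    rw [Finset.mul_sum]
    refine Finset.sum_congr rfl fun x _ => ?_
    rw [Finset.mul_sum]
    refine Finset.sum_congr rfl fun y _ => ?_
    ring
  have hSS0 : 0 ≤ SS N1 N2 g1 g2 c0 F G (Wt lam D) := by
    unfold SS
    exact Finset.sum_nonneg fun x _ => Finset.sum_nonneg fun y _ =>
      mul_nonneg (mul_nonneg (hF x).1 (hG y).1) (hW0 _)
  have hpt : ∀ s : ℕ, (if s.Prime ∧ z < s then (1 : ℝ) else 0) ≤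
      1 / M ^ 2 * (Wt lam D s * (∑ q ∈ Qs, fq q s) ^ 2) := by
    intro s
    split_ifs with hs
    · obtain ⟨hsp, hzs⟩ := hs
      have hW : Wt lam D s = 1 := by
        unfold Wt
        have : (Icc 1 D).filter (· ∣ s) = {1} := by
          ext d
          simp only [Finset.mem_filter, Finset.mem_Icc, Finset.mem_singleton]
          constructor
          · rintro ⟨⟨_, h2⟩, h3⟩
            rcases (Nat.dvd_prime hsp).1 h3 with h | h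
            · exact h
            · omega
          · rintro rfl
            exact ⟨⟨le_refl _, hD⟩, one_dvd _⟩
        rw [this, Finset.sum_singleton, hlam1]
        norm_num
      have hf : ∑ q ∈ Qs, fq q s = -M := by
        rw [hMdef, ← Finset.sum_neg_distrib]
        refine Finset.sum_congr rfl fun q hq => ?_
        obtain ⟨hqp, _, hqz, _⟩ := hQ q hq
        have : ¬ q ∣ s := by
          intro h
          rcases (Nat.dvd_prime hsp).1 h with h | h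
          · exact hqp.one_lt.ne' h
          · omega
        unfold fq
        rw [if_neg this]
        ring
      rw [hW, hf]
      have : M ^ 2 ≠ 0 := by positivity
      field_simp
      norm_num
    · have := hW0 s
      positivity
  have h3 := hmono _ _ hpt
  rw [hsmul] at h3
  refine h3.trans ?_
  have h4 : 1 / M ^ 2 * SS N1 N2 g1 g2 c0 F G (fun s => Wt lam D s * (∑ q ∈ Qs, fq q s) ^ 2) ≤
      1 / M ^ 2 * (M * SS N1 N2 g1 g2 c0 F G (Wt lam D) + (D : ℝ) ^ 2 * (24 * N1 * N2) / w) :=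
    mul_le_mul_of_nonneg_left hv (by positivity)
  refine h4.trans ?_
  have h5 : 1 / M ^ 2 * (M * SS N1 N2 g1 g2 c0 F G (Wt lam D)) ≤ 1 / 2 * SS N1 N2 g1 g2 c0 F G (Wt lam D) := by
    have : 1 / M ^ 2 * (M * SS N1 N2 g1 g2 c0 F G (Wt lam D)) = 1 / M * SS N1 N2 g1 g2 c0 F G (Wt lam D) := by
      field_simp
    rw [this]
    exact mul_le_mul_of_nonneg_right (one_div_le_one_div_of_le (by norm_num) hM) hSS0
  have h6 : 1 / M ^ 2 * ((D : ℝ) ^ 2 * (24 * N1 * N2) / w) ≤ (D : ℝ) ^ 2 * (6 * N1 * N2) / w := by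
    have h7 : 1 / M ^ 2 ≤ 1 / 4 := one_div_le_one_div_of_le (by norm_num) (by nlinarith)
    have h8 : (0 : ℝ) ≤ (D : ℝ) ^ 2 * (24 * N1 * N2) / w := by positivity
    calc 1 / M ^ 2 * ((D : ℝ) ^ 2 * (24 * N1 * N2) / w) ≤ 1 / 4 * ((D : ℝ) ^ 2 * (24 * N1 * N2) / w) :=
          mul_le_mul_of_nonneg_right h7 h8
      _ = (D : ℝ) ^ 2 * (6 * N1 * N2) / w := by ring
  rw [mul_add]
  exact add_le_add h5 h6
-- END primes_le

-- BEGIN mass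
private lemma mass_count (l X : ℕ) (hl : 1 ≤ l) :
    |((((range X).filter (fun s => l ∣ s)).card : ℕ) : ℝ) - (X : ℝ) / l| ≤ 1 := by
  have hl0 : (0 : ℝ) < l := by exact_mod_cast hl
  rcases Nat.eq_zero_or_pos X with h | h
  · subst h
    simp
  obtain ⟨Y, rfl⟩ : ∃ Y, X = Y + 1 := ⟨X - 1, by omega⟩
  have hc : ((range (Y + 1)).filter (fun s => l ∣ s)).card = Y / l + 1 := by
    have h0 : (range (Y + 1)).filter (fun s => l ∣ s) =
        insert 0 ((Ioc 0 Y).filter (fun s => l ∣ s)) := by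
      ext s
      simp only [mem_filter, mem_range, mem_insert, mem_Ioc]
      constructor
      · rintro ⟨h1, h2⟩
        rcases Nat.eq_zero_or_pos s with h3 | h3
        · left
          exact h3
        · right
          exact ⟨⟨h3, by omega⟩, h2⟩
      · rintro (h1 | ⟨⟨h1, h2⟩, h3⟩)
        · subst h1
          exact ⟨by omega, dvd_zero _⟩
        · exact ⟨by omega, h3⟩
    rw [h0, card_insert_of_notMem (by simp), Nat.Ioc_filter_dvd_card_eq_div]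
  rw [hc]
  have h1 : Y / l * l ≤ Y := Nat.div_mul_le_self Y l
  have h2 : Y < Y / l * l + l := Nat.lt_div_mul_add (a := Y) (by omega : 0 < l)
  have h1' : ((Y / l : ℕ) : ℝ) * l ≤ Y := by exact_mod_cast h1
  have h2' : (Y : ℝ) + 1 ≤ ((Y / l : ℕ) : ℝ) * l + l := by exact_mod_cast h2
  have e1 : ((Y / l + 1 : ℕ) : ℝ) = ((Y / l : ℕ) : ℝ) + 1 := by push_cast; ring
  have e2 : ((Y + 1 : ℕ) : ℝ) = (Y : ℝ) + 1 := by push_cast; ring
  rw [e1, e2, abs_le]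
  constructor
  · have : ((Y : ℝ) + 1) / l ≤ ((Y / l : ℕ) : ℝ) + 1 := by
      rw [div_le_iff₀ hl0]
      linarith
    linarith
  · have : ((Y / l : ℕ) : ℝ) ≤ ((Y : ℝ) + 1) / l := by
      rw [le_div_iff₀ hl0]
      linarith
    linarith

/-- N15. Total mass: `∑_{s < X} 1[l | s] = X / l + O(1)`. -/
theorem mass (X D : ℕ) (hD : 2 ≤ D) (lam : ℕ → ℝ) (hlam : ∀ d, |lam d| ≤ 1)
    (hq : ∑ d ∈ Icc 1 D, ∑ e ∈ Icc 1 D, lam d * lam e / (Nat.lcm d e : ℕ) ≤ 1 / Real.log D) :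
    ∑ s ∈ range X, Wt lam D s ≤ X / Real.log D + (D : ℝ) ^ 2 := by
  have hlam2 : ∀ d e, |lam d * lam e| ≤ 1 := by
    intro d e
    rw [abs_mul]
    exact mul_le_one₀ (hlam d) (abs_nonneg _) (hlam e)
  have h1 : ∀ s, Wt lam D s =
      ∑ d ∈ Icc 1 D, ∑ e ∈ Icc 1 D, (if Nat.lcm d e ∣ s then lam d * lam e else 0) := by
    intro s
    unfold Wt
    rw [sq, sum_filter, sum_mul_sum]
    refine sum_congr rfl fun d _ => sum_congr rfl fun e _ => ?_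
    by_cases hd : d ∣ s <;> by_cases he : e ∣ s <;> simp [Nat.lcm_dvd_iff, hd, he]
  have h2 : ∑ s ∈ range X, Wt lam D s = ∑ d ∈ Icc 1 D, ∑ e ∈ Icc 1 D, lam d * lam e *
      ((((range X).filter (fun s => Nat.lcm d e ∣ s)).card : ℕ) : ℝ) := by
    simp_rw [h1]
    rw [sum_comm]
    refine sum_congr rfl fun d _ => ?_
    rw [sum_comm]
    refine sum_congr rfl fun e _ => ?_
    rw [← sum_filter, sum_const, nsmul_eq_mul, mul_comm]
  have h3 : ∀ d ∈ Icc 1 D, ∀ e ∈ Icc 1 D, lam d * lam e *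
      ((((range X).filter (fun s => Nat.lcm d e ∣ s)).card : ℕ) : ℝ) ≤
      X * (lam d * lam e / (Nat.lcm d e : ℕ)) + 1 := by
    intro d hd e he
    rw [mem_Icc] at hd he
    have hl : 1 ≤ Nat.lcm d e := Nat.lcm_pos (by omega) (by omega)
    have hcnt := mass_count (Nat.lcm d e) X hl
    have h4 : lam d * lam e * (((((range X).filter (fun s => Nat.lcm d e ∣ s)).card : ℕ) : ℝ) -
        (X : ℝ) / (Nat.lcm d e : ℕ)) ≤ 1 := by
      refine (le_abs_self _).trans ?_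
      rw [abs_mul]
      exact mul_le_one₀ (hlam2 d e) (abs_nonneg _) hcnt
    have h5 : (X : ℝ) * (lam d * lam e / (Nat.lcm d e : ℕ)) =
        lam d * lam e * ((X : ℝ) / (Nat.lcm d e : ℕ)) := by ring
    rw [h5]
    rw [mul_sub] at h4
    linarith
  rw [h2]
  refine (sum_le_sum fun d hd => sum_le_sum fun e he => h3 d hd e he).trans ?_
  have h6 : ∑ d ∈ Icc 1 D, ∑ e ∈ Icc 1 D, ((X : ℝ) * (lam d * lam e / (Nat.lcm d e : ℕ)) + 1) =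
      X * ∑ d ∈ Icc 1 D, ∑ e ∈ Icc 1 D, lam d * lam e / (Nat.lcm d e : ℕ) + (D : ℝ) ^ 2 := by
    simp only [sum_add_distrib, sum_const, Nat.card_Icc, mul_sum, nsmul_eq_mul,
      Nat.add_sub_cancel]
    ring
  rw [h6]
  have h7 := mul_le_mul_of_nonneg_left hq (Nat.cast_nonneg (α := ℝ) X)
  have h8 : (X : ℝ) * (1 / Real.log D) = X / Real.log D := by ring
  linarith
-- END mass

-- BEGIN many_q
/-- N16. (`Mrd.mertens` with `x = 2 ^ (4 v)`, `y = 2 ^ (4 A v)`: `log (log y / log x) = log A`.) -/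
theorem many_q : ∃ A v0 : ℕ, 1 ≤ A ∧ ∀ v ≥ v0,
    2 ≤ ∑ q ∈ (Ioc (2 ^ (4 * v)) (2 ^ (4 * A * v))).filter Nat.Prime, 1 / (q : ℝ) := by
  obtain ⟨C, hC, H⟩ := Pool.Agent.Mrd.mertens
  refine ⟨21, ⌈C⌉₊ + 1, by norm_num, fun v hv => ?_⟩
  have hv1 : C ≤ (v : ℝ) := (Nat.le_ceil C).trans (by exact_mod_cast (Nat.le_succ _).trans hv)
  have hv0 : 1 ≤ v := (Nat.succ_le_succ (Nat.zero_le _)).trans hv
  have hvR : (1 : ℝ) ≤ v := by exact_mod_cast hv0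
  have h := H ((2 ^ (4 * v) : ℕ) : ℝ) ((2 ^ (4 * 21 * v) : ℕ) : ℝ)
    (by
      have : 2 ^ 1 ≤ 2 ^ (4 * v) := Nat.pow_le_pow_right (by norm_num) (by omega)
      exact_mod_cast this)
    (by
      have : 2 ^ (4 * v) ≤ 2 ^ (4 * 21 * v) := Nat.pow_le_pow_right (by norm_num) (by nlinarith)
      exact_mod_cast this)
  have hl2 : 0.6931471803 < Real.log 2 := Real.log_two_gt_d9
  have e1 : Real.log ((2 ^ (4 * v) : ℕ) : ℝ) = 4 * v * Real.log 2 := by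
    push_cast
    rw [Real.log_pow]
    push_cast
    ring
  have e2 : Real.log ((2 ^ (4 * 21 * v) : ℕ) : ℝ) = 21 * (4 * v * Real.log 2) := by
    push_cast
    rw [Real.log_pow]
    push_cast
    ring
  have hpos : 0 < 4 * (v : ℝ) * Real.log 2 := by positivity
  rw [e1, e2, mul_div_assoc, div_self hpos.ne', mul_one] at h
  have h21 : (3 : ℝ) ≤ Real.log 21 := by
    rw [Real.le_log_iff_exp_le (by norm_num)]
    have h1 : Real.exp 1 < 2.7182818286 := Real.exp_one_lt_d9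
    have h3 : Real.exp 3 = Real.exp 1 ^ 3 := by
      rw [← Real.exp_nat_mul]
      norm_num
    rw [h3]
    calc Real.exp 1 ^ 3 ≤ 2.7182818286 ^ 3 := by
          exact pow_le_pow_left₀ (Real.exp_pos 1).le h1.le 3
      _ ≤ 21 := by norm_num
  have hc : C / (4 * (v : ℝ) * Real.log 2) ≤ 1 := by
    rw [div_le_one hpos]
    nlinarith
  have h' := (abs_le.1 h).1
  have e3 : Pool.Agent.Mrd.LP (Pool.Agent.Mrd.pr ((2 ^ (4 * v) : ℕ) : ℝ) ((2 ^ (4 * 21 * v) : ℕ) : ℝ)) =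
      ∑ q ∈ (Ioc (2 ^ (4 * v)) (2 ^ (4 * 21 * v))).filter Nat.Prime, 1 / (q : ℝ) := by
    unfold Pool.Agent.Mrd.LP Pool.Agent.Mrd.pr
    rw [Nat.floor_natCast, Nat.floor_natCast]
  rw [e3] at h'
  linarith
-- END many_q

-- BEGIN sieve_main
/-- N17. **The sieve inequality.** `D = 2 ^ v`, `w = 2 ^ (4 v)`, `z = 2 ^ (4 A v)`. -/
theorem sieve_main : ∃ A v0 : ℕ, 1 ≤ A ∧ 1 ≤ v0 ∧ ∀ v ≥ v0, ∃ W : ℕ → ℝ, (∀ s, 0 ≤ W s) ∧
    (∀ p : ℕ, p.Prime → 2 ^ v < p → W p = 1) ∧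
    (∀ X : ℕ, ∑ s ∈ range X, W s ≤ 2 * X / v + 2 ^ (2 * v)) ∧
    ∀ (N1 N2 g1 g2 c0 : ℕ) (F G : ℕ → ℝ), 2 ^ (16 * A * v) ≤ N1 → 2 ^ (16 * A * v) ≤ N2 →
      (∀ q : ℕ, q.Prime → 2 < q → Nat.Coprime g1 q ∧ Nat.Coprime g2 q) →
      (∀ x, 0 ≤ F x ∧ F x ≤ 1) → (∀ x, 0 ≤ G x ∧ G x ≤ 1) →
      SS N1 N2 g1 g2 c0 F G (fun s => if s.Prime ∧ 2 ^ (4 * A * v) < s then 1 else 0) ≤
        1 / 2 * SS N1 N2 g1 g2 c0 F G W + 6 * N1 * N2 / 2 ^ (2 * v) := by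
  obtain ⟨A, v0, hA, hv0⟩ := many_q
  refine ⟨A, max v0 1, hA, le_max_right _ _, fun v hv => ?_⟩
  have hv1 : 1 ≤ v := le_trans (le_max_right _ _) hv
  have hvv : v0 ≤ v := le_trans (le_max_left _ _) hv
  have hD2 : 2 ≤ 2 ^ v := by
    calc 2 = 2 ^ 1 := by norm_num
      _ ≤ 2 ^ v := Nat.pow_le_pow_right (by norm_num) hv1
  obtain ⟨lam, hl1, hlb, -, -, hlq⟩ := Pool.Agent.Mrd.selberg (2 ^ v) hD2
  refine ⟨Wt lam (2 ^ v), fun s => sq_nonneg _, ?_, ?_, ?_⟩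
  · intro p hp hpv
    unfold Wt
    have hf : (Icc 1 (2 ^ v)).filter (· ∣ p) = {1} := by
      ext d
      simp only [mem_filter, mem_Icc, mem_singleton]
      constructor
      · rintro ⟨⟨h1, h2⟩, h3⟩
        rcases (Nat.dvd_prime hp).1 h3 with h4 | h4
        · exact h4
        · omega
      · rintro rfl
        exact ⟨⟨le_rfl, by omega⟩, one_dvd _⟩
    rw [hf, sum_singleton, hl1]
    norm_num
  · intro X
    have h := mass X (2 ^ v) hD2 lam hlb hlq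
    have e1 : Real.log ((2 ^ v : ℕ) : ℝ) = v * Real.log 2 := by
      push_cast
      rw [Real.log_pow]
    have e2 : (((2 ^ v : ℕ) : ℝ)) ^ 2 = 2 ^ (2 * v) := by
      push_cast
      rw [← pow_mul, mul_comm]
    rw [e1, e2] at h
    have hl2 : (1 / 2 : ℝ) < Real.log 2 := by
      have := Real.log_two_gt_d9
      linarith
    have hvpos : (0 : ℝ) < v := by exact_mod_cast hv1
    have e3 : (X : ℝ) / (v * Real.log 2) ≤ 2 * X / v := by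
      rw [div_le_div_iff₀ (by positivity) hvpos]
      have hX : (0 : ℝ) ≤ (X : ℝ) * v := by positivity
      nlinarith
    linarith
  · intro N1 N2 g1 g2 c0 F G hN1 hN2 hg hF hG
    have hz : 2 ^ (16 * A * v) = (2 ^ (4 * A * v)) ^ 4 := by
      rw [← pow_mul]
      congr 1
      ring
    rw [hz] at hN1 hN2
    have h4A : v ≤ 4 * A * v := by nlinarith
    have h := primes_le (2 ^ (4 * v)) (2 ^ (4 * A * v)) N1 N2 g1 g2 c0 (2 ^ v)
      (Nat.one_le_two_pow) (by omega) (Nat.pow_le_pow_right (by norm_num) h4A)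
      ((Ioc (2 ^ (4 * v)) (2 ^ (4 * A * v))).filter Nat.Prime)
      (by
        intro q hq
        rw [mem_filter, mem_Ioc] at hq
        obtain ⟨⟨hq1, hq2⟩, hq3⟩ := hq
        have h2q : 2 < q := by
          have : 2 ≤ 2 ^ (4 * v) := by
            calc 2 = 2 ^ 1 := by norm_num
              _ ≤ 2 ^ (4 * v) := Nat.pow_le_pow_right (by norm_num) (by omega)
          omega
        obtain ⟨hg1, hg2⟩ := hg q hq3 h2q
        exact ⟨hq3, hq1, hq2, hg1, hg2⟩)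
      (hv0 v hvv) hN1 hN2 F G hF hG lam hlb hl1
    have e1 : (((2 ^ v : ℕ) : ℝ)) ^ 2 * (6 * N1 * N2) / ((2 ^ (4 * v) : ℕ) : ℝ) =
        6 * N1 * N2 / 2 ^ (2 * v) := by
      push_cast
      rw [div_eq_div_iff (by positivity) (by positivity)]
      have : (2 : ℝ) ^ (4 * v) = (2 ^ v) ^ 2 * 2 ^ (2 * v) := by
        rw [← pow_mul, ← pow_add]
        congr 1
        ring
      rw [this]
      ring
    rw [e1] at h
    exact h
-- END sieve_main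

end Pool.Agent.PrbM
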