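import Pool.Agent.PrbM.Sim
import Pool.Agent.PrbM.Ntl
import Pool.Agent.MP_5082c5_lc.Enc
import Pool.Agent.MP_5082c5_lc.Count
import Pool.Agent.PrmH.Rect

/-!
# PrbM WRD: words and numbers, the assembly
-/

set_option autoImplicit false

namespace Pool.Agent.PrbM

open Finset

open Pool.Agent.MP_5082c5_lc (val enc np PRIMES base)

/-- the word with `n` digits and value `s` -/
def wd : ℕ → ℕ → List Bool
  | 0, _ => []
  | n + 1, s => wd n (s / 2) ++ [decide (s % 2 = 1)]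

-- BEGIN wd_length
theorem wd_length (n s : ℕ) : (wd n s).length = n := by
  induction n generalizing s with
  | zero => rfl
  | succ n ih => rw [wd, List.length_append, ih]; rfl
-- END wd_length

-- BEGIN val_wd
/-- W1. -/
theorem val_wd (n s : ℕ) (hs : s < 2 ^ n) : val (wd n s) = s := by
  induction n generalizing s with
  | zero =>
    have h0 : s = 0 := by simpa using hs
    subst h0
    rfl
  | succ n ih =>
    have h1 : s / 2 < 2 ^ n := by
      rw [pow_succ] at hs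
      omega
    rw [wd, Pool.Agent.MP_5082c5_lc.val_append, ih _ h1]
    have h2 : val [decide (s % 2 = 1)] = s % 2 := by
      rcases Nat.mod_two_eq_zero_or_one s with h | h
      · rw [h]; rfl
      · rw [h]; rfl
    rw [h2]
    simp only [List.length_singleton, pow_one]
    omega
-- END val_wd

-- BEGIN wd_append
/-- W2. (`PrmH.val_inj`.) -/
theorem wd_append (j b x y : ℕ) (hx : x < 2 ^ j) (hy : y < 2 ^ b) :
    wd (j + b) (2 ^ b * x + y) = wd j x ++ wd b y := by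
  have h1 : 2 ^ b * x + y < 2 ^ (j + b) := by
    have h2 : 2 ^ b * (x + 1) ≤ 2 ^ b * 2 ^ j := Nat.mul_le_mul_left _ hx
    rw [pow_add, mul_comm (2 ^ j)]
    rw [mul_add] at h2
    omega
  apply Pool.Agent.PrmH.val_inj
  · rw [wd_length, List.length_append, wd_length, wd_length]
  · rw [val_wd _ _ h1, Pool.Agent.MP_5082c5_lc.val_append, val_wd _ _ hx, val_wd _ _ hy, wd_length,
      mul_comm]
-- END wd_append

-- BEGIN wd_primes
/-- W3. (`s ∈ np n`: `wd n s = enc s` by `val_inj` and `enc_length`. Conversely if `wd n s = enc p`,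
`p` prime, then `p = s` and `2 ^ (n - 1) ≤ s` since `enc s` has length `n`.) -/
theorem wd_primes (n s : ℕ) (hn : 1 ≤ n) (hs : s < 2 ^ n) : wd n s ∈ PRIMES ↔ s ∈ np n := by
  have hv := val_wd n s hs
  have hl := wd_length n s
  unfold Pool.Agent.MP_5082c5_lc.np
  rw [Finset.mem_filter, Finset.mem_Ico]
  constructor
  · intro h
    have h1 := Pool.Agent.MP_5082c5_lc.prime_of_mem h
    have h2 := Pool.Agent.PrmH.val_ge _ h
    rw [hv, hl] at h2
    rw [hv] at h1
    exact ⟨⟨h2, hs⟩, h1⟩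
  · rintro ⟨⟨h1, h2⟩, hp⟩
    have h3 := Pool.Agent.MP_5082c5_lc.enc_length hn h1 h2
    have h4 : wd n s = enc s := by
      apply Pool.Agent.PrmH.val_inj
      · rw [hl, h3]
      · rw [hv, Pool.Agent.MP_5082c5_lc.val_enc]
    rw [h4]
    exact Pool.Agent.MP_5082c5_lc.enc_mem_primes hp
-- END wd_primes

-- BEGIN np_ge
/-- W3a. (`np_lower` of `MP_5082c5_lc/Count.lean`; `PrmH/TM.lean` has it as a private lemma
`t6_large`, which can be copied.) -/
theorem np_ge : ∃ n₀ : ℕ, ∀ n ≥ n₀, (2 : ℝ) ^ n ≤ 6 * n * (np n).card := by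
  have h1 : Filter.Tendsto (fun n : ℕ => (n : ℝ) ^ 1 / ((2 : ℝ) ^ ((1 : ℝ) / 2)) ^ n)
      Filter.atTop (nhds 0) := by
    apply tendsto_pow_const_div_const_pow_of_one_lt
    exact Real.one_lt_rpow (by norm_num) (by norm_num)
  have h2 := h1.eventually (gt_mem_nhds (show (0 : ℝ) < 1 / 12 by norm_num))
  obtain ⟨m, hm⟩ := Filter.eventually_atTop.1 h2
  refine ⟨max m 4, fun n hn => ?_⟩
  have hn4 : 4 ≤ n := le_trans (le_max_right _ _) hn
  have h3 := hm n (le_trans (le_max_left _ _) hn)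
  have hn1 : (4 : ℝ) ≤ n := by exact_mod_cast hn4
  have hr : ((2 : ℝ) ^ ((1 : ℝ) / 2)) ^ n = (2 : ℝ) ^ ((n : ℝ) / 2) := by
    rw [← Real.rpow_natCast, ← Real.rpow_mul (by norm_num)]
    congr 1; ring
  rw [hr, pow_one, div_lt_iff₀ (by positivity)] at h3
  have h4 := Pool.Agent.MP_5082c5_lc.np_lower n hn4
  have e1 : (2 : ℝ) ^ n = (2 : ℝ) ^ ((n : ℝ) / 2) * (2 : ℝ) ^ ((n : ℝ) / 2) := by
    rw [← Real.rpow_add (by norm_num), ← Real.rpow_natCast]
    congr 1; ring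
  set Y : ℝ := (2 : ℝ) ^ ((n : ℝ) / 2) with hY
  have hY1 : 1 ≤ Y := Real.one_le_rpow (by norm_num) (by positivity)
  have h5 : (n : ℝ) * (Y + 1) ≤ n * (2 * Y) := mul_le_mul_of_nonneg_left (by linarith) (by positivity)
  have h6 : (12 * n : ℝ) * Y ≤ Y * Y := mul_le_mul_of_nonneg_right (by linarith) (by linarith)
  rw [e1] at h4 ⊢
  nlinarith
-- END np_ge

-- BEGIN sum_split
/-- W4. One pair `(x, y) ↦ 2 ^ b x + y`. -/
theorem sum_split (j b : ℕ) (f : ℕ → ℝ) :
    ∑ s ∈ range (2 ^ (j + b)), f s = ∑ x ∈ range (2 ^ j), ∑ y ∈ range (2 ^ b), f (2 ^ b * x + y) := by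
  rw [pow_add]
  generalize 2 ^ j = m
  generalize 2 ^ b = k
  induction m with
  | zero => simp
  | succ m ih =>
    rw [Finset.sum_range_succ, ← ih, Nat.succ_mul, Finset.sum_range_add]
    congr 1
    apply Finset.sum_congr rfl
    intro y _
    rw [mul_comm k m]
-- END sum_split

-- BEGIN sieve_dec
/-- W5. The sieve inequality for a decomposed function `p s = ∑_i F_i (x) G_i (y)` (`i < K`,
`s = 2 ^ b x + y`), `SS` with `g₁ = 2 ^ b`, `g₂ = 1`, `c₀ = 0`, for each `i`; W4. -/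
theorem sieve_dec (v A : ℕ) (W : ℕ → ℝ)
    (hW : ∀ (N1 N2 g1 g2 c0 : ℕ) (F G : ℕ → ℝ), 2 ^ (16 * A * v) ≤ N1 → 2 ^ (16 * A * v) ≤ N2 →
      (∀ q : ℕ, q.Prime → 2 < q → Nat.Coprime g1 q ∧ Nat.Coprime g2 q) →
      (∀ x, 0 ≤ F x ∧ F x ≤ 1) → (∀ x, 0 ≤ G x ∧ G x ≤ 1) →
      SS N1 N2 g1 g2 c0 F G (fun s => if s.Prime ∧ 2 ^ (4 * A * v) < s then 1 else 0) ≤
        1 / 2 * SS N1 N2 g1 g2 c0 F G W + 6 * N1 * N2 / 2 ^ (2 * v))
    (j b K : ℕ) (hj : 16 * A * v ≤ j) (hb : 16 * A * v ≤ b) (p : ℕ → ℝ)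
    (hp : Dec K (fun (u : {u : List Bool // u.length = j}) (v : {v : List Bool // v.length = b}) =>
      p (val (u.1 ++ v.1)))) :
    ∑ s ∈ (range (2 ^ (j + b))).filter (fun s => s.Prime ∧ 2 ^ (4 * A * v) < s), p s ≤
      1 / 2 * ∑ s ∈ range (2 ^ (j + b)), W s * p s + K * (6 * 2 ^ (j + b) / 2 ^ (2 * v)) := by
  obtain ⟨F, G, hF, hG, hFG⟩ := hp
  have hcop : ∀ q : ℕ, q.Prime → 2 < q → Nat.Coprime (2 ^ b) q ∧ Nat.Coprime 1 q := by
    intro q hq h2
    refine ⟨?_, Nat.coprime_one_left q⟩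
    exact Nat.Coprime.pow_left b ((Nat.coprime_primes Nat.prime_two hq).mpr (by omega))
  have hp2 : ∀ x < 2 ^ j, ∀ y < 2 ^ b, p (2 ^ b * x + y) =
      ∑ i, F i ⟨wd j x, wd_length j x⟩ * G i ⟨wd b y, wd_length b y⟩ := by
    intro x hx y hy
    have h1 : 2 ^ b * x + y < 2 ^ (j + b) := by
      have h2 : 2 ^ b * (x + 1) ≤ 2 ^ b * 2 ^ j := Nat.mul_le_mul_left _ hx
      rw [pow_add, mul_comm (2 ^ j)]
      rw [mul_add] at h2
      omega
    rw [← hFG ⟨wd j x, wd_length j x⟩ ⟨wd b y, wd_length b y⟩]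
    show p (2 ^ b * x + y) = p (val (wd j x ++ wd b y))
    rw [← wd_append j b x y hx hy, val_wd _ _ h1]
  have key : ∀ κ : ℕ → ℝ, ∑ s ∈ range (2 ^ (j + b)), κ s * p s =
      ∑ i, SS (2 ^ j) (2 ^ b) (2 ^ b) 1 0 (fun x => F i ⟨wd j x, wd_length j x⟩)
        (fun y => G i ⟨wd b y, wd_length b y⟩) κ := by
    intro κ
    rw [sum_split]
    unfold SS
    symm
    rw [Finset.sum_comm]
    refine Finset.sum_congr rfl fun x hx => ?_
    rw [Finset.sum_comm]
    refine Finset.sum_congr rfl fun y hy => ?_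
    rw [hp2 x (Finset.mem_range.mp hx) y (Finset.mem_range.mp hy), Finset.mul_sum]
    refine Finset.sum_congr rfl fun i _ => ?_
    rw [one_mul, add_zero]
    ring
  have h1 : ∑ s ∈ (range (2 ^ (j + b))).filter (fun s => s.Prime ∧ 2 ^ (4 * A * v) < s), p s =
      ∑ s ∈ range (2 ^ (j + b)), (if s.Prime ∧ 2 ^ (4 * A * v) < s then (1 : ℝ) else 0) * p s := by
    rw [Finset.sum_filter]
    refine Finset.sum_congr rfl fun s _ => ?_
    split_ifs <;> simp
  have h2 : ∀ i : Fin K, SS (2 ^ j) (2 ^ b) (2 ^ b) 1 0 (fun x => F i ⟨wd j x, wd_length j x⟩)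
        (fun y => G i ⟨wd b y, wd_length b y⟩)
        (fun s => if s.Prime ∧ 2 ^ (4 * A * v) < s then 1 else 0) ≤
      1 / 2 * SS (2 ^ j) (2 ^ b) (2 ^ b) 1 0 (fun x => F i ⟨wd j x, wd_length j x⟩)
        (fun y => G i ⟨wd b y, wd_length b y⟩) W + 6 * 2 ^ (j + b) / 2 ^ (2 * v) := by
    intro i
    have h3 := hW (2 ^ j) (2 ^ b) (2 ^ b) 1 0 (fun x => F i ⟨wd j x, wd_length j x⟩)
      (fun y => G i ⟨wd b y, wd_length b y⟩) (Nat.pow_le_pow_right (by norm_num) hj)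
      (Nat.pow_le_pow_right (by norm_num) hb) hcop (fun x => hF i _) (fun y => hG i _)
    refine h3.trans (le_of_eq ?_)
    push_cast
    rw [pow_add]
    ring
  rw [h1, key, key]
  refine (Finset.sum_le_sum fun i _ => h2 i).trans (le_of_eq ?_)
  rw [Finset.sum_add_distrib, ← Finset.mul_sum, Finset.sum_const, Finset.card_univ,
    Fintype.card_fin, nsmul_eq_mul]
-- END sieve_dec

-- BEGIN one_boundary
/-- W6. For one boundary `j`, `n = j + b`: with `p s = pv (wd n s) ^ L` in W5 (D4, S9);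
`W = 1` on the primes; `p s ≤ β ^ L` if `wd n s` is not in `PRIMES`; the sum over `np n` appears
with the factor 1/2 on the right and is absorbed. -/
theorem one_boundary (M : PTM) (β : ℝ) (hβ : 0 ≤ β)
    (v A : ℕ) (hA : 1 ≤ A) (hv : 1 ≤ v) (W : ℕ → ℝ) (hW0 : ∀ s, 0 ≤ W s)
    (hW1 : ∀ p : ℕ, p.Prime → 2 ^ v < p → W p = 1)
    (hWm : ∀ X : ℕ, ∑ s ∈ range X, W s ≤ 2 * X / v + 2 ^ (2 * v))
    (hW : ∀ (N1 N2 g1 g2 c0 : ℕ) (F G : ℕ → ℝ), 2 ^ (16 * A * v) ≤ N1 → 2 ^ (16 * A * v) ≤ N2 →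
      (∀ q : ℕ, q.Prime → 2 < q → Nat.Coprime g1 q ∧ Nat.Coprime g2 q) →
      (∀ x, 0 ≤ F x ∧ F x ≤ 1) → (∀ x, 0 ≤ G x ∧ G x ≤ 1) →
      SS N1 N2 g1 g2 c0 F G (fun s => if s.Prime ∧ 2 ^ (4 * A * v) < s then 1 else 0) ≤
        1 / 2 * SS N1 N2 g1 g2 c0 F G W + 6 * N1 * N2 / 2 ^ (2 * v))
    (S t m L j b n : ℕ) (hn : n = j + b) (hj : 16 * A * v ≤ j) (hb : 16 * A * v ≤ b)
    (h0 : ∀ w, w ∉ PRIMES → w.length = n → accProb M w ≤ β) :
    ∑ s ∈ np n, pv M S t m j (wd n s) ^ L ≤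
      β ^ L * (2 * 2 ^ n / v + 2 ^ (2 * v)) +
        12 * (base (toTM M) : ℝ) ^ ((S + 1) * m * L) * 2 ^ n / 2 ^ (2 * v) := by
  classical
  subst hn
  set n := j + b with hn
  set p : ℕ → ℝ := fun s => pv M S t m j (wd n s) ^ L with hp
  have hp0 : ∀ s, 0 ≤ p s := fun s => pow_nonneg (pv_bdd M S t m j _).1 L
  have hdec : Dec (base (toTM M) ^ ((S + 1) * m * L))
      (fun (u : {u : List Bool // u.length = j}) (v : {v : List Bool // v.length = b}) =>
        p (val (u.1 ++ v.1))) := by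
    have h1 := (dec_pv M S t m j b).pow L
    rw [← pow_mul, ← pow_mul, ← mul_assoc] at h1
    have h2 : (fun (u : {u : List Bool // u.length = j}) (v : {v : List Bool // v.length = b}) =>
        p (val (u.1 ++ v.1))) = fun u v => pv M S t m j (u.1 ++ v.1) ^ L := by
      funext u v
      have h3 : (u.1 ++ v.1).length = n := by rw [List.length_append, u.2, v.2]
      have h4 : wd n (val (u.1 ++ v.1)) = u.1 ++ v.1 := by
        apply Pool.Agent.PrmH.val_inj
        · rw [wd_length, h3]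
        · apply val_wd
          have := Pool.Agent.MP_5082c5_lc.val_lt (u.1 ++ v.1)
          rwa [h3] at this
      simp only [hp, h4]
    rw [h2]
    exact h1
  have hs := sieve_dec v A W hW j b _ hj hb p hdec
  have hAv : 1 ≤ A * v := Nat.mul_pos hA hv
  have hnn : 4 * A * v < n - 1 := by
    have e1 : 16 * A * v = 16 * (A * v) := by ring
    have e2 : 4 * A * v = 4 * (A * v) := by ring
    omega
  have hvn : v ≤ 4 * A * v := by nlinarith
  have hsub : np n ⊆ (range (2 ^ n)).filter (fun s => s.Prime ∧ 2 ^ (4 * A * v) < s) := by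
    intro s hs
    rw [np, mem_filter, mem_Ico] at hs
    rw [mem_filter, mem_range]
    refine ⟨hs.1.2, hs.2, lt_of_lt_of_le ?_ hs.1.1⟩
    exact Nat.pow_lt_pow_right (by norm_num) hnn
  have hX : ∑ s ∈ np n, p s ≤
      ∑ s ∈ (range (2 ^ n)).filter (fun s => s.Prime ∧ 2 ^ (4 * A * v) < s), p s :=
    Finset.sum_le_sum_of_subset_of_nonneg hsub fun s _ _ => hp0 s
  have hnr : np n ⊆ range (2 ^ n) := fun s hs => by
    rw [np, mem_filter, mem_Ico] at hs
    exact mem_range.2 hs.1.2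
  have hWp : ∑ s ∈ range (2 ^ n), W s * p s ≤
      ∑ s ∈ np n, p s + β ^ L * ∑ s ∈ range (2 ^ n), W s := by
    rw [← Finset.sum_sdiff hnr, add_comm, Finset.mul_sum]
    apply add_le_add
    · apply le_of_eq
      refine Finset.sum_congr rfl fun s hs => ?_
      have h1 := hsub hs
      rw [mem_filter] at h1
      rw [hW1 s h1.2.1 (lt_of_le_of_lt (Nat.pow_le_pow_right (by norm_num) hvn) h1.2.2), one_mul]
    · calc ∑ s ∈ range (2 ^ n) \ np n, W s * p s
          ≤ ∑ s ∈ range (2 ^ n) \ np n, β ^ L * W s := by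
            refine Finset.sum_le_sum fun s hs => ?_
            rw [mem_sdiff, mem_range] at hs
            have h1 : wd n s ∉ PRIMES := fun h =>
              hs.2 ((wd_primes n s (by omega) hs.1).1 h)
            have h2 : p s ≤ β ^ L :=
              pow_le_pow_left₀ (pv_bdd M S t m j _).1
                ((pv_le M S t m j _).trans (h0 _ h1 (wd_length n s))) L
            rw [mul_comm]
            exact mul_le_mul_of_nonneg_right h2 (hW0 s)
        _ ≤ ∑ s ∈ range (2 ^ n), β ^ L * W s :=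
            Finset.sum_le_sum_of_subset_of_nonneg Finset.sdiff_subset fun s _ _ =>
              mul_nonneg (pow_nonneg hβ L) (hW0 s)
  have hmass := hWm (2 ^ n)
  push_cast at hmass
  have hβL : 0 ≤ β ^ L := pow_nonneg hβ L
  have hm2 := mul_le_mul_of_nonneg_left hmass hβL
  have hK : (((base (toTM M) ^ ((S + 1) * m * L) : ℕ) : ℝ)) =
      (base (toTM M) : ℝ) ^ ((S + 1) * m * L) := by push_cast; ring
  rw [hK] at hs
  have e3 : 12 * (base (toTM M) : ℝ) ^ ((S + 1) * m * L) * 2 ^ n / 2 ^ (2 * v) =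
      2 * ((base (toTM M) : ℝ) ^ ((S + 1) * m * L) * (6 * 2 ^ n / 2 ^ (2 * v))) := by ring
  rw [e3]
  show ∑ s ∈ np n, p s ≤ _
  have h5 := hX.trans hs
  linarith
-- END one_boundary

end Pool.Agent.PrbM
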