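import Pool.Agent.PrbM.Acc
import Pool.Agent.PrbM.Wrd

/-!
# PrbM FIN: the main theorem
-/

set_option autoImplicit false

namespace Pool.Agent.PrbM

open Finset

open Pool.Agent.MP_5082c5_lc (val enc np PRIMES base)

/-- Averaging over the boundaries. For `s ∈ np n` with acceptance probability `P`: the boundaries
`j ∈ J` whose expected number of crossings on the event of acceptance is `> (m + 1) (δ / 4) P` are at
most half of `J`; for the others `pv ≥ (1 - δ / 2) P`. -/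
theorem good_boundary (M : PTM) (n S t m L : ℕ) (D α δ : ℝ) (hα : 0 < α) (hδ : 0 < δ) (hδ1 : δ ≤ 1)
    (hα1 : ∀ s ∈ np n, α ≤ accProb M (wd n s))
    (hS : ∀ s ∈ np n, ∀ r, (∃ t, M.halt (run M (wd n s) r t).q = some true) →
      (visited M (wd n s) r).encard ≤ S)
    (hD : ∀ s ∈ np n, accMoves M (wd n s) t ≤ D * accProb M (wd n s))
    (ha : ∀ s ∈ np n, (1 - δ / 4) * accProb M (wd n s) ≤ accWithin M (wd n s) t)
    (J : Finset ℕ) (hJ : J.Nonempty) (hm : 2 * D ≤ (m + 1) * (δ / 4) * J.card) :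
    ∃ j ∈ J, ((1 - δ / 2) * α) ^ L * (np n).card / 2 ≤
      ∑ s ∈ np n, pv M S t m j (wd n s) ^ L := by
  classical
  by_contra hcon
  push Not at hcon
  have hm0 : (0 : ℝ) < m + 1 := by positivity
  have haγ : 0 ≤ (1 - δ / 2) * α := mul_nonneg (by linarith) hα.le
  -- every prime word
  have hone : ∀ s ∈ np n, ((1 - δ / 2) * α) ^ L * J.card / 2 ≤
      ∑ j ∈ J, pv M S t m j (wd n s) ^ L := by
    intro s hs
    obtain ⟨P, hP⟩ : ∃ P, P = accProb M (wd n s) := ⟨_, rfl⟩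
    have hPα : α ≤ P := hP ▸ hα1 s hs
    have hP0 : 0 < P := lt_of_lt_of_le hα hPα
    set E : ℕ → ℝ := fun j => exa (accS M) (gcr M j) (step M (wd n s)) t (initConf M) with hE
    have hE0 : ∀ j, 0 ≤ E j := fun j => exa_nonneg _ _ _ (fun c c' => by
      unfold gcr; split_ifs <;> norm_num) t _
    have hsum : ∑ j ∈ J, E j ≤ D * P := by
      rw [hP]
      exact (cross_le_acc M (wd n s) J t).trans (hD s hs)
    set bad := J.filter (fun j => (m + 1) * (δ / 4 * P) < E j) with hbad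
    set good := J.filter (fun j => ¬ (m + 1) * (δ / 4 * P) < E j) with hgood
    have hcard : (bad.card : ℝ) + good.card = J.card := by
      have h := Finset.card_filter_add_card_filter_not (s := J)
        (fun j => ((m : ℝ) + 1) * (δ / 4 * P) < E j)
      rw [hbad, hgood, ← Nat.cast_add, h]
    have hb1 : (bad.card : ℝ) * ((m + 1) * (δ / 4 * P)) ≤ D * P := by
      calc (bad.card : ℝ) * ((m + 1) * (δ / 4 * P)) = ∑ j ∈ bad, (m + 1) * (δ / 4 * P) := by
            rw [Finset.sum_const, nsmul_eq_mul]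
        _ ≤ ∑ j ∈ bad, E j := Finset.sum_le_sum fun j hj => (mem_filter.1 hj).2.le
        _ ≤ ∑ j ∈ J, E j := Finset.sum_le_sum_of_subset_of_nonneg (Finset.filter_subset _ _)
            fun j _ _ => hE0 j
        _ ≤ D * P := hsum
    have hb2 : 2 * (bad.card : ℝ) ≤ J.card := by
      have h1 : (2 * (bad.card : ℝ)) * ((m + 1) * (δ / 4) * P) ≤
          J.card * ((m + 1) * (δ / 4) * P) := by
        calc (2 * (bad.card : ℝ)) * ((m + 1) * (δ / 4) * P)
            = 2 * ((bad.card : ℝ) * ((m + 1) * (δ / 4 * P))) := by ring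
          _ ≤ 2 * (D * P) := by linarith
          _ = (2 * D) * P := by ring
          _ ≤ ((m + 1) * (δ / 4) * J.card) * P := mul_le_mul_of_nonneg_right hm hP0.le
          _ = J.card * ((m + 1) * (δ / 4) * P) := by ring
      exact le_of_mul_le_mul_right h1 (by positivity)
    have hg : (J.card : ℝ) / 2 ≤ good.card := by linarith
    have hgv : ∀ j ∈ good, ((1 - δ / 2) * α) ^ L ≤ pv M S t m j (wd n s) ^ L := by
      intro j hj
      have h1 := (mem_filter.1 hj).2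
      rw [not_lt] at h1
      have h2 := pv_ge_acc M S t m j (wd n s) (hS s hs)
      have h3 : exa (accS M) (gcr M j) (step M (wd n s)) t (initConf M) / (m + 1) ≤ δ / 4 * P := by
        rw [div_le_iff₀ hm0]
        calc _ = E j := rfl
          _ ≤ (m + 1) * (δ / 4 * P) := h1
          _ = δ / 4 * P * (m + 1) := by ring
      apply pow_le_pow_left₀ haγ
      have h4 := ha s hs
      rw [← hP] at h4
      have h5 : (1 - δ / 2) * α ≤ (1 - δ / 2) * P := mul_le_mul_of_nonneg_left hPα (by linarith)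
      linarith
    calc ((1 - δ / 2) * α) ^ L * J.card / 2 = (J.card / 2) * ((1 - δ / 2) * α) ^ L := by ring
      _ ≤ good.card * ((1 - δ / 2) * α) ^ L := by
          apply mul_le_mul_of_nonneg_right hg
          positivity
      _ = ∑ j ∈ good, ((1 - δ / 2) * α) ^ L := by rw [Finset.sum_const, nsmul_eq_mul]
      _ ≤ ∑ j ∈ good, pv M S t m j (wd n s) ^ L := Finset.sum_le_sum hgv
      _ ≤ ∑ j ∈ J, pv M S t m j (wd n s) ^ L :=
          Finset.sum_le_sum_of_subset_of_nonneg (Finset.filter_subset _ _)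
            fun j _ _ => pow_nonneg (pv_bdd M S t m j _).1 L
  have h1 : ∑ j ∈ J, ∑ s ∈ np n, pv M S t m j (wd n s) ^ L <
      ∑ j ∈ J, ((1 - δ / 2) * α) ^ L * (np n).card / 2 := Finset.sum_lt_sum_of_nonempty hJ hcon
  rw [Finset.sum_comm, Finset.sum_const, nsmul_eq_mul] at h1
  have h2 := Finset.sum_le_sum hone
  rw [Finset.sum_const, nsmul_eq_mul] at h2
  have h3 : ((np n).card : ℝ) * (((1 - δ / 2) * α) ^ L * J.card / 2) =
      J.card * (((1 - δ / 2) * α) ^ L * (np n).card / 2) := by ring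
  linarith

/-- The exponent: `L = ⌈(2 / δ) log C⌉`. -/
theorem main_L (C : ℝ) (hC : 1 ≤ C) (δ : ℝ) (hδ : 0 < δ) (hδ1 : δ ≤ 1) :
    ∃ L : ℕ, C * (1 - δ) ^ L ≤ (1 - δ / 2) ^ L ∧ L * δ ≤ 2 * Real.log C + 1 ∧
      1 ≤ (1 - δ / 2) ^ L * Real.exp (2 * Real.log C + 1) := by
  have hlog : 0 ≤ Real.log C := Real.log_nonneg hC
  obtain ⟨L, hL⟩ : ∃ L : ℕ, L = ⌈2 / δ * Real.log C⌉₊ := ⟨_, rfl⟩
  have h1 : 2 / δ * Real.log C ≤ L := by rw [hL]; exact Nat.le_ceil _
  have h2 : (L : ℝ) < 2 / δ * Real.log C + 1 := by rw [hL]; exact Nat.ceil_lt_add_one (by positivity)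
  have h3 : L * δ ≤ 2 * Real.log C + 1 := by
    have h4 : (L : ℝ) * δ ≤ (2 / δ * Real.log C + 1) * δ := mul_le_mul_of_nonneg_right h2.le hδ.le
    have h5 : (2 / δ * Real.log C + 1) * δ = 2 * Real.log C + δ := by field_simp
    linarith
  have h4 : 2 * Real.log C ≤ L * δ := by
    have h5 := mul_le_mul_of_nonneg_right h1 hδ.le
    have h6 : 2 / δ * Real.log C * δ = 2 * Real.log C := by field_simp
    linarith
  have hx0 : 0 ≤ 1 - δ / 2 := by linarith
  refine ⟨L, ?_, h3, ?_⟩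
  · have h5 : (1 - δ) ^ L ≤ (1 - δ / 2) ^ L * (1 - δ / 2) ^ L := by
      rw [← mul_pow]
      apply pow_le_pow_left₀ (by linarith)
      nlinarith [sq_nonneg δ]
    have h6 : (1 - δ / 2) ^ L ≤ Real.exp (-(δ / 2) * L) := by
      have h7 : 1 - δ / 2 ≤ Real.exp (-(δ / 2)) := by
        have := Real.add_one_le_exp (-(δ / 2))
        linarith
      calc (1 - δ / 2) ^ L ≤ (Real.exp (-(δ / 2))) ^ L := pow_le_pow_left₀ hx0 h7 L
        _ = Real.exp (-(δ / 2) * L) := by rw [← Real.exp_nat_mul]; ring_nf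
    have h7 : C * (1 - δ / 2) ^ L ≤ 1 := by
      calc C * (1 - δ / 2) ^ L ≤ C * Real.exp (-(δ / 2) * L) :=
            mul_le_mul_of_nonneg_left h6 (by linarith)
        _ = Real.exp (Real.log C) * Real.exp (-(δ / 2) * L) := by rw [Real.exp_log (by linarith)]
        _ = Real.exp (Real.log C + -(δ / 2) * L) := (Real.exp_add _ _).symm
        _ ≤ 1 := Real.exp_le_one_iff.2 (by linarith)
    calc C * (1 - δ) ^ L ≤ C * ((1 - δ / 2) ^ L * (1 - δ / 2) ^ L) :=
          mul_le_mul_of_nonneg_left h5 (by linarith)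
      _ = (C * (1 - δ / 2) ^ L) * (1 - δ / 2) ^ L := by ring
      _ ≤ 1 * (1 - δ / 2) ^ L := mul_le_mul_of_nonneg_right h7 (by positivity)
      _ = _ := one_mul _
  · have h5 : 1 ≤ (1 - δ / 2) * Real.exp δ := by
      have h6 := Real.add_one_le_exp δ
      have h7 : (1 - δ / 2) * (δ + 1) ≤ (1 - δ / 2) * Real.exp δ := mul_le_mul_of_nonneg_left h6 hx0
      nlinarith
    have h6 : 1 ≤ ((1 - δ / 2) * Real.exp δ) ^ L := one_le_pow₀ h5
    rw [mul_pow] at h6
    refine h6.trans (mul_le_mul_of_nonneg_left ?_ (by positivity))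
    rw [← Real.exp_nat_mul]
    exact Real.exp_le_exp.2 h3

theorem main_v (K : ℝ) : ∃ v1 : ℕ, ∀ v ≥ v1, K * (v : ℝ) ≤ 2 ^ v := by
  have h := tendsto_pow_const_div_const_pow_of_one_lt 1 (r := (2 : ℝ)) (by norm_num)
  have hpos : (0 : ℝ) < 1 / (|K| + 1) := by positivity
  have h2 := (h.eventually (gt_mem_nhds hpos))
  rw [Filter.eventually_atTop] at h2
  obtain ⟨v1, hv1⟩ := h2
  refine ⟨v1, fun v hv => ?_⟩
  have h3 := hv1 v hv
  rw [pow_one, div_lt_div_iff₀ (by positivity) (by positivity), one_mul] at h3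
  have h4 : K * (v : ℝ) ≤ (v : ℝ) * (|K| + 1) := by
    have := le_abs_self K
    have hv0 : (0 : ℝ) ≤ v := Nat.cast_nonneg v
    nlinarith
  linarith

theorem main_J (n : ℕ) (hn : 20 ≤ n) :
    n ≤ 10 * ((Finset.range (n + 1)).filter (fun j => 2 * n ≤ 5 * j ∧ 5 * j ≤ 3 * n)).card := by
  have hsub : (Finset.Icc ((2 * n + 4) / 5) (3 * n / 5)) ⊆
      (Finset.range (n + 1)).filter (fun j => 2 * n ≤ 5 * j ∧ 5 * j ≤ 3 * n) := by
    intro j hj
    rw [mem_Icc] at hj
    rw [mem_filter, mem_range]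
    omega
  have := Finset.card_le_card hsub
  rw [Nat.card_Icc] at this
  omega

/-- **Main theorem.** -/
theorem main (M : PTM) :
    ∃ (c : ℝ) (n₀ : ℕ), 0 < c ∧ ∀ (n : ℕ) (δ α D : ℝ) (S : ℕ), n₀ ≤ n → 0 < δ → δ ≤ 1 → 0 < α →
      (∀ w ∈ PRIMES, w.length = n → α ≤ accProb M w) →
      (∀ w, w ∉ PRIMES → w.length = n → accProb M w ≤ (1 - δ) * α) →
      (∀ w ∈ PRIMES, w.length = n → ∀ t, accMoves M w t ≤ D * accProb M w) →
      (∀ w ∈ PRIMES, w.length = n → ∀ r, (∃ t, M.halt (run M w r t).q = some true) →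
        (visited M w r).encard ≤ S) →
      c * δ ^ 2 * (n : ℝ) ^ 2 ≤ D * (S + 1) + δ * n * Real.log (1 / α) := by
  classical
  obtain ⟨A, v0, hA, hv0, hsv⟩ := sieve_main
  obtain ⟨n1, hn1⟩ := np_ge
  have hAR : (1 : ℝ) ≤ A := by exact_mod_cast hA
  obtain ⟨C, hCd⟩ : ∃ C : ℝ, C = 5760 * A := ⟨_, rfl⟩
  have hC1 : 1 ≤ C := by rw [hCd]; linarith
  obtain ⟨K, hKd⟩ : ∃ K : ℝ, K = 2 * Real.log C + 1 := ⟨_, rfl⟩
  have hK1 : 1 ≤ K := by
    have := Real.log_nonneg hC1
    rw [hKd]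
    linarith
  obtain ⟨v1, hv1⟩ := main_v (288 * (80 * A) * Real.exp K)
  obtain ⟨lb, hlb⟩ : ∃ lb : ℝ, lb = Real.log (base (toTM M)) := ⟨_, rfl⟩
  have hbase2 : (2 : ℝ) ≤ base (toTM M) := by
    exact_mod_cast Pool.Agent.MP_5082c5_lc.two_le_base (toTM M)
  have hlb0 : 0 ≤ lb := by rw [hlb]; exact Real.log_nonneg (by linarith)
  have hlog2 : 0 < Real.log 2 := Real.log_pos (by norm_num)
  refine ⟨Real.log 2 / (80 * A * K * (80 * lb + 1)),
    max n1 (max 20 (40 * A * (max v0 (max v1 1)))), by positivity, ?_⟩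
  intro n δ α D S hn hδ hδ1 hα h1 h0 hD hS
  obtain ⟨L, hL, hLδ, hLe⟩ := main_L C hC1 δ hδ hδ1
  rw [← hKd] at hLδ hLe
  have hnn1 : n1 ≤ n := (le_max_left _ _).trans hn
  have hn20 : 20 ≤ n := (le_max_left _ _).trans ((le_max_right _ _).trans hn)
  have hnv : 40 * A * (max v0 (max v1 1)) ≤ n := (le_max_right _ _).trans ((le_max_right _ _).trans hn)
  have h40 : 0 < 40 * A := by omega
  obtain ⟨v, hv⟩ : ∃ v : ℕ, v = n / (40 * A) := ⟨_, rfl⟩
  have hvm : max v0 (max v1 1) ≤ v := by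
    rw [hv, Nat.le_div_iff_mul_le h40, mul_comm]
    exact hnv
  have hvv0 : v0 ≤ v := (le_max_left _ _).trans hvm
  have hvv1 : v1 ≤ v := (le_max_left _ _).trans ((le_max_right _ _).trans hvm)
  have hv11 : 1 ≤ v := (le_max_right _ _).trans ((le_max_right _ _).trans hvm)
  have hvn : 40 * A * v ≤ n := by rw [hv]; exact Nat.mul_div_le n _
  have hnv2 : n ≤ 80 * A * v := by
    have h2 : n < 40 * A * (v + 1) := by rw [hv]; exact Nat.lt_mul_div_succ n h40
    have h3 : 40 * A * (v + 1) ≤ 80 * A * v := by nlinarith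
    omega
  obtain ⟨W, hW0, hW1, hWm, hW⟩ := hsv v hvv0
  have hmem : ∀ s ∈ np n, s < 2 ^ n := fun s hs => by
    rw [np, mem_filter, mem_Ico] at hs
    exact hs.1.2
  have hPr : ∀ s ∈ np n, wd n s ∈ PRIMES := fun s hs =>
    (wd_primes n s (by omega) (hmem s hs)).2 hs
  have hα1 : ∀ s ∈ np n, α ≤ accProb M (wd n s) := fun s hs => h1 _ (hPr s hs) (wd_length n s)
  -- the time
  have htime : ∃ t, ∀ s ∈ np n, (1 - δ / 4) * accProb M (wd n s) ≤ accWithin M (wd n s) t := by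
    have h2 : ∀ s : ℕ, ∃ t₀, s ∈ np n → ∀ t ≥ t₀,
        (1 - δ / 4) * accProb M (wd n s) ≤ accWithin M (wd n s) t := by
      intro s
      by_cases hs : s ∈ np n
      · obtain ⟨t₀, ht⟩ := exists_time M (wd n s) ((1 - δ / 4) * accProb M (wd n s)) (by
          have h3 := hα1 s hs
          have h4 : 0 < δ / 4 * accProb M (wd n s) := by
            apply mul_pos (by linarith)
            linarith
          linarith)
        exact ⟨t₀, fun _ => ht⟩
      · exact ⟨0, fun h => absurd h hs⟩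
    choose t₀ ht₀ using h2
    refine ⟨(np n).sup t₀, fun s hs => ht₀ s hs _ ?_⟩
    exact Finset.le_sup (f := t₀) hs
  obtain ⟨t, ht⟩ := htime
  have hnpos : (0 : ℝ) < n := by exact_mod_cast (show 0 < n by omega)
  have hnp := hn1 n hnn1
  have hnp0 : 0 < (np n).card := by
    by_contra hcon
    have h2 : (np n).card = 0 := by omega
    rw [h2] at hnp
    have h3 : (0 : ℝ) < 2 ^ n := by positivity
    simp at hnp
    linarith
  obtain ⟨s0, hs0⟩ := Finset.card_pos.1 hnp0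
  have hα1' : α ≤ 1 := (hα1 s0 hs0).trans (accProb_le_one M _)
  have hD0 : 0 ≤ D := by
    have h2 := cross_le_acc M (wd n s0) ∅ t
    simp only [Finset.sum_empty] at h2
    have h3 := h2.trans (hD _ (hPr s0 hs0) (wd_length n s0) t)
    have h4 : 0 < accProb M (wd n s0) := lt_of_lt_of_le hα (hα1 s0 hs0)
    by_contra hcon
    have h5 : D * accProb M (wd n s0) < 0 := mul_neg_of_neg_of_pos (not_le.1 hcon) h4
    linarith
  obtain ⟨l, hl⟩ : ∃ l : ℝ, l = Real.log (1 / α) := ⟨_, rfl⟩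
  have hl0 : 0 ≤ l := by
    rw [hl]
    apply Real.log_nonneg
    rw [le_div_iff₀ hα]
    linarith
  have hlα : Real.log α = -l := by rw [hl, one_div, Real.log_inv, neg_neg]
  -- the boundaries
  set J : Finset ℕ := (Finset.range (n + 1)).filter (fun j => 2 * n ≤ 5 * j ∧ 5 * j ≤ 3 * n)
    with hJ
  have hJc : n ≤ 10 * J.card := main_J n hn20
  have hJ0 : 0 < J.card := by omega
  have hJR : (0 : ℝ) < J.card := by exact_mod_cast hJ0
  have hJcR : (n : ℝ) ≤ 10 * J.card := by exact_mod_cast hJc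
  obtain ⟨m, hm⟩ : ∃ m : ℕ, m = ⌊2 * D / (δ / 4 * J.card)⌋₊ := ⟨_, rfl⟩
  have hm1 : (m : ℝ) ≤ 2 * D / (δ / 4 * J.card) := by rw [hm]; exact Nat.floor_le (by positivity)
  have hm2 : 2 * D / (δ / 4 * J.card) < m + 1 := by rw [hm]; exact Nat.lt_floor_add_one _
  have hm3 : 2 * D ≤ (m + 1) * (δ / 4) * J.card := by
    rw [div_lt_iff₀ (by positivity)] at hm2
    linarith
  obtain ⟨j, hj, hjb⟩ := good_boundary M n S t m L D α δ hα hδ hδ1 hα1
    (fun s hs => hS _ (hPr s hs) (wd_length n s)) (fun s hs => hD _ (hPr s hs) (wd_length n s) t)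
    ht J (Finset.card_pos.1 hJ0) hm3
  rw [hJ, mem_filter, mem_range] at hj
  have e16 : 5 * (16 * A * v) ≤ 2 * n := by
    have : 5 * (16 * A * v) = 2 * (40 * A * v) := by ring
    omega
  have hβ : 0 ≤ (1 - δ) * α := mul_nonneg (by linarith) hα.le
  have hob := one_boundary M ((1 - δ) * α) hβ v A hA hv11 W hW0 hW1 hWm hW S t m L j (n - j) n
    (by omega) (by omega) (by omega) h0
  have hmain := hjb.trans hob
  set B : ℝ := (base (toTM M) : ℝ) ^ ((S + 1) * m * L) with hB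
  have hB0 : 0 < B := by positivity
  have hvR : (0 : ℝ) < v := by exact_mod_cast hv11
  have hnv2R : (n : ℝ) ≤ 80 * A * v := by exact_mod_cast hnv2
  have hP : (0 : ℝ) < 2 ^ n := by positivity
  -- the mass
  have hmass : 2 * (2 : ℝ) ^ n / v + 2 ^ (2 * v) ≤ 240 * A * 2 ^ n / n := by
    have h2 : (2 : ℝ) ^ (2 * v) ≤ 2 ^ n / v := by
      rw [le_div_iff₀ hvR]
      calc (2 : ℝ) ^ (2 * v) * v ≤ 2 ^ (2 * v) * 2 ^ v := by
            apply mul_le_mul_of_nonneg_left _ (by positivity)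
            exact_mod_cast Nat.lt_two_pow_self.le
        _ = 2 ^ (3 * v) := by rw [← pow_add]; congr 1; ring
        _ ≤ 2 ^ n := by
            apply pow_le_pow_right₀ (by norm_num)
            have : 3 * v ≤ 40 * A * v := by nlinarith
            omega
    have h3 : (2 : ℝ) ^ n / v ≤ 80 * A * 2 ^ n / n := by
      rw [div_le_div_iff₀ hvR hnpos]
      calc (2 : ℝ) ^ n * n ≤ 2 ^ n * (80 * A * v) := mul_le_mul_of_nonneg_left hnv2R hP.le
        _ = 80 * A * 2 ^ n * v := by ring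
    have h4 : 2 * (2 : ℝ) ^ n / v = 2 * (2 ^ n / v) := by ring
    have h5 : 240 * A * (2 : ℝ) ^ n / n = 3 * (80 * A * 2 ^ n / n) := by ring
    rw [h4, h5]
    linarith
  obtain ⟨ρ, hρd⟩ : ∃ ρ : ℝ, ρ = (1 - δ / 2) * α := ⟨_, rfl⟩
  have hρ0 : 0 < ρ := by rw [hρd]; exact mul_pos (by linarith) hα
  have hρL : 0 < ρ ^ L := pow_pos hρ0 L
  have hβL : 0 ≤ ((1 - δ) * α) ^ L := pow_nonneg hβ L
  have hV : (0 : ℝ) < 2 ^ (2 * v) := by positivity
  rw [← hρd] at hmain
  have hβρ : 5760 * A * ((1 - δ) * α) ^ L ≤ ρ ^ L := by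
    rw [hρd, mul_pow, mul_pow]
    calc 5760 * A * ((1 - δ) ^ L * α ^ L) = (C * (1 - δ) ^ L) * α ^ L := by rw [hCd]; ring
      _ ≤ (1 - δ / 2) ^ L * α ^ L := mul_le_mul_of_nonneg_right hL (by positivity)
  -- `2 ^ (2 v) ρ ^ L ≤ 288 n B`
  have hkey : 2 ^ (2 * v) * ρ ^ L ≤ 288 * n * B := by
    have h2 : ρ ^ L * (2 ^ n / (12 * n)) ≤ ρ ^ L * (np n).card / 2 := by
      have h3 : (2 : ℝ) ^ n / (12 * n) ≤ (np n).card / 2 := by
        rw [div_le_div_iff₀ (by positivity) (by norm_num)]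
        linarith
      calc ρ ^ L * (2 ^ n / (12 * n)) ≤ ρ ^ L * ((np n).card / 2) :=
            mul_le_mul_of_nonneg_left h3 hρL.le
        _ = _ := by ring
    have h4 : ((1 - δ) * α) ^ L * (2 * 2 ^ n / v + 2 ^ (2 * v)) ≤ ρ ^ L / 24 * (2 ^ n / n) := by
      calc ((1 - δ) * α) ^ L * (2 * 2 ^ n / v + 2 ^ (2 * v))
          ≤ ((1 - δ) * α) ^ L * (240 * A * 2 ^ n / n) := mul_le_mul_of_nonneg_left hmass hβL
        _ = (5760 * A * ((1 - δ) * α) ^ L) / 24 * (2 ^ n / n) := by ring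
        _ ≤ ρ ^ L / 24 * (2 ^ n / n) := by
            apply mul_le_mul_of_nonneg_right _ (by positivity)
            linarith
    have h5 : ρ ^ L / 24 * (2 ^ n / n) ≤ 12 * B * 2 ^ n / 2 ^ (2 * v) := by
      have h6 : ρ ^ L * (2 ^ n / (12 * n)) = 2 * (ρ ^ L / 24 * (2 ^ n / n)) := by
        field_simp
        norm_num
      linarith
    have h7 : ρ ^ L / 24 * (2 ^ n / n) = (ρ ^ L / (24 * n)) * 2 ^ n := by
      field_simp
    have h8 : 12 * B * 2 ^ n / 2 ^ (2 * v) = (12 * B / 2 ^ (2 * v)) * 2 ^ n := by ring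
    rw [h7, h8] at h5
    have h9 := le_of_mul_le_mul_right h5 hP
    rw [div_le_div_iff₀ (by positivity) hV] at h9
    linarith
  -- `2 ^ v α ^ L ≤ B`
  have hvB : 2 ^ v * α ^ L ≤ B := by
    have h2 := hv1 v hvv1
    have h3 : 288 * (n : ℝ) * Real.exp K ≤ 2 ^ v := by
      calc 288 * (n : ℝ) * Real.exp K ≤ 288 * (80 * A * v) * Real.exp K := by
            apply mul_le_mul_of_nonneg_right _ (Real.exp_pos _).le
            linarith
        _ = 288 * (80 * A) * Real.exp K * v := by ring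
        _ ≤ 2 ^ v := h2
    have h4 : 2 ^ (2 * v) * α ^ L ≤ 288 * n * B * Real.exp K := by
      calc 2 ^ (2 * v) * α ^ L = 2 ^ (2 * v) * α ^ L * 1 := (mul_one _).symm
        _ ≤ 2 ^ (2 * v) * α ^ L * ((1 - δ / 2) ^ L * Real.exp K) :=
            mul_le_mul_of_nonneg_left hLe (by positivity)
        _ = 2 ^ (2 * v) * ρ ^ L * Real.exp K := by rw [hρd, mul_pow]; ring
        _ ≤ 288 * n * B * Real.exp K := mul_le_mul_of_nonneg_right hkey (Real.exp_pos _).le
    have h5 : 2 ^ v * (2 ^ v * α ^ L) ≤ 2 ^ v * B := by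
      calc 2 ^ v * (2 ^ v * α ^ L) = 2 ^ (2 * v) * α ^ L := by rw [two_mul, pow_add]; ring
        _ ≤ 288 * n * B * Real.exp K := h4
        _ = (288 * n * Real.exp K) * B := by ring
        _ ≤ 2 ^ v * B := mul_le_mul_of_nonneg_right h3 hB0.le
    exact le_of_mul_le_mul_left h5 (by positivity)
  -- logarithms
  have hlog : (v : ℝ) * Real.log 2 ≤ ((S : ℝ) + 1) * m * L * lb + L * l := by
    have h2 := Real.log_le_log (by positivity) hvB
    rw [Real.log_mul (by positivity) (by positivity), Real.log_pow, Real.log_pow, hB, Real.log_pow,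
      hlα, ← hlb] at h2
    push_cast at h2
    linarith
  have hmn : (m : ℝ) * (δ * n) ≤ 80 * D := by
    have h2 : (m : ℝ) * (δ / 4 * J.card) ≤ 2 * D := by
      rw [le_div_iff₀ (by positivity)] at hm1
      exact hm1
    have h3 : (m : ℝ) * (δ * n) ≤ m * (δ * (10 * J.card)) := by
      apply mul_le_mul_of_nonneg_left _ (Nat.cast_nonneg m)
      exact mul_le_mul_of_nonneg_left hJcR hδ.le
    linarith
  have hfin : δ ^ 2 * (n : ℝ) ^ 2 * Real.log 2 ≤
      80 * A * K * (80 * lb + 1) * (D * (S + 1) + δ * n * l) := by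
    have hS0 : (0 : ℝ) ≤ (S : ℝ) + 1 := by positivity
    have hDS : 0 ≤ D * ((S : ℝ) + 1) := mul_nonneg hD0 hS0
    have hnl : 0 ≤ δ * n * l := by positivity
    have e1 : (n : ℝ) * Real.log 2 ≤ 80 * A * (((S : ℝ) + 1) * m * L * lb + L * l) := by
      calc (n : ℝ) * Real.log 2 ≤ (80 * A * v) * Real.log 2 :=
            mul_le_mul_of_nonneg_right hnv2R hlog2.le
        _ = 80 * A * (v * Real.log 2) := by ring
        _ ≤ _ := mul_le_mul_of_nonneg_left hlog (by positivity)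
    have e2 : ((S : ℝ) + 1) * (m * (δ * n)) * (L * δ) * lb ≤ ((S : ℝ) + 1) * (80 * D) * K * lb := by
      apply mul_le_mul_of_nonneg_right _ hlb0
      apply mul_le_mul _ hLδ (by positivity) (by positivity)
      exact mul_le_mul_of_nonneg_left hmn hS0
    have e3 : (L * δ) * (δ * n * l) ≤ K * (δ * n * l) := mul_le_mul_of_nonneg_right hLδ hnl
    calc δ ^ 2 * (n : ℝ) ^ 2 * Real.log 2 = (δ ^ 2 * n) * (n * Real.log 2) := by ring
      _ ≤ (δ ^ 2 * n) * (80 * A * (((S : ℝ) + 1) * m * L * lb + L * l)) :=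
          mul_le_mul_of_nonneg_left e1 (by positivity)
      _ = 80 * A * (((S : ℝ) + 1) * (m * (δ * n)) * (L * δ) * lb + (L * δ) * (δ * n * l)) := by ring
      _ ≤ 80 * A * (((S : ℝ) + 1) * (80 * D) * K * lb + K * (δ * n * l)) := by
          apply mul_le_mul_of_nonneg_left _ (by positivity)
          linarith
      _ = 80 * A * K * (80 * lb * (D * (S + 1)) + δ * n * l) := by ring
      _ ≤ 80 * A * K * ((80 * lb + 1) * (D * (S + 1) + δ * n * l)) := by
          apply mul_le_mul_of_nonneg_left _ (by positivity)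
          have e4 : 0 ≤ 80 * lb * (δ * n * l) := by positivity
          nlinarith
      _ = _ := by ring
  rw [← hl]
  have e5 : (0 : ℝ) < 80 * A * K * (80 * lb + 1) := by positivity
  calc Real.log 2 / (80 * A * K * (80 * lb + 1)) * δ ^ 2 * (n : ℝ) ^ 2
      = (δ ^ 2 * (n : ℝ) ^ 2 * Real.log 2) / (80 * A * K * (80 * lb + 1)) := by ring
    _ ≤ D * (S + 1) + δ * n * l := by
        rw [div_le_iff₀ e5]
        linarith

theorem accMoves_le (M : PTM) (w : List Bool) (t : ℕ) : accMoves M w t ≤ moves M w t := by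
  unfold accMoves moves
  apply div_le_div_of_nonneg_right _ (by positivity)
  refine Finset.sum_le_sum fun u _ => ?_
  split_ifs
  · exact le_refl _
  · positivity

theorem nil_not_prime : ([] : List Bool) ∉ PRIMES := by
  rintro ⟨p, hp, h⟩
  have h1 := Pool.Agent.MP_5082c5_lc.val_bits p
  rw [← h] at h1
  have h2 : val ([] : List Bool) = 0 := rfl
  rw [h2] at h1
  exact hp.ne_zero h1.symm

/-- Two-sided bounded error, expected moves, space on all computations. -/
theorem main_const (M : PTM) (α β : ℝ) (hαβ : β < α) (h1 : ∀ w ∈ PRIMES, α ≤ accProb M w)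
    (h0 : ∀ w, w ∉ PRIMES → accProb M w ≤ β) :
    ∃ (c : ℝ) (n₀ : ℕ), 0 < c ∧ ∀ (n : ℕ) (D : ℝ) (S : ℕ), n₀ ≤ n →
      (∀ w ∈ PRIMES, w.length = n → ∀ t, moves M w t ≤ D) →
      (∀ w ∈ PRIMES, w.length = n → ∀ r, (visited M w r).encard ≤ S) →
      c * (n : ℝ) ^ 2 ≤ D * (S + 1) := by
  classical
  obtain ⟨c, n₀, hc, hmain⟩ := main M
  have hβ : 0 ≤ β := (accProb_nonneg M []).trans (h0 _ nil_not_prime)
  have hα : 0 < α := lt_of_le_of_lt hβ hαβ
  obtain ⟨δ, hδd⟩ : ∃ δ : ℝ, δ = 1 - β / α := ⟨_, rfl⟩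
  have hδ : 0 < δ := by
    have : β / α < 1 := (div_lt_one hα).2 hαβ
    rw [hδd]
    linarith
  have hδ1 : δ ≤ 1 := by
    have : 0 ≤ β / α := div_nonneg hβ hα.le
    rw [hδd]
    linarith
  have hδβ : (1 - δ) * α = β := by
    rw [hδd]
    field_simp
    ring
  obtain ⟨l, hl⟩ : ∃ l : ℝ, l = Real.log (1 / α) := ⟨_, rfl⟩
  obtain ⟨n2, hn2⟩ := exists_nat_ge (2 * l / (c * δ))
  refine ⟨c / 2 * δ ^ 2 * α, max n₀ n2, by positivity, ?_⟩
  intro n D S hn hD hS
  have hn1 : n₀ ≤ n := (le_max_left _ _).trans hn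
  have hn3 : (n2 : ℝ) ≤ n := by exact_mod_cast (le_max_right _ _).trans hn
  have h2 := hmain n δ α (D / α) S hn1 hδ hδ1 hα (fun w hw _ => h1 w hw)
    (fun w hw _ => by rw [hδβ]; exact h0 w hw)
    (fun w hw hwn t => by
      have h3 := (accMoves_le M w t).trans (hD w hw hwn t)
      have h4 : 0 ≤ accMoves M w t := by
        have h5 := cross_le_acc M w ∅ t
        simpa using h5
      have h5 : 0 ≤ D / α := div_nonneg (h4.trans h3) hα.le
      calc accMoves M w t ≤ D := h3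
        _ = D / α * α := by field_simp
        _ ≤ D / α * accProb M w := mul_le_mul_of_nonneg_left (h1 w hw) h5)
    (fun w hw hwn r _ => hS w hw hwn r)
  rw [← hl] at h2
  have h3 : 2 * l / (c * δ) ≤ n := hn2.trans hn3
  rw [div_le_iff₀ (by positivity)] at h3
  have h4 : δ * n * l ≤ c / 2 * δ ^ 2 * (n : ℝ) ^ 2 := by
    have h5 : (δ * n) * (2 * l) ≤ (δ * n) * (n * (c * δ)) :=
      mul_le_mul_of_nonneg_left h3 (by positivity)
    linarith
  have h5 : c / 2 * δ ^ 2 * (n : ℝ) ^ 2 ≤ D / α * (S + 1) := by linarith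
  calc c / 2 * δ ^ 2 * α * (n : ℝ) ^ 2 = (c / 2 * δ ^ 2 * (n : ℝ) ^ 2) * α := by ring
    _ ≤ (D / α * (S + 1)) * α := mul_le_mul_of_nonneg_right h5 hα.le
    _ = D * (S + 1) := by field_simp

end Pool.Agent.PrbM
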