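import Pool.Agent.MP_5082c5_lc.Machine
import Pool.Agent.PrbM.Chn

/-!
# PrbM PTM: probabilistic Turing machines with two-way read-only input
-/

set_option autoImplicit false

namespace Pool.Agent.PrbM

open Pool.Agent.MP_5082c5_lc (Sym Move symAt newPos)

/-- A probabilistic Turing machine with a two-way read-only input tape and `k` two-way infinite
read-write work tapes; in every step a fair coin is tossed. -/
structure PTM where
  /-- the number of work tapes -/
  k : ℕ
  /-- the states -/
  Q : Type
  /-- the work tape symbols -/
  Γ : Type
  [finQ : Fintype Q]
  [finΓ : Fintype Γ]
  /-- the blank symbol -/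
  blank : Γ
  /-- the initial state -/
  start : Q
  /-- `some true` for the accepting halting states, `some false` for the rejecting halting states,
  `none` for the other states -/
  halt : Q → Option Bool
  /-- the transition function: from the state, the scanned input symbol, the scanned work
  symbols and the coin to the new state, the move of the input head, the written work symbols and
  the moves of the work heads -/
  δ : Q → Sym → (Fin k → Γ) → Bool → Q × Move × (Fin k → Γ) × (Fin k → Move)

attribute [instance] PTM.finQ PTM.finΓ

/-- A configuration: state, position of the input head, contents of the work tapes, positions of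
the work heads. Position `0` of the input tape holds the left endmarker, positions `1, …, n` hold
the input, position `n + 1` holds the right endmarker. -/
@[ext] structure Conf (M : PTM) where
  q : M.Q
  pos : ℕ
  tape : Fin M.k → ℤ → M.Γ
  hd : Fin M.k → ℤ

/-- One step on the input `w` when the coin shows `b`; halting states stay unchanged. -/
def step (M : PTM) (w : List Bool) (c : Conf M) (b : Bool) : Conf M :=
  if (M.halt c.q).isSome then c else
    let r := M.δ c.q (symAt w c.pos) (fun i => c.tape i (c.hd i)) b
    { q := r.1
      pos := newPos w.length c.pos r.2.1
      tape := fun i z => if z = c.hd i then r.2.2.1 i else c.tape i z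
      hd := fun i => c.hd i + (r.2.2.2 i).toInt }

/-- The initial configuration. -/
def initConf (M : PTM) : Conf M :=
  { q := M.start
    pos := 0
    tape := fun _ _ => M.blank
    hd := fun _ => 0 }

/-- The configuration after `t` steps on the input `w` when the coin tosses are `r 0, r 1, …`. -/
def run (M : PTM) (w : List Bool) (r : ℕ → Bool) : ℕ → Conf M
  | 0 => initConf M
  | t + 1 => step M w (run M w r t) (r t)

/-- The probability that `M` accepts `w` within `t` steps: the share of the `2 ^ t` sequences of
`t` coin tosses with which it does. -/
noncomputable def accWithin (M : PTM) (w : List Bool) (t : ℕ) : ℝ :=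
  ({u : Fin t → Bool | M.halt (run M w (coins u) t).q = some true}.ncard : ℝ) / 2 ^ t

/-- The probability that `M` accepts `w`. -/
noncomputable def accProb (M : PTM) (w : List Bool) : ℝ := ⨆ t, accWithin M w t

/-- The expected number of those of the first `t` steps that move the input head. -/
noncomputable def moves (M : PTM) (w : List Bool) (t : ℕ) : ℝ :=
  (∑ u : Fin t → Bool, ({s : ℕ | s < t ∧
    (run M w (coins u) (s + 1)).pos ≠ (run M w (coins u) s).pos}.ncard : ℝ)) / 2 ^ t

/-- The expectation, on the event that `M` accepts `w` within `t` steps, of the number of those of
the first `t` steps that move the input head. -/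
noncomputable def accMoves (M : PTM) (w : List Bool) (t : ℕ) : ℝ :=
  (∑ u : Fin t → Bool, if M.halt (run M w (coins u) t).q = some true then
    ({s : ℕ | s < t ∧
      (run M w (coins u) (s + 1)).pos ≠ (run M w (coins u) s).pos}.ncard : ℝ) else 0) / 2 ^ t

/-- The work cells visited on the input `w` with the coin tosses `r`: pairs (work tape, position). -/
def visited (M : PTM) (w : List Bool) (r : ℕ → Bool) : Set (Fin M.k × ℤ) :=
  {x | ∃ t, (run M w r t).hd x.1 = x.2}

end Pool.Agent.PrbM
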