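import Pool.Agent.PrbM.Ptm
import Pool.Agent.PrbM.Dcm
import Pool.Agent.MP_5082c5_lc.Space

/-!
# PrbM SIM: machines as processes
-/

set_option autoImplicit false

namespace Pool.Agent.PrbM

open Finset

open Pool.Agent.MP_5082c5_lc (Sym Move symAt newPos TM Mem memSet memSet_finite memSet_card base)

open scoped Classical

/-- the machine without coin (only used for its memory states) -/
def toTM (M : PTM) : TM :=
  { k := M.k, Q := M.Q, Γ := M.Γ, blank := M.blank, start := M.start, halt := M.halt
    δ := fun q s g => M.δ q s g false }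

/-- the memory of a configuration -/
def pmem {M : PTM} (c : Conf M) : Mem (toTM M) := (c.q, c.tape, c.hd)

/-- the configuration with memory `m` and head position `i` -/
def mk {M : PTM} (m : Mem (toTM M)) (i : ℕ) : Conf M := ⟨m.1, i, m.2.1, m.2.2⟩

/-- accepting configurations -/
def accS (M : PTM) : Set (Conf M) := {c | M.halt c.q = some true}

/-- reached configurations -/
def Rch (M : PTM) (w : List Bool) : Set (Conf M) := {c | ∃ r t, c = run M w r t}

/-- the two sides of the boundary between the positions `j` and `j + 1` -/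
def AS (M : PTM) (S j : ℕ) (s : Bool) : Set (Conf M) :=
  {c | pmem c ∈ memSet (toTM M) S ∧ (c.pos ≤ j ↔ s = true)}

/-- the configurations after a crossing of the boundary `j`, from the side `s` -/
noncomputable def EXs (M : PTM) (S j : ℕ) (s : Bool) : Finset (Conf M) :=
  (memSet_finite (toTM M) S).toFinset.image (fun m => mk m (if s then j + 1 else j))

/-- crossing of the boundary `j` -/
noncomputable def gcr (M : PTM) (j : ℕ) (c c' : Conf M) : ℝ :=
  if (c.pos ≤ j ↔ c'.pos ≤ j) then 0 else 1

/-- the input head moves -/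
noncomputable def gmv (M : PTM) (c c' : Conf M) : ℝ := if c'.pos = c.pos then 0 else 1

-- BEGIN acc_fix
/-- S0. -/
theorem acc_fix (M : PTM) (w : List Bool) : ∀ c ∈ accS M, ∀ b, step M w c b = c := by
  intro c hc b
  have h : M.halt c.q = some true := hc
  rw [step, if_pos (by rw [h]; rfl)]
-- END acc_fix

-- BEGIN accWithin_eq
private theorem accWithin_eq_run (M : PTM) (w : List Bool) (r : ℕ → Bool) (t : ℕ) :
    run M w r t = path (step M w) (initConf M) r t := by
  induction t with
  | zero => rfl
  | succ t ih => rw [run, path, ih]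

/-- S1. (C1; `run M w r t = path (step M w) (initConf M) r t`.) -/
theorem accWithin_eq (M : PTM) (w : List Bool) (t : ℕ) :
    accWithin M w t = pacc (accS M) (step M w) t (initConf M) := by
  rw [pacc_eq, accWithin]
  congr 3
  ext u
  show M.halt (run M w (coins u) t).q = some true ↔
    M.halt (path (step M w) (initConf M) (coins u) t).q = some true
  rw [accWithin_eq_run]
-- END accWithin_eq

-- BEGIN moves_eq
private theorem moves_eq_run (M : PTM) (w : List Bool) (r : ℕ → Bool) (t : ℕ) :
    run M w r t = path (step M w) (initConf M) r t := by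
  induction t with
  | zero => rfl
  | succ t ih => rw [run, path, ih]

/-- S2. (C2.) -/
theorem moves_eq (M : PTM) (w : List Bool) (t : ℕ) :
    moves M w t = ex (gmv M) (step M w) t (initConf M) := by
  rw [ex_eq, moves]
  congr 1
  refine Finset.sum_congr rfl fun u _ => ?_
  have h1 : {s : ℕ | s < t ∧ (run M w (coins u) (s + 1)).pos ≠ (run M w (coins u) s).pos} =
      (((range t).filter fun s => (run M w (coins u) (s + 1)).pos ≠ (run M w (coins u) s).pos) : Finset ℕ) := by
    ext s
    simp only [Set.mem_setOf_eq, coe_filter, mem_range]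
  rw [h1, Set.ncard_coe_finset, Finset.card_eq_sum_ones, Finset.sum_filter, Nat.cast_sum]
  refine Finset.sum_congr rfl fun s _ => ?_
  rw [gmv, ← moves_eq_run, ← moves_eq_run]
  split_ifs <;> simp_all
-- END moves_eq

-- BEGIN Rch_closed
private theorem Rch_closed_congr (M : PTM) (w : List Bool) (r r' : ℕ → Bool) (t : ℕ)
    (h : ∀ i < t, r i = r' i) : run M w r t = run M w r' t := by
  induction t with
  | zero => rfl
  | succ t ih => rw [run, run, ih fun i hi => h i (Nat.lt_succ_of_lt hi), h t (Nat.lt_succ_self t)]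

/-- S3. `Rch` is closed under steps (change the coin number `t` in `r`; `run M w r t` depends on the
first `t` coins only) and contains the initial configuration. -/
theorem Rch_closed (M : PTM) (w : List Bool) :
    initConf M ∈ Rch M w ∧ ∀ c ∈ Rch M w, ∀ b, step M w c b ∈ Rch M w := by
  refine ⟨⟨fun _ => false, 0, rfl⟩, ?_⟩
  rintro c ⟨r, t, rfl⟩ b
  refine ⟨fun i => if i = t then b else r i, t + 1, ?_⟩
  rw [run, if_pos rfl]
  rw [Rch_closed_congr M w (fun i => if i = t then b else r i) r t fun i hi => if_neg hi.ne]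
-- END Rch_closed

-- BEGIN Rch_mem
private theorem Rch_mem_hd (M : PTM) (w : List Bool) (r : ℕ → Bool) (t : ℕ) (i : Fin M.k) :
    (run M w r (t + 1)).hd i = (run M w r t).hd i ∨ (run M w r (t + 1)).hd i = (run M w r t).hd i + 1 ∨
    (run M w r (t + 1)).hd i = (run M w r t).hd i - 1 := by
  rw [run, step]
  split_ifs
  · left; rfl
  · exact Pool.Agent.MP_5082c5_lc.toInt_cases _ _

private theorem Rch_mem_tape (M : PTM) (w : List Bool) (r : ℕ → Bool) (t : ℕ) (i : Fin M.k) (z : ℤ)
    (hz : z ≠ (run M w r t).hd i) : (run M w r (t + 1)).tape i z = (run M w r t).tape i z := by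
  rw [run, step]
  split_ifs
  · rfl
  · simp only [if_neg hz]

private theorem Rch_mem_between (M : PTM) (w : List Bool) (r : ℕ → Bool) (i : Fin M.k) (t : ℕ) :
    ∀ z : ℤ, ((0 ≤ z ∧ z ≤ (run M w r t).hd i) ∨ ((run M w r t).hd i ≤ z ∧ z ≤ 0)) →
      (i, z) ∈ visited M w r := by
  induction t with
  | zero =>
    intro z hz
    have h0 : (run M w r 0).hd i = 0 := rfl
    rw [h0] at hz
    have : z = 0 := by omega
    subst this
    exact ⟨0, rfl⟩
  | succ t ih =>
    intro z hz
    by_cases h : z = (run M w r (t + 1)).hd i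
    · exact ⟨t + 1, h.symm⟩
    · apply ih
      have := Rch_mem_hd M w r t i
      omega

private theorem Rch_mem_lt (M : PTM) {w : List Bool} {r : ℕ → Bool} {s : ℕ} (hs : (visited M w r).encard ≤ s)
    (i : Fin M.k) (t : ℕ) : |(run M w r t).hd i| < s := by
  set h := (run M w r t).hd i with hh
  have key : ((Finset.Icc (min 0 h) (max 0 h)).map
      ⟨fun z : ℤ => (i, z), fun a b hab => by simpa using hab⟩ : Set (Fin M.k × ℤ)) ⊆
      visited M w r := by
    intro x hx
    simp only [Finset.coe_map, Set.mem_image, Finset.coe_Icc,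
      Set.mem_Icc] at hx
    obtain ⟨z, hz, rfl⟩ := hx
    apply Rch_mem_between M w r i t
    rw [← hh]
    omega
  have h1 := Set.encard_le_encard key
  rw [Set.encard_coe_eq_coe_finsetCard, Finset.card_map, Int.card_Icc] at h1
  have h2 : (((max 0 h + 1 - min 0 h).toNat : ℕ) : ℕ∞) ≤ (s : ℕ∞) := h1.trans hs
  have h3 : (max 0 h + 1 - min 0 h).toNat ≤ s := by exact_mod_cast h2
  rw [abs_lt]
  omega

private theorem Rch_mem_blank (M : PTM) {w : List Bool} {r : ℕ → Bool} (i : Fin M.k) (z : ℤ)
    (hz : (i, z) ∉ visited M w r) (t : ℕ) : (run M w r t).tape i z = M.blank := by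
  induction t with
  | zero => rfl
  | succ t ih =>
    rw [Rch_mem_tape M w r t i z, ih]
    rintro rfl
    exact hz ⟨t, rfl⟩

/-- The memory after `t` steps of a computation with at most `S` visited cells. -/
theorem mem_of_visited (M : PTM) (w : List Bool) (S : ℕ) (r : ℕ → Bool)
    (hS : (visited M w r).encard ≤ S) (t : ℕ) : pmem (run M w r t) ∈ memSet (toTM M) S := by
  refine ⟨fun i => (Rch_mem_lt M hS i t).le, fun i z hz => ?_⟩
  apply Rch_mem_blank M i z
  rintro ⟨t', ht'⟩
  have h := Rch_mem_lt M hS i t'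
  have ht2 : (run M w r t').hd i = z := ht'
  rw [ht2] at h
  omega

theorem run_congr (M : PTM) (w : List Bool) (r r' : ℕ → Bool) (t : ℕ)
    (h : ∀ i < t, r i = r' i) : run M w r t = run M w r' t :=
  Rch_closed_congr M w r r' t h

/-- S4. As `mem_memSet` in `MP_5082c5_lc/Space.lean` (`visited_between`, `hd_lt`, `tape_blank`), for
`run M w r`. -/
theorem Rch_mem (M : PTM) (w : List Bool) (S : ℕ) (hS : ∀ r, (visited M w r).encard ≤ S) :
    ∀ c ∈ Rch M w, pmem c ∈ memSet (toTM M) S := by
  rintro c ⟨r, t, rfl⟩
  refine ⟨fun i => (Rch_mem_lt M (hS r) i t).le, fun i z hz => ?_⟩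
  apply Rch_mem_blank M i z
  rintro ⟨t', ht'⟩
  have h := Rch_mem_lt M (hS r) i t'
  have ht2 : (run M w r t').hd i = z := ht'
  rw [ht2] at h
  omega
-- END Rch_mem

-- BEGIN step_pos
/-- S5. -/
theorem step_pos (M : PTM) (w : List Bool) (c : Conf M) (b : Bool) :
    (step M w c b).pos = c.pos ∨ (step M w c b).pos + 1 = c.pos ∨
      (step M w c b).pos = c.pos + 1 ∨
      (w.length + 1 < c.pos ∧ (step M w c b).pos = w.length + 1) := by
  rw [step]
  split_ifs
  · exact Or.inl rfl
  · exact Pool.Agent.MP_5082c5_lc.newPos_cases _ _ _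
-- END step_pos

-- BEGIN Rch_pos
/-- S6. -/
theorem Rch_pos (M : PTM) (w : List Bool) : ∀ c ∈ Rch M w, c.pos ≤ w.length + 1 := by
  rintro c ⟨r, t, rfl⟩
  induction t with
  | zero => exact Nat.zero_le _
  | succ t ih =>
    rw [run, step]
    split_ifs
    · exact ih
    · show newPos w.length (run M w r t).pos _ ≤ w.length + 1
      generalize (M.δ (run M w r t).q (symAt w (run M w r t).pos)
        (fun i => (run M w r t).tape i ((run M w r t).hd i)) (r t)).2.1 = mv
      cases mv <;> simp only [newPos] <;> omega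
-- END Rch_pos

-- BEGIN step_left
/-- S7. Locality on the left. (`symAt_append_left`, as `step_congr`.) -/
theorem step_left (M : PTM) (u v v' : List Bool) (hv : v.length = v'.length) (c : Conf M)
    (b : Bool) (hc : c.pos ≤ u.length) : step M (u ++ v) c b = step M (u ++ v') c b := by
  rw [step, step, Pool.Agent.MP_5082c5_lc.symAt_append_left u v hc v', List.length_append, List.length_append, hv]
-- END step_left

-- BEGIN step_right
/-- S8. Locality on the right. -/
theorem step_right (M : PTM) (u u' v : List Bool) (hu : u.length = u'.length) (c : Conf M)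
    (b : Bool) (hc : u.length < c.pos) : step M (u ++ v) c b = step M (u' ++ v) c b := by
  rw [step, step, Pool.Agent.MP_5082c5_lc.symAt_append_right u v u' hu hc, List.length_append, List.length_append, hu]
-- END step_right

/-- the probability of acceptance with at most `m` crossings of the boundary `j` (phases of at
most `t` steps, memory bounded by `S`) -/
noncomputable def pv (M : PTM) (S t m j : ℕ) (w : List Bool) : ℝ :=
  vv (accS M) (step M w) (AS M S j) t m true (initConf M)

-- BEGIN dec_pv
private theorem dec_pv_card (M : PTM) (S j : ℕ) (s : Bool) :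
    (EXs M S j s).card ≤ (memSet (toTM M) S).ncard := by
  unfold EXs
  refine le_trans Finset.card_image_le ?_
  rw [Set.ncard_eq_toFinset_card _ (memSet_finite (toTM M) S)]

private theorem dec_pv_init (M : PTM) (S j : ℕ) : initConf M ∈ AS M S j true := by
  refine ⟨⟨fun i => ?_, fun i z _ => rfl⟩, ?_⟩
  · show |(0 : ℤ)| ≤ S
    rw [abs_zero]
    exact Int.natCast_nonneg S
  · show (0 ≤ j ↔ true = true)
    exact iff_of_true (Nat.zero_le j) rfl

private theorem dec_pv_mem (M : PTM) (S j : ℕ) (s : Bool) (e : Conf M) (he : e ∈ EXs M S j s) :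
    e ∈ AS M S j (!s) := by
  unfold EXs at he
  rw [Finset.mem_image] at he
  obtain ⟨m, hm, rfl⟩ := he
  refine ⟨(Set.Finite.mem_toFinset _).1 hm, ?_⟩
  show ((if s = true then j + 1 else j) ≤ j ↔ (!s) = true)
  cases s
  · simp
  · simp

private theorem dec_pv_exit (M : PTM) (S j : ℕ) (s : Bool) (w : List Bool) (hw : j ≤ w.length)
    (c : Conf M) (b : Bool) (hc : c ∈ AS M S j s) (hn : step M w c b ∈ AS M S j (!s)) :
    step M w c b ∈ EXs M S j s := by
  unfold EXs
  rw [Finset.mem_image]
  refine ⟨pmem (step M w c b), (Set.Finite.mem_toFinset _).2 hn.1, ?_⟩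
  have hp : (step M w c b).pos = if s = true then j + 1 else j := by
    have h1 := hc.2
    have h2 := hn.2
    have h3 := step_pos M w c b
    cases s
    · have h4 : ¬ c.pos ≤ j := fun h => absurd (h1.1 h) (by decide)
      have h5 : (step M w c b).pos ≤ j := h2.2 rfl
      show (step M w c b).pos = j
      omega
    · have h4 : c.pos ≤ j := h1.2 rfl
      have h5 : ¬ (step M w c b).pos ≤ j := fun h => absurd (h2.1 h) (by decide)
      show (step M w c b).pos = j + 1
      omega
  show (⟨(step M w c b).q, _, (step M w c b).tape, (step M w c b).hd⟩ : Conf M) = step M w c b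
  rw [← hp]

/-- S9. (D7 with `E + 1 ≤ base ^ (S + 1)`; exits: S5. The initial configuration is in
`AS M S j true`.) -/
theorem dec_pv (M : PTM) (S t m j b : ℕ) :
    Dec ((base (toTM M) ^ (S + 1)) ^ m)
      (fun (u : {u : List Bool // u.length = j}) (v : {v : List Bool // v.length = b}) =>
        pv M S t m j (u.1 ++ v.1)) := by
  have h1 := dec_vv (U := {u : List Bool // u.length = j}) (V := {v : List Bool // v.length = b})
    (accS M) (fun u v => step M (u.1 ++ v.1)) (AS M S j) (EXs M S j) (memSet (toTM M) S).ncard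
    (fun s => dec_pv_card M S j s)
    (fun u v v' c b' hc => step_left M u.1 v.1 v'.1 (by rw [v.2, v'.2]) c b'
      (by rw [u.2]; exact hc.2.2 rfl))
    (fun u u' v c b' hc => step_right M u.1 u'.1 v.1 (by rw [u.2, u'.2]) c b'
      (by
        rw [u.2]
        exact not_le.1 fun h => absurd (hc.2.1 h) (by decide)))
    (fun s u v c b' hc _ hn => dec_pv_exit M S j s (u.1 ++ v.1)
      (by rw [List.length_append, u.2]; exact Nat.le_add_right _ _) c b' hc hn)
    (fun s e he => dec_pv_mem M S j s e he) t m true (initConf M) (dec_pv_init M S j)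
  refine Dec.mono (Nat.pow_le_pow_left ?_ m) h1
  rw [add_comm]
  exact memSet_card (toTM M) S
-- END dec_pv

-- BEGIN pv_bdd
/-- S10. -/
theorem pv_bdd (M : PTM) (S t m j : ℕ) (w : List Bool) :
    0 ≤ pv M S t m j w ∧ pv M S t m j w ≤ 1 := by
  unfold pv
  exact vv_bdd _ _ _ _ _ _ _
-- END pv_bdd

-- BEGIN pv_le
/-- S11. (C9; `accWithin ≤ accProb`: bounded by 1.) -/
theorem pv_le (M : PTM) (S t m j : ℕ) (w : List Bool) : pv M S t m j w ≤ accProb M w := by
  have h1 : pv M S t m j w ≤ accWithin M w ((m + 1) * t) := by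
    rw [accWithin_eq]
    exact vv_le_pacc (accS M) (step M w) (acc_fix M w) (AS M S j) t m true (initConf M)
  refine h1.trans (le_ciSup (f := fun t => accWithin M w t) ⟨1, ?_⟩ ((m + 1) * t))
  rintro x ⟨s, rfl⟩
  simp only
  rw [accWithin_eq]
  exact (pacc_bdd _ _ _ _).2
-- END pv_le

-- BEGIN pv_ge
/-- S12. (C10, C8, S3, S4.) -/
theorem pv_ge (M : PTM) (S t m j : ℕ) (w : List Bool) (hS : ∀ r, (visited M w r).encard ≤ S) :
    accWithin M w t - ex (gcr M j) (step M w) t (initConf M) / (m + 1) ≤ pv M S t m j w := by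
  have hmem := Rch_mem M w S hS
  have hcl := Rch_closed M w
  have hin : initConf M ∈ AS M S j true :=
    ⟨hmem _ hcl.1, by simp [initConf]⟩
  have hA : ∀ c ∈ Rch M w, ∀ s, c ∈ AS M S j s ↔ c ∉ AS M S j (!s) := by
    intro c hc s
    have h1 := hmem c hc
    simp only [AS, Set.mem_ofPred_eq, h1, true_and]
    cases s <;> simp
  have hm := markov (accS M) (step M w) (AS M S j) (Rch M w) hcl.2 hA (gcr M j)
    (fun c c' => by unfold gcr; split_ifs <;> norm_num)
    (fun c _ b s h1 h2 => by
      unfold gcr
      rw [if_neg]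
      intro h3
      have h4 := h1.2
      have h5 := h2.2
      rw [← h3, h4] at h5
      cases s <;> simp at h5)
    t m true (initConf M) hcl.1 hin
  have hp := px_le_vv (accS M) (step M w) (acc_fix M w) (AS M S j) t t le_rfl m true (initConf M) hin
  rw [accWithin_eq]
  unfold pv
  linarith
-- END pv_ge

-- BEGIN cross_le
/-- S13. (C11: a step crosses at most one boundary, and only if the head moves; S5, S6.) -/
theorem cross_le (M : PTM) (w : List Bool) (J : Finset ℕ) (t : ℕ) :
    ∑ j ∈ J, ex (gcr M j) (step M w) t (initConf M) ≤ moves M w t := by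
  have hcl := Rch_closed M w
  rw [moves_eq]
  refine ex_sum_le J (fun j => gcr M j) (gmv M) (step M w) (Rch M w) hcl.2 ?_ t (initConf M) hcl.1
  intro c hc b
  have hpos := Rch_pos M w c hc
  have key : ∀ i : ℕ, (∀ j, ¬ (c.pos ≤ j ↔ (step M w c b).pos ≤ j) → j = i) →
      ∑ j ∈ J, gcr M j c (step M w c b) ≤ 1 := by
    intro i hi
    have h1 : ∀ j ∈ J, gcr M j c (step M w c b) ≤ if j = i then (1 : ℝ) else 0 := by
      intro j _
      unfold gcr
      by_cases h : (c.pos ≤ j ↔ (step M w c b).pos ≤ j)
      · rw [if_pos h]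
        split_ifs <;> norm_num
      · rw [if_neg h, if_pos (hi j h)]
    refine (Finset.sum_le_sum h1).trans ?_
    rw [Finset.sum_ite_eq']
    split_ifs <;> norm_num
  rcases step_pos M w c b with h | h | h | h
  · have h1 : ∀ j ∈ J, gcr M j c (step M w c b) = 0 := by
      intro j _
      unfold gcr
      rw [if_pos (by rw [h])]
    rw [Finset.sum_eq_zero h1]
    unfold gmv
    split_ifs <;> norm_num
  · have h2 : gmv M c (step M w c b) = 1 := by
      unfold gmv
      rw [if_neg (by omega)]
    rw [h2]
    exact key (step M w c b).pos (fun j hj => by omega)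
  · have h2 : gmv M c (step M w c b) = 1 := by
      unfold gmv
      rw [if_neg (by omega)]
    rw [h2]
    exact key c.pos (fun j hj => by omega)
  · omega
-- END cross_le

-- BEGIN exists_time
/-- S14. (`accWithin` is monotone and bounded by 1.) -/
theorem exists_time (M : PTM) (w : List Bool) (x : ℝ) (hx : x < accProb M w) :
    ∃ t₀, ∀ t ≥ t₀, x ≤ accWithin M w t := by
  obtain ⟨t₀, ht₀⟩ := exists_lt_of_lt_ciSup hx
  refine ⟨t₀, fun t ht => ht₀.le.trans ?_⟩
  rw [accWithin_eq, accWithin_eq]
  exact pacc_mono (accS M) (step M w) (acc_fix M w) (initConf M) ht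
-- END exists_time

-- BEGIN accProb_nonneg
theorem accProb_nonneg (M : PTM) (w : List Bool) : 0 ≤ accProb M w := by
  refine Real.iSup_nonneg fun t => ?_
  rw [accWithin]
  positivity
-- END accProb_nonneg

end Pool.Agent.PrbM
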